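import Pool.Agent.Lib.LW.NLDefs

/-! Integral points on the complement of fixed and of random hypersurface sections of a projective variety: definitions.
The coordinates are indexed by `σ`. -/

namespace LVZ

open NumberField

/-- the value at `x` of the `i`-th component of the vector of forms `∑ k, c k * g k` -/
noncomputable def Fv {R L σ : Type} [CommRing R] [CommRing L] [Algebra R L] {N s : ℕ}
    (g : Fin N → Fin s → MvPolynomial σ R) (c : Fin N → ℤ) (i : Fin s) (x : σ → L) : L :=
  ∑ k, (c k : L) * MvPolynomial.aeval x (g k i)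

/-- the degree of the divisor `D`, the sum of the hypersurfaces `f l = 0` of degrees `e l` and of the hypersurfaces of
degrees `d i`, `i ∈ B` -/
def dg {j s : ℕ} (e : Fin j → ℕ) (d : Fin s → ℕ) (B : Finset (Fin s)) : ℕ := ∑ l, e l + ∑ i ∈ B, d i

/-- the value at `x` of the equation of `D`, the product of the `f l` and of the `i`-th components, `i ∈ B`, of
`∑ k, c k * g k` -/
noncomputable def Dv {R L σ : Type} [CommRing R] [CommRing L] [Algebra R L] {j N s : ℕ} (f : Fin j → MvPolynomial σ R)
    (g : Fin N → Fin s → MvPolynomial σ R) (B : Finset (Fin s)) (c : Fin N → ℤ) (x : σ → L) : L :=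
  (∏ l, MvPolynomial.aeval x (f l)) * ∏ i ∈ B, Fv g c i x

/-- the local height, for the absolute value `v` and at the point with coordinates `x`, of a divisor of degree `n` whose
equation has the value `y` at `x`: `- log (|y|_v / |x|_v ^ n)` -/
noncomputable def lam {K σ : Type} [Field K] (v : AbsoluteValue K ℝ) (n : ℕ) (y : K) (x : σ → K) : ℝ :=
  (n : ℝ) * Real.log (⨆ w, v (x w)) - Real.log (v y)

/-- the proximity function of this divisor for the set of places consisting of the infinite places and the places
in `S` -/
noncomputable def mS {K σ : Type} [Field K] [NumberField K] (S : Finset (FinitePlace K)) (n : ℕ) (y : K) (x : σ → K) : ℝ :=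
  (∑ v : InfinitePlace K, (v.mult : ℝ) * lam v.1 n y x + ∑ v ∈ S, lam v.1 n y x) / Module.finrank ℚ K

/-- the ideal `P` is homogeneous -/
def Hm {K σ : Type} [Field K] (P : Ideal (MvPolynomial σ K)) : Prop :=
  ∀ g ∈ P, ∀ n, MvPolynomial.homogeneousComponent n g ∈ P

/-- the ideal `P` is prime over an algebraic closure and its zero set has dimension `r`: for a homogeneous ideal `P`,
its projective variety is geometrically integral of dimension `r - 1` -/
def GI {K σ : Type} [Field K] (P : Ideal (MvPolynomial σ K)) (r : ℕ) : Prop :=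
  (P.map (MvPolynomial.map (σ := σ) (algebraMap K (AlgebraicClosure K)))).IsPrime ∧
    ringKrullDim (MvPolynomial σ K ⧸ P) = r

/-- the vector `x` is a zero of all elements of `P` -/
def On {K σ : Type} [Field K] (P : Ideal (MvPolynomial σ K)) (x : σ → K) : Prop := ∀ g ∈ P, MvPolynomial.eval x g = 0

/-- there are `r` linear forms which have no common zero with `P` and the `f l` other than `0` over an algebraic closure:
the intersection of the projective variety of `P` with the hypersurfaces `f l = 0` has dimension at most `r - 1` -/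
def GP {K σ : Type} [Field K] [NumberField K] {j : ℕ} (P : Ideal (MvPolynomial σ K)) (f : Fin j → MvPolynomial σ (𝓞 K))
    (r : ℕ) : Prop :=
  ∃ ell : Fin r → MvPolynomial σ K, (∀ k, (ell k).IsHomogeneous 1) ∧ ∀ x : σ → AlgebraicClosure K,
    (∀ g ∈ P, MvPolynomial.aeval x g = 0) →
      (∀ l, MvPolynomial.aeval x (MvPolynomial.map (algebraMap (𝓞 K) K) (f l)) = 0) →
        (∀ k, MvPolynomial.aeval x (ell k) = 0) → x = 0

/-- the linear combinations of the vectors of forms `g k` take all values at every point over an algebraic closure which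
is on the projective variety of `P` and on none of the hypersurfaces `f l = 0` -/
def GG {K σ : Type} [Field K] [NumberField K] {j N s : ℕ} (P : Ideal (MvPolynomial σ K))
    (f : Fin j → MvPolynomial σ (𝓞 K)) (g : Fin N → Fin s → MvPolynomial σ (𝓞 K)) : Prop :=
  ∀ x : σ → AlgebraicClosure K, x ≠ 0 → (∀ h ∈ P, MvPolynomial.aeval x h = 0) →
    (∀ l, MvPolynomial.aeval x (MvPolynomial.map (algebraMap (𝓞 K) K) (f l)) ≠ 0) →
      ∀ y : Fin s → AlgebraicClosure K, ∃ a : Fin N → AlgebraicClosure K,
        ∀ i, ∑ k, a k * MvPolynomial.aeval x (MvPolynomial.map (algebraMap (𝓞 K) K) (g k i)) = y i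

/-- for every form `h` of degree `d i` over `K`, the vector with `i`-th component `h` and the other components `0` is a
linear combination of the vectors of forms `g k` -/
def Cp {K σ : Type} [Field K] [NumberField K] {N s : ℕ} (g : Fin N → Fin s → MvPolynomial σ (𝓞 K)) (d : Fin s → ℕ)
    (i : Fin s) : Prop :=
  ∀ h : MvPolynomial σ K, h.IsHomogeneous (d i) → ∃ a : Fin N → K, ∀ i',
    ∑ k, MvPolynomial.C (a k) * MvPolynomial.map (algebraMap (𝓞 K) K) (g k i') = if i' = i then h else 0

/-- at most one `f l`, a linear form, and a geometrically integral variety of dimension `r + j - 1`, or linearly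
independent linear forms `f l` and the whole projective space -/
def Sh {K σ : Type} [Field K] [NumberField K] {j : ℕ} (P : Ideal (MvPolynomial σ K)) (e : Fin j → ℕ)
    (f : Fin j → MvPolynomial σ (𝓞 K)) (r : ℕ) : Prop :=
  (∀ l, e l = 1) ∧ ((j ≤ 1 ∧ GI P (r + j)) ∨ (P = ⊥ ∧ LinearIndependent (𝓞 K) f))

end LVZ
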