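import Pool.Agent.Lib.MP_17a322_ntLZ.PDefs
import Pool.Agent.Lib.MP_17a322_ntLY.F5

/-! The local heights. -/

namespace LVZ

open NumberField
open LVY (aeval_smul aeval_le)

private theorem F5_sup_pos {ι K : Type} [Finite ι] [Field K] (v : AbsoluteValue K ℝ) {x : ι → K} (hx : x ≠ 0) :
    0 < ⨆ w, v (x w) := by
  obtain ⟨w, hw⟩ := Function.ne_iff.1 hx
  exact lt_of_lt_of_le (v.pos hw) (le_ciSup (Set.finite_range fun w => v (x w)).bddAbove w)

theorem lam_smul {K σ : Type} [Field K] [Finite σ] (v : AbsoluteValue K ℝ) (n : ℕ) {l : K} (hl : l ≠ 0) {y : K}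
    (hy : y ≠ 0) {x : σ → K} (hx : x ≠ 0) : lam v n (l ^ n * y) (l • x) = lam v n y x := by
  unfold lam
  have h1 : (⨆ w, v ((l • x) w)) = v l * ⨆ w, v (x w) := by
    rw [Real.mul_iSup_of_nonneg (v.nonneg l)]
    simp only [Pi.smul_apply, smul_eq_mul, map_mul]
  have h2 := F5_sup_pos v hx
  have h3 : 0 < v l := v.pos hl
  have h4 : 0 < v y := v.pos hy
  rw [h1, map_mul, map_pow, Real.log_mul h3.ne' h2.ne', Real.log_mul (pow_pos h3 _).ne' h4.ne', Real.log_pow]
  ring

theorem mS_smul {K σ : Type} [Field K] [NumberField K] [Finite σ] (S : Finset (FinitePlace K)) (n : ℕ) {l : K}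
    (hl : l ≠ 0) {y : K} (hy : y ≠ 0) {x : σ → K} (hx : x ≠ 0) : mS S n (l ^ n * y) (l • x) = mS S n y x := by
  unfold mS
  congr 2
  · exact Finset.sum_congr rfl fun v _ => by rw [lam_smul v.1 n hl hy hx]
  · exact Finset.sum_congr rfl fun v _ => by rw [lam_smul v.1 n hl hy hx]

theorem lam_nonneg {K σ : Type} [Field K] [NumberField K] [Finite σ] (v : FinitePlace K) (n : ℕ) {y : K}
    (hy : y ≠ 0) (x : σ → K) (h : v y ≤ (⨆ w, v (x w)) ^ n) : 0 ≤ lam v.1 n y x := by
  have h2 : 0 < v y := v.1.pos hy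
  have h3 := Real.log_le_log h2 h
  rw [Real.log_pow] at h3
  have h4 : lam v.1 n y x = (n : ℝ) * Real.log (⨆ w, v (x w)) - Real.log (v y) := rfl
  rw [h4]
  linarith

private theorem F5_fin {K : Type} [Field K] [NumberField K] {ι : Type} [Finite ι] {x : ι → K} (hx : x ≠ 0) :
    (Function.mulSupport fun v : FinitePlace K => ⨆ w, v (x w)).Finite := by
  have h1 : (⋃ w : {w : ι // x w ≠ 0}, Function.mulSupport fun v : FinitePlace K => v (x w.1)).Finite :=
    Set.finite_iUnion fun w => FinitePlace.hasFiniteMulSupport w.2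
  refine h1.subset fun v hv => ?_
  by_contra hcon
  rw [Set.mem_iUnion] at hcon
  push Not at hcon
  have h2 : ∀ w, x w ≠ 0 → v (x w) = 1 := fun w hw => by
    by_contra h
    exact hcon ⟨w, hw⟩ h
  rw [Function.mem_mulSupport] at hv
  refine hv ?_
  obtain ⟨w, hw⟩ := Function.ne_iff.1 hx
  have : Nonempty ι := ⟨w⟩
  refine le_antisymm (ciSup_le fun w' => ?_) ?_
  · rcases eq_or_ne (x w') 0 with h | h
    · rw [h, map_zero]
      exact zero_le_one
    · exact (h2 w' h).le
  · rw [← h2 w hw]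
    exact le_ciSup (Set.finite_range fun w => v (x w)).bddAbove w

theorem height_eq {K σ : Type} [Field K] [NumberField K] [Finite σ] (n : ℕ) {y : K} (hy : y ≠ 0) {x : σ → K}
    (hx : x ≠ 0) : (Function.support fun v : FinitePlace K => lam v.1 n y x).Finite ∧
      (n : ℝ) * Height.logHeight x =
        ∑ v : InfinitePlace K, (v.mult : ℝ) * lam v.1 n y x + ∑ᶠ v : FinitePlace K, lam v.1 n y x := by
  have hM : ∀ v : FinitePlace K, 0 < ⨆ w, v (x w) := fun v => F5_sup_pos v.1 hx
  have hM' : ∀ v : InfinitePlace K, 0 < ⨆ w, v (x w) := fun v => F5_sup_pos v.1 hx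
  have hDv : ∀ v : FinitePlace K, 0 < v y := fun v => v.1.pos hy
  have hDv' : ∀ v : InfinitePlace K, 0 < v y := fun v => v.1.pos hy
  have hlam : ∀ v : FinitePlace K, lam v.1 n y x = (n : ℝ) * Real.log (⨆ w, v (x w)) - Real.log (v y) :=
    fun v => rfl
  have hlam' : ∀ v : InfinitePlace K, lam v.1 n y x = (n : ℝ) * Real.log (⨆ w, v (x w)) - Real.log (v y) :=
    fun v => rfl
  have s1 : (Function.support fun v : FinitePlace K => (n : ℝ) * Real.log (⨆ w, v (x w))).Finite := by
    refine (F5_fin hx).subset fun v hv => ?_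
    rw [Function.mem_support] at hv
    rw [Function.mem_mulSupport]
    intro h
    exact hv (by rw [h, Real.log_one, mul_zero])
  have s2 : (Function.support fun v : FinitePlace K => Real.log (v y)).Finite := by
    refine (FinitePlace.hasFiniteMulSupport hy).subset fun v hv => ?_
    rw [Function.mem_support] at hv
    rw [Function.mem_mulSupport]
    intro h
    exact hv (by rw [h, Real.log_one])
  refine ⟨(s1.union s2).subset fun v hv => ?_, ?_⟩
  · rw [Function.mem_support, hlam v] at hv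
    by_contra hcon
    rw [Set.mem_union, Function.mem_support, Function.mem_support] at hcon
    push Not at hcon
    exact hv (by rw [hcon.1, hcon.2, sub_zero])
  · have h1 : ∑ᶠ v : FinitePlace K, lam v.1 n y x =
        (n : ℝ) * (∑ᶠ v : FinitePlace K, Real.log (⨆ w, v (x w))) - ∑ᶠ v : FinitePlace K, Real.log (v y) := by
      rw [mul_finsum, ← finsum_sub_distrib s1 s2]
      exact finsum_congr hlam
    have h2 : Height.logHeight x = ∑ v : InfinitePlace K, (v.mult : ℝ) * Real.log (⨆ w, v (x w)) +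
        ∑ᶠ v : FinitePlace K, Real.log (⨆ w, v (x w)) := by
      rw [Height.logHeight_eq_log_mulHeight, NumberField.mulHeight_eq hx, Real.log_mul, Real.log_prod, Real.log_finprod hM]
      · congr 1
        exact Finset.sum_congr rfl fun v _ => Real.log_pow _ _
      · intro v _
        exact (pow_pos (hM' v) _).ne'
      · exact (Finset.prod_pos fun v _ => pow_pos (hM' v) _).ne'
      · exact (finprod_induction (fun r : ℝ => 0 < r) one_pos (fun _ _ h h' => mul_pos h h') hM).ne'
    have h3 : 0 = ∑ v : InfinitePlace K, (v.mult : ℝ) * Real.log (v y) + ∑ᶠ v : FinitePlace K, Real.log (v y) := by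
      have h4 := congrArg Real.log (NumberField.prod_abs_eq_one hy)
      rw [Real.log_one, Real.log_mul, Real.log_prod, Real.log_finprod hDv] at h4
      · rw [← h4]
        congr 1
        exact Finset.sum_congr rfl fun v _ => Real.log_pow _ _
      · intro v _
        exact (pow_pos (hDv' v) _).ne'
      · exact (Finset.prod_pos fun v _ => pow_pos (hDv' v) _).ne'
      · exact (finprod_induction (fun r : ℝ => 0 < r) one_pos (fun _ _ h h' => mul_pos h h') hDv).ne'
    have h5 : ∑ v : InfinitePlace K, (v.mult : ℝ) * lam v.1 n y x =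
        (n : ℝ) * (∑ v : InfinitePlace K, (v.mult : ℝ) * Real.log (⨆ w, v (x w))) -
          ∑ v : InfinitePlace K, (v.mult : ℝ) * Real.log (v y) := by
      rw [Finset.mul_sum, ← Finset.sum_sub_distrib]
      refine Finset.sum_congr rfl fun v _ => ?_
      rw [hlam' v]
      ring
    rw [h1, h2, h5]
    linarith

open Classical in
/-- the part outside `S0` of an element `z` with `- log |z|_v ≤ lam v` there -/
theorem sum_le {K σ : Type} [Field K] [NumberField K] [Finite σ] {S S0 : Finset (FinitePlace K)} (hS : S ⊆ S0) (n : ℕ)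
    {y : K} (hy : y ≠ 0) {x : σ → K} (hx : x ≠ 0) (hnn : ∀ v : FinitePlace K, 0 ≤ lam v.1 n y x) {B : ℝ}
    (hB : (n : ℝ) * Height.logHeight x ≤ (Module.finrank ℚ K : ℝ) * mS S n y x + B) (z : K)
    (hz : ∀ v : FinitePlace K, v ∉ S0 → v z ≤ 1 ∧ - Real.log (v z) ≤ lam v.1 n y x) :
    (∑ᶠ v : FinitePlace K, if v ∈ S0 then 0 else - Real.log (v z)) ≤ B := by
  obtain ⟨hfin, hH⟩ := height_eq n hy hx
  have hK : (Module.finrank ℚ K : ℝ) ≠ 0 := Nat.cast_ne_zero.2 Module.finrank_pos.ne'
  have hm : (Module.finrank ℚ K : ℝ) * mS S n y x =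
      ∑ v : InfinitePlace K, (v.mult : ℝ) * lam v.1 n y x + ∑ v ∈ S, lam v.1 n y x := by
    rw [mS]
    exact mul_div_cancel₀ _ hK
  rw [hH, hm] at hB
  set F : FinitePlace K → ℝ := fun v => if v ∈ S0 then 0 else - Real.log (v z) with hF
  have hf0 : ∀ v, v ∈ S0 → F v = 0 := fun v hv => if_pos hv
  have hf1 : ∀ v, v ∉ S0 → 0 ≤ F v ∧ F v ≤ lam v.1 n y x := by
    intro v hv
    have h2 : F v = - Real.log (v z) := if_neg hv
    rw [h2]
    exact ⟨neg_nonneg.2 (Real.log_nonpos (apply_nonneg v _) (hz v hv).1), (hz v hv).2⟩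
  have hs1 : ∑ᶠ v : FinitePlace K, lam v.1 n y x = ∑ v ∈ hfin.toFinset ∪ S0, lam v.1 n y x := by
    refine finsum_eq_sum_of_support_subset _ fun v hv => ?_
    rw [Finset.mem_coe, Finset.mem_union, Set.Finite.mem_toFinset]
    exact Or.inl hv
  have hs2 : ∑ᶠ v : FinitePlace K, F v = ∑ v ∈ hfin.toFinset ∪ S0, F v := by
    refine finsum_eq_sum_of_support_subset _ fun v hv => ?_
    rw [Finset.mem_coe, Finset.mem_union, Set.Finite.mem_toFinset]
    by_cases h : v ∈ S0
    · exact Or.inr h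
    · left
      intro h2
      have h3 := hf1 v h
      exact hv (le_antisymm (h3.2.trans h2.le) h3.1)
  have hs3 : ∑ v ∈ S, lam v.1 n y x = ∑ v ∈ hfin.toFinset ∪ S0, if v ∈ S then lam v.1 n y x else 0 := by
    rw [Finset.sum_ite_mem, Finset.inter_eq_right.2 (hS.trans Finset.subset_union_right)]
  have hs4 : ∑ v ∈ hfin.toFinset ∪ S0, F v + (∑ v ∈ hfin.toFinset ∪ S0, if v ∈ S then lam v.1 n y x else 0) ≤
      ∑ v ∈ hfin.toFinset ∪ S0, lam v.1 n y x := by
    rw [← Finset.sum_add_distrib]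
    refine Finset.sum_le_sum fun v _ => ?_
    by_cases h : v ∈ S
    · rw [hf0 v (hS h), if_pos h, zero_add]
    · rw [if_neg h, add_zero]
      by_cases h2 : v ∈ S0
      · rw [hf0 v h2]
        exact hnn v
      · exact (hf1 v h2).2
  rw [hs1, hs3] at hB
  show ∑ᶠ v : FinitePlace K, F v ≤ B
  rw [hs2]
  linarith

section

variable {K σ : Type} [Field K] [NumberField K] [Finite σ] {j s N : ℕ} {d : Fin s → ℕ} {e : Fin j → ℕ}
  {f : Fin j → MvPolynomial σ (𝓞 K)} {g : Fin N → Fin s → MvPolynomial σ (𝓞 K)}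

theorem Fv_smul {R L τ : Type} [CommRing R] [CommRing L] [Algebra R L] {g : Fin N → Fin s → MvPolynomial τ R}
    (hg : ∀ k i, (g k i).IsHomogeneous (d i)) (c : Fin N → ℤ) (i : Fin s) (l : L) (x : τ → L) :
    Fv g c i (l • x) = l ^ d i * Fv g c i x := by
  unfold Fv
  rw [Finset.mul_sum]
  refine Finset.sum_congr rfl fun k _ => ?_
  rw [aeval_smul (hg k i)]
  ring

theorem Dv_smul {R L τ : Type} [CommRing R] [CommRing L] [Algebra R L] {f : Fin j → MvPolynomial τ R}
    {g : Fin N → Fin s → MvPolynomial τ R} (hf : ∀ l, (f l).IsHomogeneous (e l))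
    (hg : ∀ k i, (g k i).IsHomogeneous (d i)) (B : Finset (Fin s)) (c : Fin N → ℤ) (l : L) (x : τ → L) :
    Dv f g B c (l • x) = l ^ dg e d B * Dv f g B c x := by
  unfold Dv dg
  have h1 : ∏ k : Fin j, MvPolynomial.aeval (l • x) (f k) = l ^ (∑ k, e k) * ∏ k : Fin j, MvPolynomial.aeval x (f k) := by
    rw [← Finset.prod_pow_eq_pow_sum, ← Finset.prod_mul_distrib]
    exact Finset.prod_congr rfl fun k _ => aeval_smul (hf k) _ _
  have h2 : ∏ i ∈ B, Fv g c i (l • x) = l ^ (∑ i ∈ B, d i) * ∏ i ∈ B, Fv g c i x := by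
    rw [← Finset.prod_pow_eq_pow_sum, ← Finset.prod_mul_distrib]
    exact Finset.prod_congr rfl fun i _ => Fv_smul hg c i l x
  rw [h1, h2, pow_add]
  ring

private theorem F5_int (v : FinitePlace K) (n : ℤ) : v (n : K) ≤ 1 := by
  have h1 : ((n : 𝓞 K) : K) = (n : K) := by simp
  rw [← h1]
  exact LVH.place_int K v _

theorem Fv_le (hg : ∀ k i, (g k i).IsHomogeneous (d i)) (c : Fin N → ℤ) (i : Fin s) (v : FinitePlace K) (x : σ → K) :
    v (Fv g c i x) ≤ (⨆ w, v (x w)) ^ d i := by
  have hM : 0 ≤ (⨆ w, v (x w)) ^ d i := pow_nonneg (Real.iSup_nonneg fun w => apply_nonneg v _) _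
  unfold Fv
  have key : ∀ T : Finset (Fin N), v (∑ k ∈ T, (c k : K) * MvPolynomial.aeval x (g k i)) ≤ (⨆ w, v (x w)) ^ d i := by
    classical
    intro T
    induction T using Finset.induction_on with
    | empty =>
      rw [Finset.sum_empty, map_zero]
      exact hM
    | insert k T hk ih =>
      rw [Finset.sum_insert hk]
      refine (FinitePlace.add_le v _ _).trans (max_le ?_ ih)
      rw [map_mul]
      calc v (c k : K) * v (MvPolynomial.aeval x (g k i)) ≤ 1 * (⨆ w, v (x w)) ^ d i :=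
            mul_le_mul (F5_int v _) (aeval_le v (hg k i) x) (apply_nonneg v _) zero_le_one
        _ = _ := one_mul _
  exact key Finset.univ

theorem Dv_le (hf : ∀ l, (f l).IsHomogeneous (e l)) (hg : ∀ k i, (g k i).IsHomogeneous (d i)) (B : Finset (Fin s))
    (c : Fin N → ℤ) (v : FinitePlace K) (x : σ → K) : v (Dv f g B c x) ≤ (⨆ w, v (x w)) ^ dg e d B := by
  have hM : 0 ≤ ⨆ w, v (x w) := Real.iSup_nonneg fun w => apply_nonneg v _
  unfold Dv dg
  rw [map_mul, map_prod, map_prod, pow_add, ← Finset.prod_pow_eq_pow_sum, ← Finset.prod_pow_eq_pow_sum]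
  refine mul_le_mul ?_ ?_ (Finset.prod_nonneg fun i _ => apply_nonneg v _)
    (Finset.prod_nonneg fun i _ => pow_nonneg hM _)
  · exact Finset.prod_le_prod (fun i _ => apply_nonneg v _) fun i _ => aeval_le v (hf i) x
  · exact Finset.prod_le_prod (fun i _ => apply_nonneg v _) fun i _ => Fv_le hg c i v x

/-- a factor of the equation, at a place where `x` has the norm `1` -/
theorem factor_le (hf : ∀ l, (f l).IsHomogeneous (e l)) (hg : ∀ k i, (g k i).IsHomogeneous (d i)) (B : Finset (Fin s))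
    (c : Fin N → ℤ) (v : FinitePlace K) {x : σ → K} (hD : Dv f g B c x ≠ 0) (h1 : (⨆ w, v (x w)) = 1) {z : K}
    (hz : (∃ l, z = MvPolynomial.aeval x (f l)) ∨ ∃ i ∈ B, z = Fv g c i x) :
    v z ≤ 1 ∧ - Real.log (v z) ≤ lam v.1 (dg e d B) (Dv f g B c x) x := by
  classical
  have hfl : ∀ l, v (MvPolynomial.aeval x (f l)) ≤ 1 := fun l => by
    have h := aeval_le v (hf l) x
    rwa [h1, one_pow] at h
  have hFl : ∀ i, v (Fv g c i x) ≤ 1 := fun i => by
    have h := Fv_le hg c i v x
    rwa [h1, one_pow] at h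
  have hA : v (∏ l, MvPolynomial.aeval x (f l)) ≤ 1 := by
    rw [map_prod]
    exact Finset.prod_le_one (fun l _ => apply_nonneg v _) fun l _ => hfl l
  have hB : v (∏ i ∈ B, Fv g c i x) ≤ 1 := by
    rw [map_prod]
    exact Finset.prod_le_one (fun l _ => apply_nonneg v _) fun l _ => hFl l
  have hlam : lam v.1 (dg e d B) (Dv f g B c x) x = - Real.log (v (Dv f g B c x)) := by
    have h3 : (⨆ w, v.1 (x w)) = 1 := h1
    rw [lam, h3, Real.log_one, mul_zero, zero_sub]
    rfl
  have h0 : 0 < v (Dv f g B c x) := v.1.pos hD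
  have hle : v (Dv f g B c x) ≤ v z := by
    have hDe : v (Dv f g B c x) = v (∏ l, MvPolynomial.aeval x (f l)) * v (∏ i ∈ B, Fv g c i x) := by
      unfold Dv
      rw [map_mul]
    rw [hDe]
    rcases hz with ⟨l, rfl⟩ | ⟨i, hi, rfl⟩
    · have h2 : v (∏ l, MvPolynomial.aeval x (f l)) ≤ v (MvPolynomial.aeval x (f l)) := by
        rw [map_prod, ← Finset.mul_prod_erase _ _ (Finset.mem_univ l)]
        exact mul_le_of_le_one_right (apply_nonneg v _)
          (Finset.prod_le_one (fun l _ => apply_nonneg v _) fun l _ => hfl l)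
      exact (mul_le_of_le_one_right (apply_nonneg v _) hB).trans h2
    · have h2 : v (∏ i ∈ B, Fv g c i x) ≤ v (Fv g c i x) := by
        rw [map_prod, ← Finset.mul_prod_erase _ _ hi]
        exact mul_le_of_le_one_right (apply_nonneg v _)
          (Finset.prod_le_one (fun l _ => apply_nonneg v _) fun l _ => hFl l)
      exact (mul_le_of_le_one_left (apply_nonneg v _) hA).trans h2
  refine ⟨?_, ?_⟩
  · rcases hz with ⟨l, rfl⟩ | ⟨i, hi, rfl⟩
    · exact hfl l
    · exact hFl i
  · rw [hlam]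
    exact neg_le_neg (Real.log_le_log h0 hle)

end

end LVZ
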