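import Pool.Agent.Lib.MP_17a322_ntLZ.E0
import Pool.Agent.Lib.MP_17a322_ntLX.SetT
import Pool.Agent.Lib.MP_17a322_ntLH.F1
import Pool.Agent.Lib.MP_17a322_ntLH.F2U
import Pool.Agent.Lib.MP_17a322_ntLH.F3
import Pool.Agent.Lib.MP_17a322_ntLH.F4
import Pool.Agent.Lib.MP_17a322_ntLH.F9

/-! The number of integral vectors with an almost `S`-unit solution, for abstract local conditions. -/

namespace LVZ

open Finset NumberField
open LVH (Pl res ideal_reps sunit_rank exists_M1 place_coprime place_int pl_place)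
open LVX (setT)

/-- the trivial bound -/
private theorem triv {ι : Type} [Fintype ι] [DecidableEq ι] (H : ℕ) (Q : (ι → ℤ) → Prop) :
    (Nat.card {c : ι → ℤ // (∀ t, |c t| ≤ (H : ℤ)) ∧ Q c} : ℝ) ≤ (2 * (H : ℝ) + 1) ^ Fintype.card ι := by
  classical
  rw [MWS.VM_card]
  have h1 : ((Fintype.piFinset (fun _ : ι => Icc (-(H : ℤ)) H)).filter Q).card ≤ (2 * H + 1) ^ Fintype.card ι := by
    refine (card_filter_le _ _).trans ?_
    rw [Fintype.card_piFinset, prod_const, Int.card_Icc, Finset.card_univ]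
    exact Nat.pow_le_pow_left (by omega) _
  exact_mod_cast h1

/-- the analysis of the constants -/
private theorem large (η c1 A1 A2 : ℝ) (hη : 0 < η) (hc1 : 0 < c1) (h0 : ℕ) (m : ℕ) : ∃ H1 : ℕ,
    ∀ H : ℕ, H1 ≤ H → h0 ≤ H ∧ m * (A1 + Real.log H ^ (η / 2)) ≤ Real.log H ^ η ∧
      A2 + c1 * Real.log H + m * (c1 * Real.log H) ≤ Real.log H ^ (1 + η) ∧ (2 : ℝ) ≤ (H : ℝ) ^ c1 := by
  have hcast : Filter.Tendsto (fun H : ℕ => (H : ℝ)) Filter.atTop Filter.atTop := tendsto_natCast_atTop_atTop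
  have hlog : Filter.Tendsto (fun H : ℕ => Real.log H) Filter.atTop Filter.atTop := Real.tendsto_log_atTop.comp hcast
  have hη2 : 0 < η / 2 := by positivity
  have e2 : ∀ᶠ H : ℕ in Filter.atTop, |A2| + c1 + m * c1 ≤ Real.log H ^ η :=
    ((tendsto_rpow_atTop hη).comp hlog).eventually_ge_atTop _
  have e3 : ∀ᶠ H : ℕ in Filter.atTop, (2 : ℝ) ≤ Real.log H := hlog.eventually_ge_atTop _
  have e4 : ∀ᶠ H : ℕ in Filter.atTop, (2 : ℝ) ≤ (H : ℝ) ^ c1 :=
    ((tendsto_rpow_atTop hc1).comp hcast).eventually_ge_atTop _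
  have e5 : ∀ᶠ H : ℕ in Filter.atTop, m * (|A1| + 1) ≤ Real.log H ^ (η / 2) :=
    ((tendsto_rpow_atTop hη2).comp hlog).eventually_ge_atTop _
  obtain ⟨H1, hH1⟩ := Filter.eventually_atTop.1
    ((Filter.eventually_ge_atTop h0).and (e2.and (e3.and (e4.and e5))))
  refine ⟨H1, fun H hH => ?_⟩
  obtain ⟨a1, a3, a4, a5, a6⟩ := hH1 H hH
  have hl : 0 < Real.log H := by linarith
  have hl1 : 1 ≤ Real.log H := by linarith
  have h3 : Real.log H ^ (η / 2) * Real.log H ^ (η / 2) = Real.log H ^ η := by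
    rw [← Real.rpow_add hl]
    congr 1
    ring
  have h4 : 1 ≤ Real.log H ^ (η / 2) := Real.one_le_rpow hl1 hη2.le
  have hm : (0 : ℝ) ≤ m := Nat.cast_nonneg _
  refine ⟨a1, ?_, ?_, a5⟩
  · calc m * (A1 + Real.log H ^ (η / 2)) ≤ m * (|A1| * Real.log H ^ (η / 2) + Real.log H ^ (η / 2)) := by
          refine mul_le_mul_of_nonneg_left (add_le_add ?_ le_rfl) hm
          exact (le_abs_self A1).trans (le_mul_of_one_le_right (abs_nonneg A1) h4)
      _ = m * (|A1| + 1) * Real.log H ^ (η / 2) := by ring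
      _ ≤ Real.log H ^ (η / 2) * Real.log H ^ (η / 2) := mul_le_mul_of_nonneg_right a6 (by positivity)
      _ = Real.log H ^ η := h3
  · have h6 : A2 ≤ |A2| * Real.log H := (le_abs_self A2).trans (le_mul_of_one_le_right (abs_nonneg A2) hl1)
    rw [Real.rpow_add hl, Real.rpow_one]
    calc A2 + c1 * Real.log H + m * (c1 * Real.log H) ≤ (|A2| + c1 + m * c1) * Real.log H := by nlinarith
      _ ≤ Real.log H ^ η * Real.log H := mul_le_mul_of_nonneg_right a3 hl.le
      _ = Real.log H * Real.log H ^ η := mul_comm _ _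

open Classical in
/-- `Q T c` is an abstract condition on a finite set `T` of places and an integral vector `c`.  Assume that it gives
nonzero elements `y w` of `K` which are integral outside `S2 ∪ T` with `∑ - log |y w|_v ≤ c0 log H` over the places
outside `S2 ∪ T`, such that `c` modulo `p` is in the set `R p π y` for all places `π` of degree one over `p ≥ p0` which
are not in `S2 ∪ T` and at which the `y w` are units.  If the sets `R p π y` have density at most `1 - κ`, then there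
are at most `C H ^ (N - δ)` vectors `c` with coordinates bounded by `H` such that `Q T c` for some `T` with at most
`(log H) ^ η` elements and product of the norms at most `H ^ c0`. -/
theorem engine (K : Type) [Field K] [NumberField K] : ∃ δ η : ℝ, 0 < δ ∧ 0 < η ∧ ∀ (m N : ℕ)
    (S2 : Finset (FinitePlace K)) (κ : ℝ), 0 < κ → κ ≤ 1 → ∀ (p0 : ℕ)
    (R : (p : ℕ) → Pl K p → (Fin m → ZMod p) → Set (Fin N → ZMod p)),
    (∀ (p : ℕ) [Fact p.Prime], p0 ≤ p → ∀ (π : Pl K p) (y : Fin m → ZMod p), (∀ w, y w ≠ 0) →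
      (Nat.card (R p π y) : ℝ) ≤ (1 - κ) * (p : ℝ) ^ N) →
    ∃ c0 C : ℝ, 0 < c0 ∧ ∀ H : ℕ, 1 ≤ H → ∀ Q : Finset (FinitePlace K) → (Fin N → ℤ) → Prop,
      (∀ T c, (∀ k, |c k| ≤ (H : ℤ)) → Q T c → ∃ y : Fin m → K,
        (∀ w, y w ≠ 0 ∧ (∀ v : FinitePlace K, v ∉ S2 ∪ T → v (y w) ≤ 1) ∧
          (∑ᶠ v : FinitePlace K, if v ∈ S2 ∪ T then 0 else - Real.log (v (y w))) ≤ c0 * Real.log H) ∧
        ∀ (p : ℕ) [Fact p.Prime], p0 ≤ p → ∀ π : Pl K p,
          (∃ v : FinitePlace K, v ∉ S2 ∪ T ∧ v (p : K) < 1 ∧ ∀ x : K, v x ≤ 1 → x ∈ π.V) →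
          (∀ w, y w ∈ π.V ∧ (y w)⁻¹ ∈ π.V) →
            (fun k => ((c k : ℤ) : ZMod p)) ∈ R p π (fun w => res π (y w))) →
      (Nat.card {c : Fin N → ℤ // (∀ k, |c k| ≤ (H : ℤ)) ∧ ¬ ∀ T : Finset (FinitePlace K),
        (T.card : ℝ) ≤ Real.log H ^ η →
        ∑ v ∈ T, Real.log (Ideal.absNorm v.maximalIdeal.asIdeal : ℝ) ≤ c0 * Real.log H → ¬ Q T c} : ℝ) ≤
          C * (H : ℝ) ^ ((N : ℝ) - δ) := by
  obtain ⟨δ, η, hδ, hη, hcl⟩ := one_class K
  obtain ⟨B, hB, hBc, hW⟩ := ideal_reps K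
  obtain ⟨r0, hr0⟩ := sunit_rank K
  refine ⟨δ / 2, η / 2, by positivity, by positivity, fun m N S2 κ hκ hκ1 p0 R hR => ?_⟩
  obtain ⟨h0, hh0⟩ := hcl m N κ hκ hκ1 p0 R hR
  have hm0 : (0 : ℝ) ≤ (m : ℝ) := Nat.cast_nonneg _
  obtain ⟨c1, hc1⟩ : ∃ c1 : ℝ, c1 = δ / (2 * B * ((m : ℝ) + 1)) := ⟨_, rfl⟩
  have hc10 : 0 < c1 := by rw [hc1]; positivity
  obtain ⟨A2, hA2⟩ : ∃ A2 : ℝ, A2 = ∑ v ∈ S2, Real.log (Ideal.absNorm v.maximalIdeal.asIdeal : ℝ) := ⟨_, rfl⟩
  obtain ⟨H1, hH1⟩ := large η c1 (r0 + S2.card) A2 hη hc10 h0 m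
  obtain ⟨C', hC'⟩ : ∃ C' : ℝ, C' = (2 * (H1 : ℝ) + 1) ^ N * ((H1 : ℝ) + 1) ^ (δ / 2) := ⟨_, rfl⟩
  have hC'0 : 0 ≤ C' := by rw [hC']; positivity
  refine ⟨c1, C' + 1, hc10, fun H hH Q hQ => ?_⟩
  have hHr : (1 : ℝ) ≤ H := by exact_mod_cast hH
  have hHpos : (0 : ℝ) < H := by linarith
  have hHl : 0 ≤ Real.log H := Real.log_nonneg hHr
  have hpow : (0 : ℝ) < (H : ℝ) ^ ((N : ℝ) - δ / 2) := Real.rpow_pos_of_pos hHpos _
  rcases lt_or_ge H H1 with hlt | hge
  · -- small `H`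
    refine (triv H _).trans ?_
    rw [Fintype.card_fin]
    have hlt' : (H : ℝ) ≤ H1 := by exact_mod_cast hlt.le
    calc (2 * (H : ℝ) + 1) ^ N ≤ (2 * (H1 : ℝ) + 1) ^ N := pow_le_pow_left₀ (by positivity) (by linarith) _
      _ = (2 * (H1 : ℝ) + 1) ^ N * 1 := (mul_one _).symm
      _ ≤ (2 * (H1 : ℝ) + 1) ^ N * (((H1 : ℝ) + 1) ^ (δ / 2) * (H : ℝ) ^ ((N : ℝ) - δ / 2)) := by
          refine mul_le_mul_of_nonneg_left ?_ (by positivity)
          have h3 : (H : ℝ) ^ (-(δ / 2)) ≤ (H : ℝ) ^ ((N : ℝ) - δ / 2) :=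
            Real.rpow_le_rpow_of_exponent_le hHr (by have : (0 : ℝ) ≤ N := Nat.cast_nonneg _; linarith)
          have h4 : (H : ℝ) ^ (δ / 2) ≤ ((H1 : ℝ) + 1) ^ (δ / 2) :=
            Real.rpow_le_rpow hHpos.le (by linarith) (by positivity)
          calc (1 : ℝ) = (H : ℝ) ^ (δ / 2) * (H : ℝ) ^ (-(δ / 2)) := by
                rw [← Real.rpow_add hHpos, add_neg_cancel, Real.rpow_zero]
            _ ≤ ((H1 : ℝ) + 1) ^ (δ / 2) * (H : ℝ) ^ ((N : ℝ) - δ / 2) := by gcongr
      _ = C' * (H : ℝ) ^ ((N : ℝ) - δ / 2) := by rw [hC']; ring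
      _ ≤ (C' + 1) * (H : ℝ) ^ ((N : ℝ) - δ / 2) := mul_le_mul_of_nonneg_right (by linarith) hpow.le
  · -- large `H`
    obtain ⟨a1, a3, a4, a5⟩ := hH1 H hge
    have hXpos : 0 < (H : ℝ) ^ c1 := Real.rpow_pos_of_pos hHpos _
    have hXl : Real.log ((H : ℝ) ^ c1) = c1 * Real.log H := Real.log_rpow hHpos _
    have inner : ∀ T : Finset (FinitePlace K), (T.card : ℝ) ≤ Real.log H ^ (η / 2) →
        ∑ v ∈ T, Real.log (Ideal.absNorm v.maximalIdeal.asIdeal : ℝ) ≤ c1 * Real.log H →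
          (Nat.card {c : Fin N → ℤ // (∀ t, |c t| ≤ (H : ℤ)) ∧ Q T c} : ℝ) * 1 ≤
              (((H : ℝ) ^ c1) ^ B) ^ m * (H : ℝ) ^ ((N : ℝ) - δ) := by
      intro T hTc hTl
      obtain ⟨S0, hS0⟩ : ∃ S0 : Finset (FinitePlace K), S0 = S2 ∪ T := ⟨_, rfl⟩
      have hS0c : (S0.card : ℝ) ≤ S2.card + Real.log H ^ (η / 2) := by
        have h1 : S0.card ≤ S2.card + T.card := by rw [hS0]; exact card_union_le _ _
        calc (S0.card : ℝ) ≤ (S2.card : ℝ) + T.card := by exact_mod_cast h1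
          _ ≤ _ := by linarith
      have hlogn : ∀ v : FinitePlace K, 0 ≤ Real.log (Ideal.absNorm v.maximalIdeal.asIdeal : ℝ) := fun v =>
        Real.log_natCast_nonneg _
      have hS0l : ∑ v ∈ S0, Real.log (Ideal.absNorm v.maximalIdeal.asIdeal : ℝ) ≤ A2 + c1 * Real.log H := by
        calc ∑ v ∈ S0, Real.log (Ideal.absNorm v.maximalIdeal.asIdeal : ℝ)
            ≤ ∑ v ∈ S2, Real.log (Ideal.absNorm v.maximalIdeal.asIdeal : ℝ) +
              ∑ v ∈ T, Real.log (Ideal.absNorm v.maximalIdeal.asIdeal : ℝ) := by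
              rw [hS0, ← sum_union_inter]
              exact le_add_of_nonneg_right (sum_nonneg fun v _ => hlogn v)
          _ ≤ A2 + c1 * Real.log H := by rw [← hA2]; linarith
      obtain ⟨r, g, hrc, hg, hgen⟩ := hr0 S0
      obtain ⟨M0, hM0, hM0', hM0l⟩ := exists_M1 K S0
      obtain ⟨W, hWc, hWm, hWr⟩ := hW S0 ((H : ℝ) ^ c1) a5
      have hWm' : ∀ w : W, ∃ m : ℕ, m ≠ 0 ∧ (m : ℝ) ≤ (H : ℝ) ^ c1 ∧
          ∀ v : FinitePlace K, v ∉ S0 → v (m : K) = 1 → v (w : K) = 1 := fun w => (hWm w w.2).2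
      choose mm hmm0 hmm1 hmm2 using hWm'
      have hcard : Fintype.card (Fin m → W) = W.card ^ m := by
        rw [Fintype.card_fun, Fintype.card_fin, Fintype.card_coe]
      have ε : Fin (W.card ^ m) ≃ (Fin m → W) := by
        rw [← hcard]
        exact (Fintype.equivFin _).symm
      have hunion := MWS.VM_union (ι := Fin N) (H := H) (N := W.card ^ m) (Q T)
        (fun i c => Ptc (M0 * ∏ w : Fin m, mm (ε i w)) p0 R g (fun w => ((ε i w : W) : K)) c)
        (by
          intro c hcH hc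
          obtain ⟨y, hy, hloc⟩ := hQ T c hcH hc
          rw [← hS0] at hy hloc
          have hex : ∀ w : Fin m, ∃ (b : W) (n : Fin r → ℤ), y w = (b : K) * ∏ t, g t ^ n t := by
            intro w
            obtain ⟨b1, b2, b3⟩ := hy w
            obtain ⟨b, hb, hbv⟩ := hWr _ b1 b2 (by rw [hXl]; exact b3)
            have hb0 : b ≠ 0 := (hWm b hb).1
            obtain ⟨n, hn'⟩ := hgen (y w / b) (div_ne_zero b1 hb0) (fun v hv => by
              rw [map_div₀, hbv v hv, div_self]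
              exact (FinitePlace.pos_iff.2 hb0).ne')
            exact ⟨⟨b, hb⟩, n, by rw [← hn', mul_div_cancel₀ _ hb0]⟩
          choose b n hbn using hex
          refine ⟨ε.symm b, n, fun p _ hpp hpM π => ?_⟩
          have hp : p.Prime := Fact.out
          have hpM0 : ¬ p ∣ M0 := fun h => hpM (h.mul_right _)
          have hpm : ∀ w, ¬ p ∣ mm (ε (ε.symm b) w) := fun w h =>
            hpM ((h.trans (dvd_prod_of_mem (fun w => mm (ε (ε.symm b) w)) (mem_univ w))).mul_left _)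
          obtain ⟨v, hv1, hv2⟩ := pl_place K hp π
          have hvS : v ∉ S0 := by
            intro h
            have h9 := hM0' v h
            rw [place_coprime K v hp hv1 hpM0] at h9
            exact lt_irrefl _ h9
          have hu : ∀ z : K, v z = 1 → z ∈ π.V ∧ z⁻¹ ∈ π.V := fun z hz =>
            ⟨hv2 z hz.le, hv2 z⁻¹ (by rw [map_inv₀, hz, inv_one])⟩
          have hy1 : ∀ w, v (y w) = 1 := by
            intro w
            rw [hbn w, map_mul, map_prod]
            have h1 : v ((b w : W) : K) = 1 := by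
              have h2 := hmm2 (b w) v hvS (place_coprime K v hp hv1 (by
                have h3 := hpm w
                rwa [ε.apply_symm_apply] at h3))
              exact h2
            rw [h1, one_mul]
            refine prod_eq_one fun t _ => ?_
            rw [map_zpow₀, (hg t).2 v hvS, one_zpow]
          have h4 := hloc p hpp π ⟨v, hvS, hv1, hv2⟩ fun w => hu _ (hy1 w)
          rw [ε.apply_symm_apply]
          have h5 : (fun w => res π (y w)) = fun w => res π ((b w : K) * ∏ t, g t ^ n w t) := by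
            funext w
            rw [hbn w]
          rw [h5] at h4
          exact h4)
        1 ((H : ℝ) ^ ((N : ℝ) - δ)) zero_le_one
        (fun i => by
          rw [mul_one]
          refine hh0 r (M0 * ∏ w : Fin m, mm (ε i w)) H a1 ?_ ?_ ?_ g _ ⟨fun t => (hg t).1, fun w => (hWm _ (ε i w).2).1, ?_⟩
          · exact mul_ne_zero hM0 (prod_ne_zero_iff.2 fun w _ => hmm0 _)
          · refine le_trans ?_ a3
            rw [Nat.cast_mul, mul_comm]
            refine mul_le_mul_of_nonneg_left ?_ hm0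
            have h1 : (r : ℝ) ≤ r0 + S0.card := by exact_mod_cast hrc
            linarith
          · refine le_trans ?_ a4
            rw [Nat.cast_mul, Real.log_mul (by exact_mod_cast hM0) (by
              have : (∏ w : Fin m, mm (ε i w)) ≠ 0 := prod_ne_zero_iff.2 fun w _ => hmm0 _
              exact_mod_cast this), Nat.cast_prod, Real.log_prod (fun w _ => by exact_mod_cast hmm0 _)]
            have h8 : ∑ w : Fin m, Real.log (mm (ε i w)) ≤ ∑ _w : Fin m, c1 * Real.log H := by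
              refine sum_le_sum fun w _ => ?_
              rw [← Real.log_rpow hHpos]
              exact Real.log_le_log (by exact_mod_cast Nat.pos_of_ne_zero (hmm0 _)) (hmm1 _)
            rw [sum_const, card_univ, Fintype.card_fin, nsmul_eq_mul] at h8
            linarith
          · intro p hp hpM π
            have hpM0 : ¬ p ∣ M0 := fun h => hpM (h.mul_right _)
            have hpm : ∀ w, ¬ p ∣ mm (ε i w) := fun w h =>
              hpM ((h.trans (dvd_prod_of_mem (fun w => mm (ε i w)) (mem_univ w))).mul_left _)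
            obtain ⟨v, hv1, hv2⟩ := pl_place K hp π
            have hvS : v ∉ S0 := by
              intro h
              have h9 := hM0' v h
              rw [place_coprime K v hp hv1 hpM0] at h9
              exact lt_irrefl _ h9
            have hu : ∀ y : K, v y = 1 → y ∈ π.V ∧ y⁻¹ ∈ π.V := fun y hy =>
              ⟨hv2 y hy.le, hv2 y⁻¹ (by rw [map_inv₀, hy, inv_one])⟩
            exact ⟨fun t => hu _ ((hg t).2 v hvS), fun w =>
              hu _ (hmm2 _ v hvS (place_coprime K v hp hv1 (hpm w)))⟩)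
      refine hunion.trans ?_
      refine mul_le_mul_of_nonneg_right ?_ (Real.rpow_pos_of_pos hHpos _).le
      push_cast
      exact pow_le_pow_left₀ (Nat.cast_nonneg _) hWc _
    obtain ⟨TT, hTTc, hTT⟩ := setT K ((H : ℝ) ^ c1) hXpos
    obtain ⟨TF, hTF⟩ : ∃ TF : Finset (Finset (FinitePlace K)), TF = TT.filter fun T =>
      (T.card : ℝ) ≤ Real.log H ^ (η / 2) := ⟨_, rfl⟩
    have hTFc : (TF.card : ℝ) ≤ ((H : ℝ) ^ c1) ^ B := by
      have h1 : TF.card ≤ TT.card := by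
        rw [hTF]
        exact card_filter_le _ _
      calc (TF.card : ℝ) ≤ (Nat.card {I : Ideal (𝓞 K) // (Ideal.absNorm I : ℝ) ≤ (H : ℝ) ^ c1} : ℝ) := by
            exact_mod_cast h1.trans hTTc
        _ ≤ _ := hBc _ a5
    have hmem : ∀ T ∈ TF, (T.card : ℝ) ≤ Real.log H ^ (η / 2) ∧
        ∑ v ∈ T, Real.log (Ideal.absNorm v.maximalIdeal.asIdeal : ℝ) ≤ c1 * Real.log H := by
      intro T hT
      rw [hTF, mem_filter, hTT, hXl] at hT
      exact ⟨hT.2, hT.1⟩
    have ε' : Fin TF.card ≃ TF := by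
      have h1 := Fintype.equivFin TF
      rw [Fintype.card_coe] at h1
      exact h1.symm
    have hout := MWS.VM_union (ι := Fin N) (H := H) (N := TF.card)
      (fun c => ¬ ∀ T : Finset (FinitePlace K), (T.card : ℝ) ≤ Real.log H ^ (η / 2) →
          ∑ v ∈ T, Real.log (Ideal.absNorm v.maximalIdeal.asIdeal : ℝ) ≤ c1 * Real.log H → ¬ Q T c)
      (fun i c => Q (ε' i : Finset (FinitePlace K)) c)
      (by
        intro c _ hc
        push Not at hc
        obtain ⟨T, hTc, hTl, hQT⟩ := hc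
        have hT : T ∈ TF := by
          rw [hTF, mem_filter, hTT, hXl]
          exact ⟨hTl, hTc⟩
        refine ⟨ε'.symm ⟨T, hT⟩, ?_⟩
        rw [ε'.apply_symm_apply]
        exact hQT)
      1 ((((H : ℝ) ^ c1) ^ B) ^ m * (H : ℝ) ^ ((N : ℝ) - δ)) zero_le_one
      (fun i => inner _ (hmem _ (ε' i).2).1 (hmem _ (ε' i).2).2)
    rw [mul_one] at hout
    refine hout.trans ?_
    have h10 : ((H : ℝ) ^ c1) ^ B * (((H : ℝ) ^ c1) ^ B) ^ m = (H : ℝ) ^ (δ / 2) := by
      rw [← pow_succ', ← Real.rpow_natCast, ← Real.rpow_mul hHpos.le, ← Real.rpow_mul hHpos.le]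
      congr 1
      rw [hc1]
      push_cast
      field_simp
    calc (TF.card : ℝ) * ((((H : ℝ) ^ c1) ^ B) ^ m * (H : ℝ) ^ ((N : ℝ) - δ))
        ≤ ((H : ℝ) ^ c1) ^ B * ((((H : ℝ) ^ c1) ^ B) ^ m * (H : ℝ) ^ ((N : ℝ) - δ)) :=
          mul_le_mul_of_nonneg_right hTFc (by positivity)
      _ = (H : ℝ) ^ (δ / 2) * (H : ℝ) ^ ((N : ℝ) - δ) := by rw [← mul_assoc, h10]
      _ = (H : ℝ) ^ ((N : ℝ) - δ / 2) := by
          rw [← Real.rpow_add hHpos]
          congr 1
          ring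
      _ ≤ (C' + 1) * (H : ℝ) ^ ((N : ℝ) - δ / 2) := le_mul_of_one_le_left hpow.le (by linarith)

end LVZ
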