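import Mathlib

/-!
# LEAF H4: minors

PROOF.  The vectors `A k` span `Fin s → F` if and only if some `s` of them (`A (J i)`, `i : Fin s`) are linearly independent, i.e. a basis (`exists_linearIndependent` or `Module.Basis.ofSpan`-like, then reindex a basis of cardinality `s` by `Fin s`), i.e. the determinant of the matrix with rows `A (J i)` is not `0`.
-/

namespace LVZ

theorem minors {F : Type} [Field F] {N s : ℕ} (A : Fin N → Fin s → F) :
    (∀ y : Fin s → F, ∃ a : Fin N → F, ∀ i, ∑ k, a k * A k i = y i) ↔
      ∃ J : Fin s → Fin N, (Matrix.of fun i' i => A (J i') i).det ≠ 0 := by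
  classical
  constructor
  · intro h
    obtain ⟨κ, a, -, hspan, hli⟩ := exists_linearIndependent' F A
    have htop : ⊤ ≤ Submodule.span F (Set.range (A ∘ a)) := by
      rw [hspan]
      intro y _
      obtain ⟨c, hc⟩ := h y
      have h1 : y = ∑ k, c k • A k := by
        funext i
        rw [← hc i, Finset.sum_apply]
        rfl
      rw [h1]
      exact Submodule.sum_mem _ fun k _ =>
        Submodule.smul_mem _ _ (Submodule.subset_span ⟨k, rfl⟩)
    let b : Module.Basis κ F (Fin s → F) := Module.Basis.mk hli htop
    let e : κ ≃ Fin s := b.indexEquiv (Pi.basisFun F (Fin s))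
    refine ⟨fun i => a (e.symm i), ?_⟩
    have h2 : LinearIndependent F (Matrix.of fun i' i => A (a (e.symm i')) i).row := by
      have h3 := hli.comp e.symm e.symm.injective
      exact h3
    rw [Matrix.linearIndependent_rows_iff_isUnit, Matrix.isUnit_iff_isUnit_det,
      isUnit_iff_ne_zero] at h2
    exact h2
  · rintro ⟨J, hJ⟩ y
    let M : Matrix (Fin s) (Fin s) F := Matrix.of fun i' i => A (J i') i
    have hM : IsUnit M.det := isUnit_iff_ne_zero.2 hJ
    let w : Fin s → F := Matrix.vecMul y M⁻¹
    have hw : Matrix.vecMul w M = y := by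
      rw [Matrix.vecMul_vecMul, Matrix.nonsing_inv_mul _ hM, Matrix.vecMul_one]
    refine ⟨fun k => ∑ i' with J i' = k, w i', fun i => ?_⟩
    have h1 : y i = ∑ i', w i' * A (J i') i := by
      rw [← congrFun hw i]
      rfl
    rw [h1, ← Finset.sum_fiberwise Finset.univ J]
    refine Finset.sum_congr rfl fun k _ => ?_
    rw [Finset.sum_mul]
    refine Finset.sum_congr rfl fun i' hi' => ?_
    rw [(Finset.mem_filter.1 hi').2]

end LVZ
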