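import Pool.Agent.Lib.MP_17a322_ntLZ.H2
import Pool.Agent.Lib.MP_17a322_ntLZ.H4

/-!
# LEAF H5: the rank modulo primes

PROOF.  `bp_mod` for `ι = (Fin s → Fin N)` and `Dl J = (Matrix.of fun i' i => g (J i') i).det`: evaluation is a ring homomorphism, so it commutes with the determinant (`RingHom.map_det`), over the algebraic closure (`minors` with `GG`) and modulo `p` (`minors` in the other direction).
-/

namespace LVZ

open NumberField

theorem rank_mod (K : Type) [Field K] [NumberField K] {q j N s : ℕ} (P : Ideal (MvPolynomial (Fin q) K)) (hP : Hm P)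
    (f : Fin j → MvPolynomial (Fin q) (𝓞 K)) (g : Fin N → Fin s → MvPolynomial (Fin q) (𝓞 K)) (h : GG P f g) :
    ∃ G : Finset (MvPolynomial (Fin q) (𝓞 K)), (∀ g ∈ G, ∃ n, g.IsHomogeneous n) ∧
      (∀ g ∈ G, MvPolynomial.map (algebraMap (𝓞 K) K) g ∈ P) ∧ ∃ p1 : ℕ, ∀ (p : ℕ) [Fact p.Prime], p1 ≤ p →
        ∀ (φ : 𝓞 K →+* ZMod p) (u : Fin j → ZMod p), (∀ l, u l ≠ 0) → ∀ x ∈ Zs G f φ u, x ≠ 0 →
          ∀ y : Fin s → ZMod p, ∃ a : Fin N → ZMod p, ∀ i, ∑ k, a k * vl g φ k i x = y i := by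
  obtain ⟨G, hG1, hG2, p1, hp⟩ := bp_mod K P hP f
    (fun J : Fin s → Fin N => (Matrix.of fun i' i => g (J i') i).det) (fun x hx hPx hfx => by
      obtain ⟨J, hJ⟩ := (minors fun k i => MvPolynomial.aeval x (MvPolynomial.map (algebraMap (𝓞 K) K) (g k i))).1
        (h x hx hPx hfx)
      refine ⟨J, ?_⟩
      have e1 : MvPolynomial.aeval x (MvPolynomial.map (algebraMap (𝓞 K) K)
          (Matrix.of fun i' i => g (J i') i).det) =
          (Matrix.of fun i' i => MvPolynomial.aeval x (MvPolynomial.map (algebraMap (𝓞 K) K) (g (J i') i))).det := by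
        rw [RingHom.map_det (MvPolynomial.map (algebraMap (𝓞 K) K)), AlgHom.map_det]
        rfl
      rw [e1]
      exact hJ)
  refine ⟨G, hG1, hG2, p1, fun p _ hp1 φ u hu x hx hx0 => ?_⟩
  obtain ⟨J, hJ⟩ := hp p hp1 φ u hu x hx hx0
  refine (minors fun k i => vl g φ k i x).2 ⟨J, ?_⟩
  have e2 : MvPolynomial.eval₂ φ x (Matrix.of fun i' i => g (J i') i).det =
      (Matrix.of fun i' i => vl g φ (J i') i x).det := by
    have := RingHom.map_det (MvPolynomial.eval₂Hom φ x) (Matrix.of fun i' i => g (J i') i)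
    rw [MvPolynomial.coe_eval₂Hom] at this
    rw [this]
    rfl
  rw [← e2]
  exact hJ

end LVZ
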