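import Pool.Agent.Lib.MP_17a322_ntLZ.PDefs

/-!
# LEAF Q1: the union bound

PROOF.  `one_vec`: the linear map `a ↦ (∑ k, a k * A k i)_i` from `(ZMod p) ^ N` to `(ZMod p) ^ s` is surjective, all its fibres have `p ^ N / p ^ s` elements (`E2_fiber`, private in `MP_17a322_ntLH/E2.lean`: copy it).
`union_bd`: count the pairs `(x, a)` with `x ∈ Z` and `∑ k, a k * V k i x = y i` for all `i`.
-/

namespace LVZ

private def Q1_ev {p N s : ℕ} (A : Fin N → Fin s → ZMod p) : (Fin N → ZMod p) →+ (Fin s → ZMod p) where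
  toFun a i := ∑ k, a k * A k i
  map_zero' := by
    funext i
    simp
  map_add' a b := by
    funext i
    simp only [Pi.add_apply, add_mul, Finset.sum_add_distrib]

private theorem Q1_fiber {G H : Type} [AddCommGroup G] [AddCommGroup H] [Finite G] [Finite H] (f : G →+ H)
    (hf : Function.Surjective f) (y : H) : Nat.card {a // f a = y} * Nat.card H = Nat.card G := by
  obtain ⟨a0, ha0⟩ := hf y
  have h1 : Nat.card {a // f a = y} = Nat.card f.ker := by
    refine Nat.card_congr
      { toFun := fun a => ⟨a.1 - a0, by rw [AddMonoidHom.mem_ker, map_sub, a.2, ha0, sub_self]⟩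
        invFun := fun b => ⟨b.1 + a0, by rw [map_add, AddMonoidHom.mem_ker.1 b.2, zero_add, ha0]⟩
        left_inv := fun a => Subtype.ext (sub_add_cancel _ _)
        right_inv := fun b => Subtype.ext (add_sub_cancel_right _ _) }
  have h2 : Nat.card H = f.ker.index := by
    rw [AddSubgroup.index_ker, AddMonoidHom.range_eq_top.2 hf]
    exact (Nat.card_congr (AddSubgroup.topEquiv (G := H)).toEquiv).symm
  rw [h1, h2]
  exact f.ker.card_mul_index

theorem one_vec {p : ℕ} [Fact p.Prime] {N s : ℕ} (A : Fin N → Fin s → ZMod p)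
    (hA : ∀ y : Fin s → ZMod p, ∃ a : Fin N → ZMod p, ∀ i, ∑ k, a k * A k i = y i) (y : Fin s → ZMod p) :
    Nat.card {a : Fin N → ZMod p // ∀ i, ∑ k, a k * A k i = y i} * p ^ s = p ^ N := by
  have hsurj : Function.Surjective (Q1_ev A) := by
    intro z
    obtain ⟨a, ha⟩ := hA z
    exact ⟨a, funext ha⟩
  have h1 := Q1_fiber (Q1_ev A) hsurj y
  rw [Nat.card_fun, Nat.card_fun, Nat.card_zmod, Nat.card_fin, Nat.card_fin] at h1
  rw [← h1]
  refine congrArg (fun n => n * p ^ s) (Nat.card_congr (Equiv.subtypeEquivRight fun a => ?_))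
  exact ⟨fun h => funext h, fun h i => congrFun h i⟩

theorem union_bd {p : ℕ} [Fact p.Prime] {σ : Type} [Fintype σ] {N s : ℕ} (Z : Set (σ → ZMod p))
    (V : Fin N → Fin s → (σ → ZMod p) → ZMod p)
    (hR : ∀ x ∈ Z, ∀ y : Fin s → ZMod p, ∃ a : Fin N → ZMod p, ∀ i, ∑ k, a k * V k i x = y i) (y : Fin s → ZMod p) :
    Nat.card (Fn Z V y) * p ^ s ≤ Nat.card Z * p ^ N := by
  classical
  let Pr : Type := (x : Z) × {a : Fin N → ZMod p // ∀ i, ∑ k, a k * V k i x.1 = y i}
  have hBP : Nat.card (Fn Z V y) ≤ Nat.card Pr := by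
    refine Nat.card_le_card_of_injective
      (fun b : Fn Z V y => (⟨⟨b.2.choose, b.2.choose_spec.1⟩, ⟨b.1, b.2.choose_spec.2⟩⟩ : Pr)) fun b b' h => ?_
    have h2 := congrArg (fun c : Pr => c.2.1) h
    exact Subtype.ext h2
  have : Fintype Z := Fintype.ofFinite _
  have h1 : Nat.card Pr = ∑ x : Z, Nat.card {a : Fin N → ZMod p // ∀ i, ∑ k, a k * V k i x.1 = y i} := Nat.card_sigma
  calc Nat.card (Fn Z V y) * p ^ s ≤ Nat.card Pr * p ^ s := Nat.mul_le_mul_right _ hBP
    _ = ∑ _x : Z, p ^ N := by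
        rw [h1, Finset.sum_mul]
        exact Finset.sum_congr rfl fun x _ => one_vec (fun k i => V k i x.1) (hR x.1 x.2) y
    _ = Nat.card Z * p ^ N := by
        rw [Finset.sum_const, smul_eq_mul, Finset.card_univ, Nat.card_eq_fintype_card]

end LVZ
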