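import Pool.Agent.Lib.MP_17a322_ntLZ.PDefs
import Pool.Agent.Lib.MP_17a322_ntLH.E2

/-!
# LEAF Q2: one form and the other forms

PROOF.  `swap`: for every `h` choose `w h : Fin N → ZMod p` as in `hC`, so `∑ k, w h k * V k i x` is `fv h x` for `i = i0` and `0` for `i ≠ i0`; for `a : Fin N → ZMod p` ... the `i0`-th component of `∑ k, a k * V k` need not be of the form `fv h`, so use the hypothesis `hF`: there is `L : (Fin N → ZMod p) → (Sym σ m → ZMod p)` with `∑ k, a k * V k i0 x = fv (L a) x` for all `x`.  The map `(a, h) ↦ (a + w (h - L a), L a)` is a bijection of `(Fin N → ZMod p) × (Sym σ m → ZMod p)`; its inverse is `(a', h') ↦ (a' - w (h - h'), h)` with `h` such that ... : to have this exactly, choose `L` with `L (a + w h) = L a + h` (hypothesis `hL`).  Then `Φ (a, h) = (a + w (h - L a), L a)`, and `L (a + w (h - L a)) = h`; the inverse is `(a', h') ↦ (a' - w (L a' - h'), L a')`: `L (a' - w (L a' - h')) = h'` by `hL` (`L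 a' = L (a' - w t) + t`).  Under `Φ` the condition `a ∈ Fn Z V y` becomes `∃ x ∈ Zb Z V i0 y a', fv h' x = y i0`, as `a` and `a' = a + w _` have the same components of index `≠ i0` and `fv h' x = fv (L a) x` is the `i0`-th.
`mean`: for each `x ∈ Z` the number of the `a` with `∑ k, a k * V k i x = y i` for all `i ≠ i0` is `p ^ N / p ^ (s - 1)` (surjectivity of `a ↦ (∑ k, a k * V k i x)_(i ≠ i0)`, from `hR`); sum over `x`.
`line_bd`: if `∀ x ∈ Z, #{l | l • x ∈ Z} ≤ D` use `Zb Z V i0 y a ⊆ Z`; otherwise let `i ≠ i0` with `y i ≠ 0`: for `x` and `l • x` in `Zb`, `y i = l ^ d i * y i`, so `l ^ d i = 1` and there are at most `d i` such `l` (`Polynomial.card_nthRoots`, as in `Lm_card`, file `MP_17a322_ntLX/E5C.lean`).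
-/

namespace LVZ

open Finset
open LVH (fv)

private theorem Q2_key {p : ℕ} [Fact p.Prime] {N s : ℕ} (M : Fin N → Fin s → ZMod p) (i0 : Fin s)
    (hR : ∀ y : Fin s → ZMod p, ∃ a : Fin N → ZMod p, ∀ i, ∑ k, a k * M k i = y i) (y : Fin s → ZMod p) :
    Nat.card {a : Fin N → ZMod p // ∀ i, i ≠ i0 → ∑ k, a k * M k i = y i} * p ^ s ≤ p * p ^ N := by
  classical
  choose sec hsec using hR
  obtain ⟨T, hT⟩ : ∃ T : (Fin N → ZMod p) → Fin s → ZMod p, ∀ a i, T a i = ∑ k, a k * M k i :=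
    ⟨fun a i => ∑ k, a k * M k i, fun _ _ => rfl⟩
  have hTs : ∀ v, T (sec v) = v := fun v => funext fun i => (hT _ i).trans (hsec v i)
  have hadd : ∀ a b, T (a + b) = T a + T b := by
    intro a b
    funext i
    rw [Pi.add_apply, hT, hT, hT, ← Finset.sum_add_distrib]
    exact Finset.sum_congr rfl fun k _ => by rw [Pi.add_apply, add_mul]
  have hsub : ∀ a b, T (a - b) = T a - T b := by
    intro a b
    have h := hadd (a - b) b
    rw [sub_add_cancel] at h
    rw [h, add_sub_cancel_right]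
  have h1 : Nat.card ({a : Fin N → ZMod p // ∀ i, i ≠ i0 → ∑ k, a k * M k i = y i} × (Fin s → ZMod p)) ≤
      Nat.card (ZMod p × (Fin N → ZMod p)) := by
    refine Nat.card_le_card_of_injective
      (fun q => (T q.1.1 i0, q.1.1 - sec (T q.1.1) + sec q.2)) ?_
    rintro ⟨⟨a, ha⟩, v⟩ ⟨⟨a', ha'⟩, v'⟩ h
    have h2 : T a i0 = T a' i0 := congrArg Prod.fst h
    have h3 : a - sec (T a) + sec v = a' - sec (T a') + sec v' := congrArg Prod.snd h
    have h4 : T a = T a' := by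
      funext i
      by_cases hi : i = i0
      · rw [hi]
        exact h2
      · rw [hT, hT, ha i hi, ha' i hi]
    have h5 := congrArg T h3
    rw [hadd, hadd, hsub, hsub, hTs, hTs, hTs, hTs, sub_self, sub_self, zero_add, zero_add] at h5
    rw [h4, h5] at h3
    have h6 : a = a' := by
      have h7 := add_right_cancel h3
      exact sub_left_injective h7
    subst h6
    subst h5
    rfl
  rw [Nat.card_prod, Nat.card_prod, Nat.card_fun, Nat.card_fun, Nat.card_zmod, Nat.card_eq_fintype_card (α := Fin s),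
    Nat.card_eq_fintype_card (α := Fin N), Fintype.card_fin, Fintype.card_fin] at h1
  exact h1

theorem swap {p : ℕ} [Fact p.Prime] {σ : Type} [Fintype σ] [DecidableEq σ] {N s m : ℕ} (Z : Set (σ → ZMod p))
    (V : Fin N → Fin s → (σ → ZMod p) → ZMod p) (i0 : Fin s) (y : Fin s → ZMod p)
    (L : (Fin N → ZMod p) → (Sym σ m → ZMod p)) (w : (Sym σ m → ZMod p) → (Fin N → ZMod p))
    (hL : ∀ a h, L (a + w h) = L a + h) (hF : ∀ a x, ∑ k, a k * V k i0 x = fv (L a) x)
    (hw : ∀ h x i, i ≠ i0 → ∑ k, w h k * V k i x = 0) :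
    Nat.card (Fn Z V y) * p ^ Fintype.card (Sym σ m) =
      ∑ a : Fin N → ZMod p, Nat.card {h : Sym σ m → ZMod p // ∃ x ∈ Zb Z V i0 y a, fv h x = y i0} := by
  classical
  have hsum : ∀ (a b : Fin N → ZMod p) (i : Fin s) (x : σ → ZMod p),
      ∑ k, (a + b) k * V k i x = ∑ k, a k * V k i x + ∑ k, b k * V k i x := by
    intro a b i x
    rw [← Finset.sum_add_distrib]
    exact Finset.sum_congr rfl fun k _ => by rw [Pi.add_apply, add_mul]
  obtain ⟨Φ, hΦ⟩ : ∃ Φ : ((Fin N → ZMod p) × (Sym σ m → ZMod p)) ≃ ((Fin N → ZMod p) × (Sym σ m → ZMod p)),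
      ∀ q, Φ q = (q.1 + w (q.2 - L q.1), L q.1) := by
    refine ⟨⟨fun q => (q.1 + w (q.2 - L q.1), L q.1), fun q => (q.1 - w (L q.1 - q.2), L q.1), ?_, ?_⟩,
      fun _ => rfl⟩
    · rintro ⟨a, h⟩
      have h1 : L (a + w (h - L a)) = h := by rw [hL, add_sub_cancel]
      show (a + w (h - L a) - w (L (a + w (h - L a)) - L a), L (a + w (h - L a))) = (a, h)
      rw [h1, add_sub_cancel_right]
    · rintro ⟨a, h⟩
      have h1 : L (a - w (L a - h)) = h := by
        have h2 := hL (a - w (L a - h)) (L a - h)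
        rw [sub_add_cancel] at h2
        have h3 : L (a - w (L a - h)) = L a - (L a - h) := eq_sub_of_add_eq h2.symm
        rw [h3, sub_sub_cancel]
      show (a - w (L a - h) + w (L a - L (a - w (L a - h))), L (a - w (L a - h))) = (a, h)
      rw [h1, sub_add_cancel]
  have e1 : {q : (Fin N → ZMod p) × (Sym σ m → ZMod p) // q.1 ∈ Fn Z V y} ≃
      {q : (Fin N → ZMod p) × (Sym σ m → ZMod p) // ∃ x ∈ Zb Z V i0 y q.1, fv q.2 x = y i0} := by
    refine Φ.subtypeEquiv ?_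
    rintro ⟨a, h⟩
    rw [hΦ]
    have h1 : ∀ i, i ≠ i0 → ∀ x, ∑ k, (a + w (h - L a)) k * V k i x = ∑ k, a k * V k i x := by
      intro i hi x
      rw [hsum, hw _ _ _ hi, add_zero]
    constructor
    · rintro ⟨x, hx, hy⟩
      exact ⟨x, ⟨hx, fun i hi => (h1 i hi x).trans (hy i)⟩, (hF a x).symm.trans (hy i0)⟩
    · rintro ⟨x, ⟨hx, hy⟩, h0⟩
      refine ⟨x, hx, fun i => ?_⟩
      by_cases hi : i = i0
      · rw [hi]
        exact (hF a x).trans h0
      · exact (h1 i hi x).symm.trans (hy i hi)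
  have e2 : {q : (Fin N → ZMod p) × (Sym σ m → ZMod p) // q.1 ∈ Fn Z V y} ≃ Fn Z V y × (Sym σ m → ZMod p) :=
    ⟨fun q => (⟨q.1.1, q.2⟩, q.1.2), fun q => ⟨(q.1.1, q.2), q.1.2⟩, fun _ => rfl, fun _ => rfl⟩
  have e3 : {q : (Fin N → ZMod p) × (Sym σ m → ZMod p) // ∃ x ∈ Zb Z V i0 y q.1, fv q.2 x = y i0} ≃
      (a : Fin N → ZMod p) × {h : Sym σ m → ZMod p // ∃ x ∈ Zb Z V i0 y a, fv h x = y i0} :=
    ⟨fun q => ⟨q.1.1, q.1.2, q.2⟩, fun q => ⟨(q.1, q.2.1), q.2.2⟩, fun _ => rfl, fun _ => rfl⟩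
  rw [← Nat.card_sigma, ← Nat.card_congr e3, ← Nat.card_congr e1, Nat.card_congr e2, Nat.card_prod,
    Nat.card_fun, Nat.card_zmod, Nat.card_eq_fintype_card (α := Sym σ m)]

theorem mean {p : ℕ} [Fact p.Prime] {σ : Type} [Fintype σ] {N s : ℕ} (Z : Set (σ → ZMod p))
    (V : Fin N → Fin s → (σ → ZMod p) → ZMod p) (i0 : Fin s)
    (hR : ∀ x ∈ Z, ∀ y : Fin s → ZMod p, ∃ a : Fin N → ZMod p, ∀ i, ∑ k, a k * V k i x = y i) (y : Fin s → ZMod p) :
    (∑ a : Fin N → ZMod p, Nat.card (Zb Z V i0 y a)) * p ^ s ≤ Nat.card Z * (p * p ^ N) := by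
  classical
  have : Fintype Z := Fintype.ofFinite _
  have h1 : ∑ a : Fin N → ZMod p, Nat.card (Zb Z V i0 y a) =
      ∑ x : Z, Nat.card {a : Fin N → ZMod p // ∀ i, i ≠ i0 → ∑ k, a k * V k i x.1 = y i} := by
    rw [← Nat.card_sigma, ← Nat.card_sigma]
    exact Nat.card_congr ⟨fun q => ⟨⟨q.2.1, q.2.2.1⟩, q.1, q.2.2.2⟩, fun q => ⟨q.2.1, q.1.1, q.1.2, q.2.2⟩,
      fun _ => rfl, fun _ => rfl⟩
  rw [h1, Finset.sum_mul]
  refine (Finset.sum_le_sum fun z _ => Q2_key (fun k i => V k i z.1) i0 (hR z.1 z.2) y).trans (le_of_eq ?_)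
  rw [Finset.sum_const, Finset.card_univ, smul_eq_mul, Nat.card_eq_fintype_card]

theorem line_bd {p : ℕ} [Fact p.Prime] {σ : Type} [Fintype σ] {N s : ℕ} (d : Fin s → ℕ) (hd : ∀ i, 1 ≤ d i)
    (Z : Set (σ → ZMod p)) (V : Fin N → Fin s → (σ → ZMod p) → ZMod p)
    (hV : ∀ k i (l : ZMod p) x, V k i (l • x) = l ^ d i * V k i x) (i0 : Fin s) (y : Fin s → ZMod p) (D : ℕ)
    (hD : (∀ x ∈ Z, Nat.card {l : ZMod p // l • x ∈ Z} ≤ D) ∨ ∃ i, i ≠ i0 ∧ y i ≠ 0) (a : Fin N → ZMod p)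
    (x : σ → ZMod p) (hx : x ∈ Zb Z V i0 y a) : Nat.card {l : ZMod p // l • x ∈ Zb Z V i0 y a} ≤ D + ∑ i, d i := by
  classical
  rcases hD with hD | ⟨i, hi, hy⟩
  · refine le_trans ?_ (Nat.le_add_right D _)
    refine le_trans ?_ (hD x hx.1)
    exact Nat.card_le_card_of_injective (fun l : {l : ZMod p // l • x ∈ Zb Z V i0 y a} =>
      (⟨l.1, l.2.1⟩ : {l : ZMod p // l • x ∈ Z})) fun l l' h =>
        Subtype.ext (congrArg (fun r : {l : ZMod p // l • x ∈ Z} => r.1) h)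
  · have h2 : ∀ l : ZMod p, l • x ∈ Zb Z V i0 y a → l ∈ (Polynomial.nthRoots (d i) (1 : ZMod p)).toFinset := by
      intro l hl
      have h3 := hl.2 i hi
      have h5 : ∑ k, a k * V k i (l • x) = l ^ d i * ∑ k, a k * V k i x := by
        rw [Finset.mul_sum]
        exact Finset.sum_congr rfl fun k _ => by rw [hV]; ring
      rw [h5, hx.2 i hi] at h3
      rw [Multiset.mem_toFinset, Polynomial.mem_nthRoots (hd i)]
      exact mul_right_cancel₀ hy (h3.trans (one_mul _).symm)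
    have h4 : Nat.card {l : ZMod p // l • x ∈ Zb Z V i0 y a} ≤ d i := by
      refine le_trans ?_ ((Multiset.toFinset_card_le _).trans (Polynomial.card_nthRoots (d i) (1 : ZMod p)))
      rw [Nat.card_eq_fintype_card, Fintype.card_subtype]
      exact Finset.card_le_card fun l hl => h2 l (Finset.mem_filter.1 hl).2
    have h6 : d i ≤ ∑ i, d i := Finset.single_le_sum (fun _ _ => Nat.zero_le _) (Finset.mem_univ i)
    omega

end LVZ
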