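import Pool.Agent.Lib.MP_17a322_ntLZ.PDefs
import Pool.Agent.Lib.MP_17a322_ntLH.E2
import Pool.Agent.Lib.MP_17a322_ntLH.E5A

/-!
# LEAF Q3: the lines

PROOF.  As `LVY.lines` (file `MP_17a322_ntLY/Q3.lean`), `T` the set of representatives of `LVH.reps`, `L t = {l | l ≠ 0, l • t ∈ Z}`, `Y t` the image of `L t` under `l ↦ y * (l ^ k)⁻¹`.  There the hypothesis `y ≠ 0` was used only to see that `x ≠ 0`; here this is `hZ`.
-/

namespace LVZ

open Finset
open LVH (fv NP)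

theorem lines {p : ℕ} [Fact p.Prime] {σ : Type} [Fintype σ] [DecidableEq σ] (Z : Set (σ → ZMod p))
    (hZ : ∀ x ∈ Z, x ≠ 0) (D : ℕ) (hD : ∀ x ∈ Z, Nat.card {l : ZMod p // l • x ∈ Z} ≤ D) (k : ℕ) (y : ZMod p) :
    ∃ (T : Finset (σ → ZMod p)) (Y : (σ → ZMod p) → Finset (ZMod p)), NP T ∧ (∀ t ∈ T, (Y t).card ≤ D) ∧
      ∑ t ∈ T, (Y t).card ≤ Nat.card Z ∧
        ∀ a : Sym σ k → ZMod p, (∃ x ∈ Z, fv a x = y) → ∃ t ∈ T, fv a t ∈ Y t := by
  classical
  obtain ⟨T, hT, hcov⟩ := LVH.reps p σ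
  obtain ⟨L, hL⟩ : ∃ L : (σ → ZMod p) → Finset (ZMod p), ∀ t l, l ∈ L t ↔ l ≠ 0 ∧ l • t ∈ Z :=
    ⟨fun t => univ.filter fun l => l ≠ 0 ∧ l • t ∈ Z, fun t l => by
      rw [Finset.mem_filter]
      exact and_iff_right (Finset.mem_univ l)⟩
  refine ⟨T, fun t => (L t).image fun l => y * (l ^ k)⁻¹, hT, ?_, ?_, ?_⟩
  · intro t ht
    refine card_image_le.trans ?_
    rcases (L t).eq_empty_or_nonempty with h0 | ⟨l0, hl0⟩
    · rw [h0, card_empty]
      exact Nat.zero_le _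
    · obtain ⟨h1, h2⟩ := (hL t l0).1 hl0
      refine le_trans ?_ (hD _ h2)
      rw [Nat.card_eq_fintype_card, Fintype.card_subtype]
      refine Finset.card_le_card_of_injOn (fun l => l * l0⁻¹) ?_ ?_
      · intro l hl
        obtain ⟨h3, h4⟩ := (hL t l).1 hl
        show _ ∈ ((Finset.univ.filter fun l : ZMod p => l • l0 • t ∈ Z : Finset (ZMod p)) : Set (ZMod p))
        rw [Finset.mem_coe, Finset.mem_filter]
        refine ⟨Finset.mem_univ _, ?_⟩
        rw [smul_smul, mul_assoc, inv_mul_cancel₀ h1, mul_one]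
        exact h4
      · intro l _ l' _ h
        exact mul_right_cancel₀ (inv_ne_zero h1) h
  · have h1 : ∑ t ∈ T, ((L t).image fun l => y * (l ^ k)⁻¹).card ≤ ∑ t ∈ T, (L t).card :=
      sum_le_sum fun t _ => card_image_le
    refine h1.trans ?_
    have h2 : Nat.card Z = (Finset.univ.filter fun x : σ → ZMod p => x ∈ Z).card := by
      rw [← Fintype.card_subtype, ← Nat.card_eq_fintype_card]
    rw [h2, ← Finset.card_sigma]
    refine Finset.card_le_card_of_injOn (fun r : (_ : σ → ZMod p) × ZMod p => r.2 • r.1) ?_ ?_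
    · rintro ⟨t, l⟩ hr
      have h3 : t ∈ T ∧ l ∈ L t := Finset.mem_sigma.1 hr
      rw [Finset.mem_coe, Finset.mem_filter]
      exact ⟨Finset.mem_univ _, ((hL t l).1 h3.2).2⟩
    · rintro ⟨t, l⟩ hr ⟨t', l'⟩ hr' he
      have h3 : t ∈ T ∧ l ∈ L t := Finset.mem_sigma.1 hr
      have h3' : t' ∈ T ∧ l' ∈ L t' := Finset.mem_sigma.1 hr'
      have h4 := ((hL t l).1 h3.2).1
      have he' : l • t = l' • t' := he
      have ht : t' = t := by
        by_contra hne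
        refine (hT t' h3'.1).2 t h3.1 hne (l⁻¹ * l') ?_
        rw [mul_smul, ← he', smul_smul, inv_mul_cancel₀ h4, one_smul]
      subst ht
      obtain ⟨v, hv⟩ := Function.ne_iff.1 (hT t' h3'.1).1
      have h5 : l = l' := mul_right_cancel₀ hv (congrFun he' v)
      rw [h5]
  · rintro a ⟨x, hx, ha⟩
    have hx0 : x ≠ 0 := hZ x hx
    obtain ⟨t, ht, l, hl, hlt⟩ := hcov x hx0
    refine ⟨t, ht, mem_image.2 ⟨l, (hL t l).2 ⟨hl, by rw [hlt]; exact hx⟩, ?_⟩⟩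
    have h5 : l ^ k ≠ 0 := pow_ne_zero _ hl
    have h6 : l ^ k * fv a t = y := by
      rw [← LVH.fv_smul, hlt]
      exact ha
    calc y * (l ^ k)⁻¹ = (l ^ k * fv a t) * (l ^ k)⁻¹ := by rw [h6]
      _ = fv a t := by rw [mul_comm (l ^ k) _, mul_assoc, mul_inv_cancel₀ h5, mul_one]

end LVZ
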