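import Pool.Agent.Lib.MP_17a322_ntLY.P3
import Pool.Agent.Lib.MP_17a322_ntLZ.Q3
import Pool.Agent.Lib.MP_17a322_ntLH.E4B

/-!
# LEAF Q4: the last form

PROOF.  As `LVY.last_big`, `LVY.last_sharp` (file `MP_17a322_ntLY/Q4.lean`), with the present `lines`.
-/

namespace LVZ

open Finset
open LVH (fv NP)

private theorem Q4_le {p : ℕ} [Fact p.Prime] {σ : Type} [Fintype σ] [DecidableEq σ] {k : ℕ} (Z : Set (σ → ZMod p))
    (T : Finset (σ → ZMod p)) (Y : (σ → ZMod p) → Finset (ZMod p)) (y : ZMod p)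
    (h : ∀ a : Sym σ k → ZMod p, (∃ x ∈ Z, fv a x = y) → ∃ t ∈ T, fv a t ∈ Y t) :
    (Nat.card {a : Sym σ k → ZMod p // ∃ x ∈ Z, fv a x = y} : ℝ) ≤
      (Nat.card {a : Sym σ k → ZMod p // ∃ t ∈ T, fv a t ∈ Y t} : ℝ) := by
  have h1 : Nat.card {a : Sym σ k → ZMod p // ∃ x ∈ Z, fv a x = y} ≤
      Nat.card {a : Sym σ k → ZMod p // ∃ t ∈ T, fv a t ∈ Y t} :=
    Nat.card_le_card_of_injective (fun a => ⟨a.1, h a.1 a.2⟩) fun a b hab => Subtype.ext (by simpa using hab)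
  exact_mod_cast h1

private theorem Q4_card {p : ℕ} [Fact p.Prime] {σ : Type} [Fintype σ] [DecidableEq σ] (k : ℕ) :
    (Fintype.card (Sym σ k → ZMod p) : ℝ) = (p : ℝ) ^ Fintype.card (Sym σ k) := by
  rw [Fintype.card_fun, ZMod.card, Nat.cast_pow]

private theorem Q4_cnt {p : ℕ} [Fact p.Prime] {σ : Type} [Fintype σ] [DecidableEq σ] {k : ℕ}
    {T : Finset (σ → ZMod p)} (hT : NP T) {U : Finset (σ → ZMod p)} (hU : U ⊆ T) (hc : U.card ≤ k + 1)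
    (v : (σ → ZMod p) → ZMod p) : Nat.card {a : Sym σ k → ZMod p // ∀ t ∈ U, fv a t = v t} * p ^ U.card =
      Fintype.card (Sym σ k → ZMod p) := by
  rw [Fintype.card_fun, ZMod.card]
  exact LVH.cnt k U (fun x hx => ⟨(hT x (hU hx)).1, fun x' hx' => (hT x (hU hx)).2 x' (hU hx')⟩) hc v

theorem last_big {p : ℕ} [Fact p.Prime] {σ : Type} [Fintype σ] [DecidableEq σ] (Z : Set (σ → ZMod p))
    (hZ : ∀ x ∈ Z, x ≠ 0) (D : ℕ) (hD : ∀ x ∈ Z, Nat.card {l : ZMod p // l • x ∈ Z} ≤ D) (h2 : 2 * D ≤ p) (C : ℝ)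
    (hC : (Nat.card Z : ℝ) ≤ C * p) (m k : ℕ) (hm : 1 ≤ m) (hk : 2 * m ≤ k) (y : ZMod p) :
    (Nat.card {a : Sym σ k → ZMod p // ∃ x ∈ Z, fv a x = y} : ℝ) ≤
      (1 - (Real.exp (-2 * C) - C ^ (2 * m) / (2 * m).factorial)) * (p : ℝ) ^ Fintype.card (Sym σ k) := by
  obtain ⟨T, Y, hT, hY1, hY2, hY3⟩ := lines Z hZ D hD k y
  have h1 := LVY.bonfG (Ω := Sym σ k → ZMod p) (τ := σ → ZMod p) p (fun t a => fv a t) T m hm
    (fun U hU hc v => Q4_cnt hT hU (by omega) v) Y C (fun t ht => by have := hY1 t ht; omega)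
    (le_trans (by exact_mod_cast hY2) hC)
  rw [Q4_card] at h1
  exact (Q4_le Z T Y y hY3).trans h1

theorem last_sharp {p : ℕ} [Fact p.Prime] {σ : Type} [Fintype σ] [DecidableEq σ] (Z : Set (σ → ZMod p))
    (hZ : ∀ x ∈ Z, x ≠ 0) (D : ℕ) (hD : ∀ x ∈ Z, Nat.card {l : ZMod p // l • x ∈ Z} ≤ D)
    (hC : (Nat.card Z : ℝ) ≤ 3 / 2 * p) (k : ℕ) (hk : 2 ≤ k) (y : ZMod p) :
    (Nat.card {a : Sym σ k → ZMod p // ∃ x ∈ Z, fv a x = y} : ℝ) ≤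
      (15 / 16 + (D : ℝ) / p) * (p : ℝ) ^ Fintype.card (Sym σ k) := by
  obtain ⟨T, Y, hT, hY1, hY2, hY3⟩ := lines Z hZ D hD k y
  have h1 := LVH.bonf (Ω := Sym σ k → ZMod p) (τ := σ → ZMod p) p (fun t a => fv a t) T
    (fun U hU hc v => Q4_cnt hT hU (by omega) v) Y (D : ℝ) (fun t ht => by exact_mod_cast hY1 t ht)
    (le_trans (by exact_mod_cast hY2) hC) (Nat.cast_nonneg _)
  rw [Q4_card] at h1
  exact (Q4_le Z T Y y hY3).trans h1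

end LVZ
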