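import Pool.Agent.Lib.MP_17a322_ntLY.P5
import Pool.Agent.Lib.MP_17a322_ntLZ.Q2
import Pool.Agent.Lib.MP_17a322_ntLZ.Q4

/-!
# LEAF Q5: the density of the finite part

PROOF.  As `LVY.fin_big`, `LVY.fin_sharp` (file `MP_17a322_ntLY/Q5.lean`), with the sum over all `a : Fin N → ZMod p` in place of the sum over `b : Bo σ p d i0`: by `swap`, `#(Fn Z V y) * A = ∑ a, N' a` with `A = p ^ card (Sym σ (d i0))`, `N' a = #{h | ∃ x ∈ Zb Z V i0 y a, fv h x = y i0} ≤ A`; by `mean` and `#Z ≤ C p ^ s`, `∑ a, #(Zb Z V i0 y a) ≤ C p * p ^ N`; for `#(Zb Z V i0 y a) ≤ 2 C p` use `last_big` (with `2 C` and `D + ∑ i, d i`, `line_bd`).  The elements of `Zb Z V i0 y a ⊆ Z` are not `0` (`hZ`).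
-/

namespace LVZ

open Finset
open LVH (fv)

private theorem Q5_real {B : Type} [Fintype B] (N G : B → ℕ) (p cA : ℕ) (D : ℝ) (hp : 0 < (p : ℝ)) (hD : 0 ≤ D)
    (h1 : ∀ b, (N b : ℝ) ≤ 3 / 2 * p → (G b : ℝ) ≤ (15 / 16 + D) * cA) (h2 : ∀ b, G b ≤ cA)
    (h3 : 10 * ∑ b, N b ≤ 11 * p * Fintype.card B) :
    ((∑ b, G b : ℕ) : ℝ) ≤ (1 - 1 / 60 + D) * (cA * Fintype.card B) := by
  have h4 : ∀ b, (G b : ℝ) ≤ (15 / 16 + D + (1 / 16) * ((2 / 3) * ((N b : ℝ) / p))) * cA := by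
    intro b
    have hc : (0 : ℝ) ≤ cA := Nat.cast_nonneg _
    have hN : (0 : ℝ) ≤ (N b : ℝ) / p := by positivity
    rcases le_or_gt (N b : ℝ) (3 / 2 * p) with h | h
    · refine (h1 b h).trans ?_
      refine mul_le_mul_of_nonneg_right ?_ hc
      linarith
    · have h5 : (3 / 2 : ℝ) ≤ (N b : ℝ) / p := by
        rw [le_div_iff₀ hp]
        exact h.le
      have h6 : (G b : ℝ) ≤ cA := by exact_mod_cast h2 b
      have h7 : (1 : ℝ) ≤ 15 / 16 + D + (1 / 16) * ((2 / 3) * ((N b : ℝ) / p)) := by linarith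
      calc (G b : ℝ) ≤ 1 * cA := by rw [one_mul]; exact h6
        _ ≤ _ := mul_le_mul_of_nonneg_right h7 hc
  have h5 : ((∑ b, N b : ℕ) : ℝ) / p ≤ 11 / 10 * Fintype.card B := by
    rw [div_le_iff₀ hp]
    have h6 : ((10 * ∑ b, N b : ℕ) : ℝ) ≤ ((11 * p * Fintype.card B : ℕ) : ℝ) := by exact_mod_cast h3
    rw [Nat.cast_mul, Nat.cast_mul, Nat.cast_mul, Nat.cast_ofNat, Nat.cast_ofNat] at h6
    linarith
  rw [Nat.cast_sum]
  refine (Finset.sum_le_sum fun b _ => h4 b).trans ?_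
  rw [← Finset.sum_mul, Finset.sum_add_distrib, ← Finset.mul_sum, ← Finset.mul_sum, ← Finset.sum_div,
    Finset.sum_const, Finset.card_univ, nsmul_eq_mul, ← Nat.cast_sum]
  have hc : (0 : ℝ) ≤ cA := Nat.cast_nonneg _
  have h8 : (Fintype.card B : ℝ) * (15 / 16 + D) + 1 / 16 * (2 / 3 * (((∑ b, N b : ℕ) : ℝ) / p)) ≤
      (1 - 1 / 60 + D) * Fintype.card B := by
    linarith
  calc _ ≤ ((1 - 1 / 60 + D) * Fintype.card B) * cA := mul_le_mul_of_nonneg_right h8 hc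
    _ = _ := by ring

private theorem Q5_big {B : Type} [Fintype B] (N G : B → ℕ) (p cA C : ℕ) (c : ℝ) (hp : 0 < (p : ℝ)) (hc : 0 ≤ c)
    (h1 : ∀ b, (N b : ℝ) ≤ 2 * C * p → (G b : ℝ) ≤ (1 - 2 * c) * cA) (h2 : ∀ b, G b ≤ cA)
    (h3 : ∑ b, N b ≤ C * (p * Fintype.card B)) :
    ((∑ b, G b : ℕ) : ℝ) ≤ (1 - c) * (cA * Fintype.card B) := by
  have hA : (0 : ℝ) ≤ cA := Nat.cast_nonneg _
  have hB : (0 : ℝ) ≤ Fintype.card B := Nat.cast_nonneg _
  rcases Nat.eq_zero_or_pos C with h0 | hC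
  · subst h0
    have h4 : ∀ b, (G b : ℝ) ≤ (1 - 2 * c) * cA := by
      intro b
      refine h1 b ?_
      rw [zero_mul] at h3
      have h5 : N b ≤ ∑ b, N b := Finset.single_le_sum (fun _ _ => Nat.zero_le _) (Finset.mem_univ b)
      have h6 : N b = 0 := by omega
      rw [h6]
      simp
    rw [Nat.cast_sum]
    refine (Finset.sum_le_sum fun b _ => h4 b).trans ?_
    rw [Finset.sum_const, Finset.card_univ, nsmul_eq_mul]
    have h5 : 0 ≤ c * (cA * Fintype.card B) := by positivity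
    linarith
  · have hCp : (0 : ℝ) < 2 * C * p := by positivity
    have h4 : ∀ b, (G b : ℝ) ≤ (1 - 2 * c + 2 * c * ((N b : ℝ) / (2 * C * p))) * cA := by
      intro b
      have hN : (0 : ℝ) ≤ (N b : ℝ) / (2 * C * p) := by positivity
      rcases le_or_gt (N b : ℝ) (2 * C * p) with h | h
      · refine (h1 b h).trans ?_
        refine mul_le_mul_of_nonneg_right ?_ hA
        have : 0 ≤ 2 * c * ((N b : ℝ) / (2 * C * p)) := by positivity
        linarith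
      · have h5 : (1 : ℝ) ≤ (N b : ℝ) / (2 * C * p) := by
          rw [le_div_iff₀ hCp, one_mul]
          exact h.le
        have h6 : (G b : ℝ) ≤ cA := by exact_mod_cast h2 b
        have h7 : (1 : ℝ) ≤ 1 - 2 * c + 2 * c * ((N b : ℝ) / (2 * C * p)) := by
          have h8 : 2 * c * 1 ≤ 2 * c * ((N b : ℝ) / (2 * C * p)) :=
            mul_le_mul_of_nonneg_left h5 (by linarith)
          linarith
        calc (G b : ℝ) ≤ 1 * cA := by rw [one_mul]; exact h6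
          _ ≤ _ := mul_le_mul_of_nonneg_right h7 hA
    have h5 : ((∑ b, N b : ℕ) : ℝ) / (2 * C * p) ≤ Fintype.card B / 2 := by
      rw [div_le_iff₀ hCp]
      have h6 : ((∑ b, N b : ℕ) : ℝ) ≤ ((C * (p * Fintype.card B) : ℕ) : ℝ) := by exact_mod_cast h3
      rw [Nat.cast_mul, Nat.cast_mul] at h6
      linarith
    rw [Nat.cast_sum]
    refine (Finset.sum_le_sum fun b _ => h4 b).trans ?_
    rw [← Finset.sum_mul, Finset.sum_add_distrib, ← Finset.mul_sum, ← Finset.sum_div,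
      Finset.sum_const, Finset.card_univ, nsmul_eq_mul, ← Nat.cast_sum]
    have h8 : (Fintype.card B : ℝ) * (1 - 2 * c) + 2 * c * (((∑ b, N b : ℕ) : ℝ) / (2 * C * p)) ≤
        (1 - c) * Fintype.card B := by
      have h9 : 2 * c * (((∑ b, N b : ℕ) : ℝ) / (2 * C * p)) ≤ 2 * c * (Fintype.card B / 2) :=
        mul_le_mul_of_nonneg_left h5 (by linarith)
      linarith
    calc _ ≤ ((1 - c) * Fintype.card B) * cA := mul_le_mul_of_nonneg_right h8 hA
      _ = _ := by ring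

private theorem Q5_fin {B : Type} [Fintype B] (F A cB : ℕ) (G : B → ℕ) (r : ℝ) (hA : 0 < A)
    (h1 : F * A = ∑ b, G b) (hB : Fintype.card B = cB)
    (h2 : ((∑ b, G b : ℕ) : ℝ) ≤ r * (A * Fintype.card B)) : (F : ℝ) ≤ r * cB := by
  rw [← h1, hB, Nat.cast_mul] at h2
  have hA' : (0 : ℝ) < A := by exact_mod_cast hA
  refine le_of_mul_le_mul_right (a := (A : ℝ)) ?_ hA'
  calc (F : ℝ) * A ≤ r * (A * cB) := h2
    _ = r * cB * A := by ring

theorem fin_big (C : ℕ) : ∃ (d0 : ℕ) (c : ℝ), 0 < c ∧ c < 1 ∧ ∀ (p : ℕ) [Fact p.Prime] (σ : Type) [Fintype σ]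
    [DecidableEq σ] (N s : ℕ) (d : Fin s → ℕ) (i0 : Fin s) (Z : Set (σ → ZMod p))
    (V : Fin N → Fin s → (σ → ZMod p) → ZMod p) (D : ℕ)
    (L : (Fin N → ZMod p) → (Sym σ (d i0) → ZMod p)) (w : (Sym σ (d i0) → ZMod p) → (Fin N → ZMod p)),
    (∀ i, 1 ≤ d i) → d0 ≤ d i0 → Nat.card Z ≤ C * p ^ s → (∀ x ∈ Z, x ≠ 0) →
    (∀ k i (l : ZMod p) x, V k i (l • x) = l ^ d i * V k i x) →
    (∀ x ∈ Z, ∀ y : Fin s → ZMod p, ∃ a : Fin N → ZMod p, ∀ i, ∑ k, a k * V k i x = y i) →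
    (∀ a h, L (a + w h) = L a + h) → (∀ a x, ∑ k, a k * V k i0 x = fv (L a) x) →
    (∀ h x i, i ≠ i0 → ∑ k, w h k * V k i x = 0) → ∀ y : Fin s → ZMod p,
    ((∀ x ∈ Z, Nat.card {l : ZMod p // l • x ∈ Z} ≤ D) ∨ ∃ i, i ≠ i0 ∧ y i ≠ 0) → 2 * (D + ∑ i, d i) ≤ p →
      (Nat.card (Fn Z V y) : ℝ) ≤ (1 - c) * (p : ℝ) ^ N := by
  obtain ⟨m, hm, hmC⟩ := LVY.exists_m (2 * (C : ℝ))
  refine ⟨2 * m, Real.exp (-2 * (2 * (C : ℝ))) / 4, by positivity, ?_, ?_⟩
  · have h1 : Real.exp (-2 * (2 * (C : ℝ))) ≤ 1 := by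
      rw [Real.exp_le_one_iff]
      have : (0 : ℝ) ≤ C := Nat.cast_nonneg _
      linarith
    linarith
  · intro p _ σ _ _ N s d i0 Z V D L w hd hd0 hZ hZ0 hV hR hL hF hw y hD h2
    have hp : (0 : ℝ) < p := by exact_mod_cast (Fact.out : p.Prime).pos
    have hps : 0 < p ^ s := pow_pos (Fact.out : p.Prime).pos s
    have hB : Fintype.card (Fin N → ZMod p) = p ^ N := by
      rw [Fintype.card_fun, ZMod.card, Fintype.card_fin]
    have key := Q5_fin (Nat.card (Fn Z V y)) (p ^ Fintype.card (Sym σ (d i0))) (p ^ N)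
      (fun a : Fin N → ZMod p => Nat.card {h : Sym σ (d i0) → ZMod p // ∃ x ∈ Zb Z V i0 y a, fv h x = y i0})
      (1 - Real.exp (-2 * (2 * (C : ℝ))) / 4) (pow_pos (Fact.out : p.Prime).pos _)
      (swap Z V i0 y L w hL hF hw) hB
      (Q5_big (fun a : Fin N → ZMod p => Nat.card (Zb Z V i0 y a)) _ p (p ^ Fintype.card (Sym σ (d i0))) C
        (Real.exp (-2 * (2 * (C : ℝ))) / 4) hp (by positivity) ?_ ?_ ?_)
    · rw [Nat.cast_pow] at key
      exact key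
    · intro b hb
      have h := last_big (Zb Z V i0 y b) (fun x hx => hZ0 x hx.1) (D + ∑ i, d i)
        (fun x hx => line_bd d hd Z V hV i0 y D hD b x hx) h2 (2 * (C : ℝ)) hb m (d i0) hm hd0 (y i0)
      rw [Nat.cast_pow]
      refine h.trans (mul_le_mul_of_nonneg_right ?_ (by positivity))
      linarith
    · intro b
      have h := Nat.card_le_card_of_injective
        (Subtype.val : {a : Sym σ (d i0) → ZMod p // ∃ x ∈ Zb Z V i0 y b, fv a x = y i0} → _) Subtype.val_injective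
      rw [Nat.card_eq_fintype_card (α := Sym σ (d i0) → ZMod p), Fintype.card_fun, ZMod.card] at h
      exact h
    · have h := mean Z V i0 hR y
      rw [hB]
      refine Nat.le_of_mul_le_mul_right (c := p ^ s) ?_ hps
      calc _ ≤ Nat.card Z * (p * p ^ N) := h
        _ ≤ C * p ^ s * (p * p ^ N) := Nat.mul_le_mul_right _ hZ
        _ = _ := by ring

theorem fin_sharp {p : ℕ} [Fact p.Prime] {σ : Type} [Fintype σ] [DecidableEq σ] {N s : ℕ} (d : Fin s → ℕ) (i0 : Fin s)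
    (Z : Set (σ → ZMod p)) (V : Fin N → Fin s → (σ → ZMod p) → ZMod p) (D : ℕ)
    (L : (Fin N → ZMod p) → (Sym σ (d i0) → ZMod p)) (w : (Sym σ (d i0) → ZMod p) → (Fin N → ZMod p))
    (hd : ∀ i, 1 ≤ d i) (h2 : 2 ≤ d i0) (hZ : 10 * Nat.card Z ≤ 11 * p ^ s) (hZ0 : ∀ x ∈ Z, x ≠ 0)
    (hV : ∀ k i (l : ZMod p) x, V k i (l • x) = l ^ d i * V k i x)
    (hR : ∀ x ∈ Z, ∀ y : Fin s → ZMod p, ∃ a : Fin N → ZMod p, ∀ i, ∑ k, a k * V k i x = y i)
    (hL : ∀ a h, L (a + w h) = L a + h) (hF : ∀ a x, ∑ k, a k * V k i0 x = fv (L a) x)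
    (hw : ∀ h x i, i ≠ i0 → ∑ k, w h k * V k i x = 0) (y : Fin s → ZMod p)
    (hD : (∀ x ∈ Z, Nat.card {l : ZMod p // l • x ∈ Z} ≤ D) ∨ ∃ i, i ≠ i0 ∧ y i ≠ 0) :
    (Nat.card (Fn Z V y) : ℝ) ≤ (1 - 1 / 60 + ((D + ∑ i, d i : ℕ) : ℝ) / p) * (p : ℝ) ^ N := by
  have hp : (0 : ℝ) < p := by exact_mod_cast (Fact.out : p.Prime).pos
  have hps : 0 < p ^ s := pow_pos (Fact.out : p.Prime).pos s
  have hB : Fintype.card (Fin N → ZMod p) = p ^ N := by
    rw [Fintype.card_fun, ZMod.card, Fintype.card_fin]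
  have key := Q5_fin (Nat.card (Fn Z V y)) (p ^ Fintype.card (Sym σ (d i0))) (p ^ N)
    (fun a : Fin N → ZMod p => Nat.card {h : Sym σ (d i0) → ZMod p // ∃ x ∈ Zb Z V i0 y a, fv h x = y i0})
    (1 - 1 / 60 + ((D + ∑ i, d i : ℕ) : ℝ) / p) (pow_pos (Fact.out : p.Prime).pos _)
    (swap Z V i0 y L w hL hF hw) hB
    (Q5_real (fun a : Fin N → ZMod p => Nat.card (Zb Z V i0 y a)) _ p (p ^ Fintype.card (Sym σ (d i0)))
      (((D + ∑ i, d i : ℕ) : ℝ) / p) hp (by positivity) ?_ ?_ ?_)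
  · rw [Nat.cast_pow] at key
    exact key
  · intro b hb
    have h := last_sharp (Zb Z V i0 y b) (fun x hx => hZ0 x hx.1) (D + ∑ i, d i)
      (fun x hx => line_bd d hd Z V hV i0 y D hD b x hx) hb (d i0) h2 (y i0)
    rw [Nat.cast_pow]
    exact h
  · intro b
    have h := Nat.card_le_card_of_injective
      (Subtype.val : {a : Sym σ (d i0) → ZMod p // ∃ x ∈ Zb Z V i0 y b, fv a x = y i0} → _) Subtype.val_injective
    rw [Nat.card_eq_fintype_card (α := Sym σ (d i0) → ZMod p), Fintype.card_fun, ZMod.card] at h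
    exact h
  · have h := mean Z V i0 hR y
    rw [hB]
    refine Nat.le_of_mul_le_mul_right (c := p ^ s) ?_ hps
    calc _ = 10 * ((∑ a : Fin N → ZMod p, Nat.card (Zb Z V i0 y a)) * p ^ s) := by ring
      _ ≤ 10 * (Nat.card Z * (p * p ^ N)) := Nat.mul_le_mul_left _ h
      _ = 10 * Nat.card Z * (p * p ^ N) := by ring
      _ ≤ 11 * p ^ s * (p * p ^ N) := Nat.mul_le_mul_right _ hZ
      _ = _ := by ring

end LVZ
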