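import Pool.Agent.Lib.MP_17a322_ntLZ.PDefs
import Pool.Agent.Lib.MP_17a322_ntLH.E1

/-!
# LEAF H3: complete systems modulo primes

PROOF.  A homogeneous polynomial `h` of degree `m` in the variables `X b` is `∑ α : Sym (Fin q) m, (coeff of h at α) * X ^ α`, where the exponent of `α` is `Multiset.toFinsupp α` (of degree `m`); so with `L a α = ∑ k, a k * φ (coeff (toFinsupp α) (g k i0))` one has `∑ k, a k * vl g φ k i0 x = fv (L a) x`; `L` is additive.  For every `α`, `Cp` for the monomial `X ^ α` gives `a α : Fin N → K`; choose a nonzero integer `M` such that all `M * a α k` are integral, say the images of `b α k : 𝓞 K`; then `∑ k, C (b α k) * g k i'` is `M * X ^ α` for `i' = i0` and `0` otherwise (injectivity of `MvPolynomial.map (algebraMap (𝓞 K) K)`).  For `p > M` put `w h k = M⁻¹ * ∑ α, h α * φ (b α k)`; then `L (w h) = h` and the other components are `0`.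
-/

namespace LVZ

open NumberField
open LVH (fv)

private theorem H3_one {K : Type} [Field K] [NumberField K] (a : K) :
    ∃ N : ℕ, N ≠ 0 ∧ ∀ M : ℕ, N ∣ M → ∃ b : 𝓞 K, algebraMap (𝓞 K) K b = (M : K) * a := by
  have halg : IsAlgebraic ℤ a :=
    (IsFractionRing.isAlgebraic_iff ℤ ℚ K).2 (Algebra.IsAlgebraic.isAlgebraic a)
  obtain ⟨y, hy0, hy⟩ := halg.exists_integral_multiple
  refine ⟨y.natAbs, Int.natAbs_ne_zero.2 hy0, ?_⟩
  rintro M ⟨c, rfl⟩
  have h1 : ((y.natAbs : ℕ) : K) = (y : K) ∨ ((y.natAbs : ℕ) : K) = -(y : K) := by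
    rcases Int.natAbs_eq y with h | h
    · left
      conv_rhs => rw [h]
      rw [Int.cast_natCast]
    · right
      conv_rhs => rw [h]
      rw [Int.cast_neg, Int.cast_natCast, neg_neg]
  have h2 : IsIntegral ℤ (((y.natAbs * c : ℕ) : K) * a) := by
    have h3 : IsIntegral ℤ ((c : K) * (y • a)) := by
      refine IsIntegral.mul ?_ hy
      have h4 : IsIntegral ℤ (algebraMap ℤ K (c : ℤ)) := isIntegral_algebraMap
      rw [eq_intCast, Int.cast_natCast] at h4
      exact h4
    rcases h1 with h | h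
    · have h5 : ((y.natAbs * c : ℕ) : K) * a = (c : K) * (y • a) := by
        rw [Nat.cast_mul, h, zsmul_eq_mul]
        ring
      rw [h5]
      exact h3
    · have h5 : ((y.natAbs * c : ℕ) : K) * a = -((c : K) * (y • a)) := by
        rw [Nat.cast_mul, h, zsmul_eq_mul]
        ring
      rw [h5]
      exact h3.neg
  exact (IsIntegralClosure.isIntegral_iff (A := 𝓞 K)).1 h2

private theorem H3_fin {K : Type} [Field K] [NumberField K] (S : Finset K) :
    ∃ N : ℕ, N ≠ 0 ∧ ∀ M : ℕ, N ∣ M → ∀ a ∈ S, ∃ b : 𝓞 K, algebraMap (𝓞 K) K b = (M : K) * a := by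
  classical
  induction S using Finset.induction_on with
  | empty => exact ⟨1, one_ne_zero, fun M _ a ha => absurd ha (Finset.notMem_empty a)⟩
  | insert x T _ ih =>
    obtain ⟨N, hN, h⟩ := ih
    obtain ⟨N', hN', h'⟩ := H3_one x
    refine ⟨N' * N, mul_ne_zero hN' hN, fun M hM a ha => ?_⟩
    rcases Finset.mem_insert.1 ha with rfl | ha
    · exact h' M ((Dvd.intro _ rfl).trans hM)
    · exact h M ((Dvd.intro_left _ rfl).trans hM) a ha

private noncomputable def H3_ex {q m : ℕ} (α : Sym (Fin q) m) : Fin q →₀ ℕ := Multiset.toFinsupp (α : Multiset (Fin q))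

private theorem H3_ex_inj {q m : ℕ} {α β : Sym (Fin q) m} (h : H3_ex α = H3_ex β) : α = β := by
  unfold H3_ex at h
  exact Sym.coe_injective (Multiset.toFinsupp.injective h)

private theorem H3_ex_degree {q m : ℕ} (α : Sym (Fin q) m) : (H3_ex α).degree = m := by
  unfold H3_ex
  rw [Finsupp.degree_eq_sum]
  simp only [Multiset.toFinsupp_apply]
  rw [Multiset.sum_count_eq_card (fun a _ => Finset.mem_univ a)]
  exact α.2

private theorem H3_ex_surj {q m : ℕ} (n : Fin q →₀ ℕ) (hn : n.degree = m) : ∃ α : Sym (Fin q) m, H3_ex α = n := by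
  refine ⟨⟨Finsupp.toMultiset n, ?_⟩, ?_⟩
  · rw [Finsupp.card_toMultiset, ← hn, Finsupp.degree_apply]
    rfl
  · unfold H3_ex
    exact Finsupp.toMultiset_toFinsupp n

private theorem H3_expand {R : Type} [CommRing R] {q m : ℕ} {h : MvPolynomial (Fin q) R} (hh : h.IsHomogeneous m) :
    h = ∑ α : Sym (Fin q) m, MvPolynomial.monomial (H3_ex α) (MvPolynomial.coeff (H3_ex α) h) := by
  classical
  ext n
  rw [MvPolynomial.coeff_sum]
  simp only [MvPolynomial.coeff_monomial]
  by_cases hn : n.degree = m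
  · obtain ⟨β, rfl⟩ := H3_ex_surj n hn
    rw [Finset.sum_eq_single β]
    · rw [if_pos rfl]
    · intro α _ hα
      rw [if_neg fun h1 => hα (H3_ex_inj h1)]
    · intro h1
      exact absurd (Finset.mem_univ β) h1
  · rw [hh.coeff_eq_zero hn]
    symm
    refine Finset.sum_eq_zero fun α _ => ?_
    rw [if_neg]
    rintro rfl
    exact hn (H3_ex_degree α)

private theorem H3_mon {S : Type} [CommRing S] {q m : ℕ} (x : Fin q → S) (α : Sym (Fin q) m) :
    ((H3_ex α).prod fun n e => x n ^ e) = LVH.mon x α := by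
  classical
  unfold LVH.mon H3_ex
  rw [Finset.prod_multiset_map_count, Finsupp.prod, Multiset.toFinsupp_support]
  exact Finset.prod_congr rfl fun i _ => by rw [Multiset.toFinsupp_apply]

private theorem H3_eval {R S : Type} [CommRing R] [CommRing S] (φ : R →+* S) {q m : ℕ} {h : MvPolynomial (Fin q) R}
    (hh : h.IsHomogeneous m) (x : Fin q → S) :
    MvPolynomial.eval₂ φ x h = ∑ α : Sym (Fin q) m, φ (MvPolynomial.coeff (H3_ex α) h) * LVH.mon x α := by
  conv_lhs => rw [H3_expand hh]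
  rw [MvPolynomial.eval₂_sum]
  refine Finset.sum_congr rfl fun α _ => ?_
  rw [MvPolynomial.eval₂_monomial, H3_mon]

theorem cp_mod (K : Type) [Field K] [NumberField K] {q N s : ℕ} (d : Fin s → ℕ)
    (g : Fin N → Fin s → MvPolynomial (Fin q) (𝓞 K)) (hg : ∀ k i, (g k i).IsHomogeneous (d i)) (i0 : Fin s)
    (h : Cp g d i0) : ∃ p1 : ℕ, ∀ (p : ℕ) [Fact p.Prime], p1 ≤ p → ∀ φ : 𝓞 K →+* ZMod p,
      ∃ (L : (Fin N → ZMod p) → (Sym (Fin q) (d i0) → ZMod p)) (w : (Sym (Fin q) (d i0) → ZMod p) → (Fin N → ZMod p)),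
        (∀ a h, L (a + w h) = L a + h) ∧ (∀ a x, ∑ k, a k * vl g φ k i0 x = fv (L a) x) ∧
          ∀ h x i, i ≠ i0 → ∑ k, w h k * vl g φ k i x = 0 := by
  classical
  -- the monomials
  have hmon : ∀ α : Sym (Fin q) (d i0), (MvPolynomial.monomial (H3_ex α) (1 : K)).IsHomogeneous (d i0) := fun α =>
    MvPolynomial.isHomogeneous_monomial _ (H3_ex_degree α)
  choose a ha using fun α : Sym (Fin q) (d i0) => h _ (hmon α)
  obtain ⟨M, hM, hMb⟩ := H3_fin (Finset.univ.biUnion fun α : Sym (Fin q) (d i0) => Finset.univ.image fun k => a α k)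
  have hb : ∀ (α : Sym (Fin q) (d i0)) (k : Fin N), ∃ b : 𝓞 K, algebraMap (𝓞 K) K b = (M : K) * a α k := fun α k =>
    hMb M dvd_rfl _ (Finset.mem_biUnion.2 ⟨α, Finset.mem_univ _, Finset.mem_image_of_mem _ (Finset.mem_univ k)⟩)
  choose b hb using hb
  have key : ∀ (α : Sym (Fin q) (d i0)) (i' : Fin s), ∑ k, MvPolynomial.C (b α k) * g k i' =
      if i' = i0 then MvPolynomial.monomial (H3_ex α) (M : 𝓞 K) else 0 := by
    intro α i'
    refine MvPolynomial.map_injective (algebraMap (𝓞 K) K) (FaithfulSMul.algebraMap_injective (𝓞 K) K) ?_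
    have h1 : MvPolynomial.map (algebraMap (𝓞 K) K) (∑ k, MvPolynomial.C (b α k) * g k i') =
        MvPolynomial.C (M : K) * ∑ k, MvPolynomial.C (a α k) * MvPolynomial.map (algebraMap (𝓞 K) K) (g k i') := by
      rw [map_sum, Finset.mul_sum]
      refine Finset.sum_congr rfl fun k _ => ?_
      rw [map_mul, MvPolynomial.map_C, hb, MvPolynomial.C_mul, mul_assoc]
    rw [h1, ha α i']
    by_cases hi : i' = i0
    · rw [if_pos hi, if_pos hi, MvPolynomial.C_mul_monomial, MvPolynomial.map_monomial, mul_one, map_natCast (algebraMap (𝓞 K) K)]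
    · rw [if_neg hi, if_neg hi, mul_zero, map_zero]
  refine ⟨M + 1, fun p _ hp φ => ?_⟩
  have hM0 : (M : ZMod p) ≠ 0 := by
    intro h0
    rw [ZMod.natCast_eq_zero_iff] at h0
    exact absurd (Nat.le_of_dvd (Nat.pos_of_ne_zero hM) h0) (by omega)
  obtain ⟨L, hL⟩ : ∃ L : (Fin N → ZMod p) → (Sym (Fin q) (d i0) → ZMod p), ∀ a α,
      L a α = ∑ k, a k * φ (MvPolynomial.coeff (H3_ex α) (g k i0)) := ⟨fun a α => _, fun a α => rfl⟩
  obtain ⟨w, hw⟩ : ∃ w : (Sym (Fin q) (d i0) → ZMod p) → (Fin N → ZMod p), ∀ h k,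
      w h k = (M : ZMod p)⁻¹ * ∑ α, h α * φ (b α k) := ⟨fun h k => _, fun h k => rfl⟩
  have hswap : ∀ (h : Sym (Fin q) (d i0) → ZMod p) (u : Fin N → ZMod p),
      ∑ k, w h k * u k = (M : ZMod p)⁻¹ * ∑ α, h α * ∑ k, φ (b α k) * u k := by
    intro h u
    simp only [hw, Finset.mul_sum, Finset.sum_mul]
    rw [Finset.sum_comm]
    refine Finset.sum_congr rfl fun α _ => Finset.sum_congr rfl fun k _ => ?_
    ring
  refine ⟨L, w, fun a' h' => ?_, fun a' x => ?_, fun h' x i hi => ?_⟩
  · funext β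
    rw [hL, Pi.add_apply, hL]
    have h1 : ∑ k, (a' + w h') k * φ (MvPolynomial.coeff (H3_ex β) (g k i0)) =
        ∑ k, a' k * φ (MvPolynomial.coeff (H3_ex β) (g k i0)) +
          ∑ k, w h' k * φ (MvPolynomial.coeff (H3_ex β) (g k i0)) := by
      rw [← Finset.sum_add_distrib]
      exact Finset.sum_congr rfl fun k _ => by rw [Pi.add_apply, add_mul]
    rw [h1, hswap]
    congr 1
    have h2 : ∀ α, ∑ k, φ (b α k) * φ (MvPolynomial.coeff (H3_ex β) (g k i0)) =
        if α = β then (M : ZMod p) else 0 := by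
      intro α
      have h3 : ∑ k, φ (b α k) * φ (MvPolynomial.coeff (H3_ex β) (g k i0)) =
          φ (MvPolynomial.coeff (H3_ex β) (∑ k, MvPolynomial.C (b α k) * g k i0)) := by
        rw [MvPolynomial.coeff_sum, map_sum]
        exact Finset.sum_congr rfl fun k _ => by rw [MvPolynomial.coeff_C_mul, map_mul]
      rw [h3, key α i0, if_pos rfl, MvPolynomial.coeff_monomial]
      by_cases hαβ : α = β
      · rw [if_pos hαβ, if_pos (by rw [hαβ]), map_natCast]
      · rw [if_neg hαβ, if_neg fun h4 => hαβ (H3_ex_inj h4), map_zero]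
    have h5 : ∑ α, h' α * ∑ k, φ (b α k) * φ (MvPolynomial.coeff (H3_ex β) (g k i0)) = h' β * M := by
      rw [Finset.sum_eq_single β]
      · rw [h2, if_pos rfl]
      · intro α _ hα
        rw [h2, if_neg hα, mul_zero]
      · intro h6
        exact absurd (Finset.mem_univ β) h6
    rw [h5, mul_comm, mul_assoc, mul_inv_cancel₀ hM0, mul_one]
  · unfold vl LVH.fv
    have h1 : ∀ k, MvPolynomial.eval₂ φ x (g k i0) =
        ∑ α : Sym (Fin q) (d i0), φ (MvPolynomial.coeff (H3_ex α) (g k i0)) * LVH.mon x α := fun k =>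
      H3_eval φ (hg k i0) x
    simp only [h1, hL, Finset.mul_sum, Finset.sum_mul]
    rw [Finset.sum_comm]
    refine Finset.sum_congr rfl fun α _ => Finset.sum_congr rfl fun k _ => ?_
    ring
  · rw [hswap]
    have h1 : ∀ α, ∑ k, φ (b α k) * vl g φ k i x = 0 := by
      intro α
      have h2 : ∑ k, φ (b α k) * vl g φ k i x =
          MvPolynomial.eval₂ φ x (∑ k, MvPolynomial.C (b α k) * g k i) := by
        rw [MvPolynomial.eval₂_sum]
        refine Finset.sum_congr rfl fun k _ => ?_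
        rw [MvPolynomial.eval₂_mul, MvPolynomial.eval₂_C]
        rfl
      rw [h2, key α i, if_neg hi, MvPolynomial.eval₂_zero]
    rw [Finset.sum_eq_zero fun α _ => by rw [h1, mul_zero], mul_zero]

end LVZ
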