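import Pool.Agent.Lib.MP_17a322_ntLZ.S7
import Pool.Agent.Lib.MP_17a322_ntLZ.H3

/-!
# LEAF S8: complete systems of vectors of linear forms

PROOF.  `nl_core` gives `G`, `c`, `p0`.  For `p` large, `cp_mod` for every `i` gives `L i`, `w i` (all `d i = 1`; a form `fv b x` with `b : Sym (Fin q) 1 → ZMod p` is `∑ t, b t' * x t`, `t'` the one-element multiset of `t`, `Sym.oneEquiv`, as in `NLd_Fv` of `MP_17a322_ntLX/NLd.lean`).  Let `T a i t = L i a t'`, so `∑ k, a k * vl g φ k i x = ∑ t, T a i t * x t` for all `x`; in particular `T a i t` is the value at the `t`-th basis vector, so `T` is additive.  `T` is onto `Fin r → Fin q → ZMod p`: the value of `T (w i h)` in the `i`-th row is `h` and in the other rows `0` (values at the basis vectors, `∑ k, w i h k * vl g φ i' x = 0` for `i' ≠ i`), so `∑ i, w i (h i)` is mapped to `h`.  All fibres of the surjective additive map `T` have the same number of elements, so `#(Fn Z V y) * p ^ (r q) = #{h | ∃ x ∈ Z, ∀ i, ∑ t,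 h i t * x t = y i} * p ^ N ≤ (1 - c) p ^ (r q) p ^ N`.  As `2 ≤ j + #B` and `j ≤ 1`, `B` is not empty, so `∃ i, y i ≠ 0`.
-/

namespace LVZ

open NumberField

private theorem S8_fiber {G H : Type} [AddCommGroup G] [AddCommGroup H] [Finite G] [Finite H] (f : G →+ H)
    (hf : Function.Surjective f) (y : H) : Nat.card {a // f a = y} * Nat.card H = Nat.card G := by
  obtain ⟨a0, ha0⟩ := hf y
  have h1 : Nat.card {a // f a = y} = Nat.card f.ker := by
    refine Nat.card_congr
      { toFun := fun a => ⟨a.1 - a0, by rw [AddMonoidHom.mem_ker, map_sub, a.2, ha0, sub_self]⟩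
        invFun := fun b => ⟨b.1 + a0, by rw [map_add, AddMonoidHom.mem_ker.1 b.2, zero_add, ha0]⟩
        left_inv := fun a => Subtype.ext (sub_add_cancel _ _)
        right_inv := fun b => Subtype.ext (add_sub_cancel_right _ _) }
  have h2 : Nat.card H = f.ker.index := by
    rw [AddSubgroup.index_ker, AddMonoidHom.range_eq_top.2 hf]
    exact (Nat.card_congr (AddSubgroup.topEquiv (G := H)).toEquiv).symm
  rw [h1, h2]
  exact f.ker.card_mul_index

private theorem S8_pre {G H : Type} [AddCommGroup G] [AddCommGroup H] [Finite G] [Finite H] (f : G →+ H)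
    (hf : Function.Surjective f) (S : Set H) : Nat.card {a // f a ∈ S} * Nat.card H = Nat.card S * Nat.card G := by
  have e : {a // f a ∈ S} ≃ (Σ h : S, {a // f a = h.1}) :=
    { toFun := fun a => ⟨⟨f a.1, a.2⟩, ⟨a.1, rfl⟩⟩
      invFun := fun b => ⟨b.2.1, by rw [b.2.2]; exact b.1.2⟩
      left_inv := fun a => rfl
      right_inv := by
        rintro ⟨⟨h, hh⟩, ⟨a, ha⟩⟩
        have ha' : f a = h := ha
        subst ha'
        rfl }
  have : Fintype S := Fintype.ofFinite S
  rw [Nat.card_congr e, Nat.card_sigma, Finset.sum_mul]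
  rw [Finset.sum_congr rfl fun h _ => S8_fiber f hf h.1, Finset.sum_const, Finset.card_univ, smul_eq_mul,
    Nat.card_eq_fintype_card (α := S)]

private theorem S8_lin {R ι : Type} [CommRing R] [Fintype ι] [DecidableEq ι] (c : Sym ι 1 → R) (x : ι → R) :
    LVH.fv c x = ∑ i, c (Sym.oneEquiv i) * x i := by
  unfold LVH.fv
  rw [← Equiv.sum_comp (Sym.oneEquiv (α := ι)) (fun α => c α * LVH.mon x α)]
  refine Finset.sum_congr rfl fun i _ => ?_
  congr 1
  unfold LVH.mon
  change (Multiset.map x {i}).prod = x i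
  rw [Multiset.map_singleton, Multiset.prod_singleton]

private theorem S8_single {R ι : Type} [CommRing R] [Fintype ι] [DecidableEq ι] (c : Sym ι 1 → R) (t : ι) :
    LVH.fv c (Pi.single t 1) = c (Sym.oneEquiv t) := by
  rw [S8_lin, Finset.sum_eq_single t]
  · rw [Pi.single_eq_same, mul_one]
  · intro i _ hi
    rw [Pi.single_eq_of_ne hi, mul_zero]
  · intro h
    exact absurd (Finset.mem_univ t) h

theorem nl1 (K : Type) [Field K] [NumberField K] {q j r N : ℕ} (P : Ideal (MvPolynomial (Fin q) K)) (hP : Hm P)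
    (e : Fin j → ℕ) (f : Fin j → MvPolynomial (Fin q) (𝓞 K)) (hf : ∀ l, (f l).IsHomogeneous (e l)) (hj : j ≤ 1)
    (he : ∀ l, e l = 1) (h : GI P (r + j)) (hN : LW.NL P) (hr : 2 ≤ j + r) (hr1 : 1 ≤ r) (d : Fin r → ℕ)
    (hd : ∀ i, d i = 1) (g : Fin N → Fin r → MvPolynomial (Fin q) (𝓞 K)) (hg : ∀ k i, (g k i).IsHomogeneous (d i))
    (hc : ∀ i, Cp g d i) (B : Finset (Fin r)) (hB : 2 ≤ j + B.card) :
    ∃ G : Finset (MvPolynomial (Fin q) (𝓞 K)), (∀ g ∈ G, ∃ n, g.IsHomogeneous n) ∧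
      (∀ g ∈ G, MvPolynomial.map (algebraMap (𝓞 K) K) g ∈ P) ∧ LD G f g B := by
  classical
  obtain rfl : d = fun _ => 1 := funext hd
  obtain ⟨G, hG1, hG2, c, hc0, hc1, p0, hcore⟩ := nl_core K P hP e f hf hj he h hN hr hr1
  have hcp := fun i => cp_mod K (fun _ => 1) g hg i (hc i)
  choose p1 hp1 using hcp
  refine ⟨G, hG1, hG2, c, hc0, hc1, max p0 (Finset.univ.sup p1), fun p _ hp φ u hu y hy => ?_⟩
  have hL := fun i => hp1 i p (le_trans (le_trans (Finset.le_sup (Finset.mem_univ i)) (le_max_right _ _)) hp) φ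
  choose L w h1 h2 h3 using hL
  have hB1 : ∃ i, y i ≠ 0 := by
    have h4 : 0 < B.card := by omega
    obtain ⟨i, hi⟩ := Finset.card_pos.1 h4
    exact ⟨i, (hy i).2 hi⟩
  let T : (Fin N → ZMod p) →+ (Fin r → Fin q → ZMod p) :=
    { toFun := fun a i t => ∑ k, a k * vl g φ k i (Pi.single t 1)
      map_zero' := by
        funext i t
        simp
      map_add' := fun a b => by
        funext i t
        simp only [Pi.add_apply, add_mul, Finset.sum_add_distrib] }
  have hTa : ∀ a i t, T a i t = ∑ k, a k * vl g φ k i (Pi.single t 1) := fun a i t => rfl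
  have hTL : ∀ a i t, T a i t = L i a (Sym.oneEquiv t) := by
    intro a i t
    rw [hTa, h2, S8_single]
  have hA : ∀ a i x, ∑ k, a k * vl g φ k i x = ∑ t, T a i t * x t := by
    intro a i x
    rw [h2, S8_lin]
    exact Finset.sum_congr rfl fun t _ => by rw [hTL]
  have hL0 : ∀ i h, ∀ t, L i (w i h) (Sym.oneEquiv t) = h (Sym.oneEquiv t) := by
    intro i h t
    have h4 := h1 i 0 h
    rw [zero_add] at h4
    rw [h4, Pi.add_apply, ← hTL, map_zero]
    show (0 : ZMod p) + _ = _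
    rw [zero_add]
  have hsurj : Function.Surjective T := by
    intro H
    refine ⟨∑ i, w i (fun α => H i (Sym.oneEquiv.symm α)), ?_⟩
    funext i' t
    rw [map_sum, Finset.sum_apply, Finset.sum_apply, Finset.sum_eq_single i']
    · rw [hTL, hL0, Equiv.symm_apply_apply]
    · intro i _ hi
      rw [hTa]
      exact h3 i _ _ i' (Ne.symm hi)
    · intro h
      exact absurd (Finset.mem_univ i') h
  have hS := S8_pre T hsurj {a : Fin r → Fin q → ZMod p | ∃ x ∈ Zs G f φ u, ∀ i, ∑ k, a i k * x k = y i}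
  have hFn : Nat.card (Fn (Zs G f φ u) (vl g φ) y) = Nat.card {a // T a ∈
      {a : Fin r → Fin q → ZMod p | ∃ x ∈ Zs G f φ u, ∀ i, ∑ k, a i k * x k = y i}} := by
    refine Nat.card_congr (Equiv.subtypeEquivRight fun a => ?_)
    show (∃ x ∈ Zs G f φ u, ∀ i, ∑ k, a k * vl g φ k i x = y i) ↔
      ∃ x ∈ Zs G f φ u, ∀ i, ∑ k, T a i k * x k = y i
    simp only [hA]
  have hq : (Nat.card {a : Fin r → Fin q → ZMod p // ∃ x ∈ Zs G f φ u, ∀ i, ∑ k, a i k * x k = y i} : ℝ) ≤
      (1 - c) * (p : ℝ) ^ (r * q) := hcore p (le_trans (le_max_left _ _) hp) φ u hu y hB1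
  have hp0 : (0 : ℝ) < p := by
    have := (Fact.out : p.Prime).pos
    exact_mod_cast this
  have hH : Nat.card (Fin r → Fin q → ZMod p) = p ^ (r * q) := by
    rw [Nat.card_fun, Nat.card_fun, Nat.card_zmod, Nat.card_eq_fintype_card, Nat.card_eq_fintype_card,
      Fintype.card_fin, Fintype.card_fin, ← pow_mul, mul_comm]
  have hN' : Nat.card (Fin N → ZMod p) = p ^ N := by
    rw [Nat.card_fun, Nat.card_zmod, Nat.card_eq_fintype_card, Fintype.card_fin]
  rw [hH, hN'] at hS
  rw [hFn]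
  have hS' : (Nat.card {a // T a ∈
      {a : Fin r → Fin q → ZMod p | ∃ x ∈ Zs G f φ u, ∀ i, ∑ k, a i k * x k = y i}} : ℝ) * (p : ℝ) ^ (r * q) =
      (Nat.card {a : Fin r → Fin q → ZMod p // ∃ x ∈ Zs G f φ u, ∀ i, ∑ k, a i k * x k = y i} : ℝ) * (p : ℝ) ^ N := by
    exact_mod_cast hS
  have hpos : (0 : ℝ) < (p : ℝ) ^ (r * q) := pow_pos hp0 _
  refine le_of_mul_le_mul_right ?_ hpos
  rw [hS']
  calc _ ≤ (1 - c) * (p : ℝ) ^ (r * q) * (p : ℝ) ^ N := mul_le_mul_of_nonneg_right hq (pow_nonneg hp0.le _)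
    _ = (1 - c) * (p : ℝ) ^ N * (p : ℝ) ^ (r * q) := by ring

end LVZ
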