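import Pool.Agent.Lib.MP_17a322_ntLZ.A6
import Pool.Agent.Lib.MP_17a322_ntLZ.Q1
import Pool.Agent.Lib.MP_17a322_ntLZ.Q5
import Pool.Agent.Lib.MP_17a322_ntLZ.H5
import Pool.Agent.Lib.MP_17a322_ntLZ.S8
import Pool.Agent.Lib.MP_17a322_ntLY.S2
import Pool.Agent.Lib.MP_17a322_ntLY.S3

/-! The density of the local condition. -/

namespace LVZ

open Finset NumberField
open LVH (fv)

theorem ev_smul {R S ι : Type} [CommRing R] [CommRing S] (f : R →+* S) {n : ℕ} {g : MvPolynomial ι R}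
    (hg : g.IsHomogeneous n) (l : S) (x : ι → S) :
    MvPolynomial.eval₂ f (l • x) g = l ^ n * MvPolynomial.eval₂ f x g := by
  rw [MvPolynomial.eval₂_eq, MvPolynomial.eval₂_eq, Finset.mul_sum]
  refine Finset.sum_congr rfl fun d hd => ?_
  have h1 : d.degree = n := by
    by_contra h
    exact (MvPolynomial.mem_support_iff.1 hd) (hg.coeff_eq_zero h)
  have h2 : ∏ i ∈ d.support, (l • x) i ^ d i = l ^ n * ∏ i ∈ d.support, x i ^ d i := by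
    rw [← h1, Finsupp.degree_apply, ← Finset.prod_pow_eq_pow_sum, ← Finset.prod_mul_distrib]
    refine Finset.prod_congr rfl fun i _ => ?_
    rw [Pi.smul_apply, smul_eq_mul, mul_pow]
  rw [h2]
  ring

theorem ev_zero {R S ι : Type} [CommRing R] [CommRing S] (f : R →+* S) {n : ℕ} {g : MvPolynomial ι R}
    (hg : g.IsHomogeneous n) (hn : 1 ≤ n) : MvPolynomial.eval₂ f (0 : ι → S) g = 0 := by
  have h := ev_smul f hg (0 : S) 0
  rw [zero_smul, zero_pow (Nat.one_le_iff_ne_zero.1 hn), zero_mul] at h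
  exact h

section

variable {K : Type} [Field K] [NumberField K] {q j r s N : ℕ} {e : Fin j → ℕ} {d : Fin s → ℕ}
  {f : Fin j → MvPolynomial (Fin q) (𝓞 K)} {g : Fin N → Fin s → MvPolynomial (Fin q) (𝓞 K)} {B : Finset (Fin s)}

/-- the nonzero vectors of a slice -/
def Zn {p : ℕ} [Fact p.Prime] (G : Finset (MvPolynomial (Fin q) (𝓞 K))) (f : Fin j → MvPolynomial (Fin q) (𝓞 K)) (φ : 𝓞 K →+* ZMod p)
    (u : Fin j → ZMod p) : Set (Fin q → ZMod p) := {x | x ∈ Zs G f φ u ∧ x ≠ 0}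

theorem Zs_mono {k : Type} [Field k] {G G' : Finset (MvPolynomial (Fin q) (𝓞 K))} (h : G ⊆ G') (φ : 𝓞 K →+* k)
    (u : Fin j → k) : Zs G' f φ u ⊆ Zs G f φ u := fun _ hx => ⟨fun g hg => hx.1 g (h hg), hx.2⟩

theorem card_mono {p : ℕ} [Fact p.Prime] {A A' : Set (Fin q → ZMod p)} (h : A ⊆ A') : Nat.card A ≤ Nat.card A' :=
  Nat.card_le_card_of_injective (fun x => (⟨x.1, h x.2⟩ : A')) fun x x' hx =>
    Subtype.ext (congrArg (fun z : A' => (z : Fin q → ZMod p)) hx)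

theorem Zn_card {p : ℕ} [Fact p.Prime] {G G' : Finset (MvPolynomial (Fin q) (𝓞 K))} (h : G ⊆ G') (φ : 𝓞 K →+* ZMod p)
    (u : Fin j → ZMod p) : Nat.card (Zn G' f φ u) ≤ Nat.card (Zs G f φ u) :=
  card_mono fun _ hx => Zs_mono h φ u hx.1

/-- the vector `0` does not occur -/
theorem Fn_sub (he : ∀ l, 1 ≤ e l) (hf : ∀ l, (f l).IsHomogeneous (e l)) (hd : ∀ i, 1 ≤ d i)
    (hg : ∀ k i, (g k i).IsHomogeneous (d i)) (hB : 1 ≤ j + B.card) {p : ℕ} [Fact p.Prime]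
    (G : Finset (MvPolynomial (Fin q) (𝓞 K))) (φ : 𝓞 K →+* ZMod p) (u : Fin j → ZMod p) (hu : ∀ l, u l ≠ 0)
    (y : Fin s → ZMod p) (hy : ∀ i, y i ≠ 0 ↔ i ∈ B) :
    Nat.card (Fn (Zs G f φ u) (vl g φ) y) ≤ Nat.card (Fn (Zn G f φ u) (vl g φ) y) := by
  refine Nat.card_le_card_of_injective (fun a => (⟨a.1, ?_⟩ : Fn (Zn G f φ u) (vl g φ) y)) fun a a' h =>
    Subtype.ext (congrArg (fun z : Fn (Zn G f φ u) (vl g φ) y => (z : Fin N → ZMod p)) h)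
  obtain ⟨x, hx, hxy⟩ := a.2
  refine ⟨x, ⟨hx, ?_⟩, hxy⟩
  rintro rfl
  rcases Nat.eq_zero_or_pos j with hj | hj
  · obtain ⟨i, hi⟩ : B.Nonempty := by
      rw [← card_pos]
      omega
    have h1 := hxy i
    rw [sum_eq_zero fun k _ => by rw [vl, ev_zero φ (hg k i) (hd i), mul_zero]] at h1
    exact (hy i).2 hi h1.symm
  · have h1 := hx.2 ⟨0, hj⟩
    rw [ev_zero φ (hf _) (he _)] at h1
    exact hu _ h1.symm

/-- the multiples of a vector of a slice which are in the slice -/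
theorem zn_line (he : ∀ l, 1 ≤ e l) (hf : ∀ l, (f l).IsHomogeneous (e l)) (hB : 2 ≤ j + B.card) {p : ℕ}
    [Fact p.Prime] (G : Finset (MvPolynomial (Fin q) (𝓞 K))) (φ : 𝓞 K →+* ZMod p) (u : Fin j → ZMod p)
    (hu : ∀ l, u l ≠ 0) (y : Fin s → ZMod p) (hy : ∀ i, y i ≠ 0 ↔ i ∈ B) (i0 : Fin s) :
    (∀ x ∈ Zn G f φ u, Nat.card {l : ZMod p // l • x ∈ Zn G f φ u} ≤ ∑ l, e l) ∨ ∃ i, i ≠ i0 ∧ y i ≠ 0 := by
  classical
  rcases Nat.eq_zero_or_pos j with hj | hj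
  · right
    obtain ⟨i, hi, hii⟩ := exists_mem_ne (s := B) (by omega) i0
    exact ⟨i, hii, (hy i).2 hi⟩
  left
  intro x hx
  obtain ⟨l0, hl0⟩ : ∃ l0 : Fin j, l0 = ⟨0, hj⟩ := ⟨_, rfl⟩
  have h1 : Nat.card {l : ZMod p // l • x ∈ Zn G f φ u} ≤ e l0 := by
    rw [Nat.card_eq_fintype_card, Fintype.card_subtype]
    refine (card_le_card (t := (Polynomial.nthRoots (e l0) (1 : ZMod p)).toFinset) fun l hl => ?_).trans
      ((Multiset.toFinset_card_le _).trans (Polynomial.card_nthRoots _ _))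
    rw [Multiset.mem_toFinset, Polynomial.mem_nthRoots (he l0)]
    have h2 := (mem_filter.1 hl).2.1.2 l0
    rw [ev_smul φ (hf l0), hx.1.2 l0] at h2
    exact mul_right_cancel₀ (hu l0) (h2.trans (one_mul _).symm)
  exact h1.trans (single_le_sum (f := e) (fun _ _ => Nat.zero_le _) (mem_univ l0))

/-- more forms than the dimension -/
theorem ld_lt (he : ∀ l, 1 ≤ e l) (hf : ∀ l, (f l).IsHomogeneous (e l)) (hd : ∀ i, 1 ≤ d i)
    (hg : ∀ k i, (g k i).IsHomogeneous (d i)) (hB : 2 ≤ j + B.card) (G : Finset (MvPolynomial (Fin q) (𝓞 K)))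
    (C p1 : ℕ) (hC : ∀ (p : ℕ) [Fact p.Prime], p1 ≤ p →
      ∀ (φ : 𝓞 K →+* ZMod p) (u : Fin j → ZMod p), (∀ l, u l ≠ 0) → Nat.card (Zn G f φ u) ≤ C * p ^ r)
    (hR : ∀ (p : ℕ) [Fact p.Prime], p1 ≤ p → ∀ (φ : 𝓞 K →+* ZMod p) (u : Fin j → ZMod p), (∀ l, u l ≠ 0) →
      ∀ x ∈ Zn G f φ u, ∀ y : Fin s → ZMod p, ∃ a : Fin N → ZMod p, ∀ i, ∑ k, a k * vl g φ k i x = y i)
    (hrs : r < s) : LD G f g B := by
  refine ⟨1 / 2, by norm_num, by norm_num, max p1 (2 * C), fun p hp hpp φ u hu y hy => ?_⟩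
  have hpr : p.Prime := Fact.out
  have hp0 : (0 : ℝ) < p := by exact_mod_cast hpr.pos
  have h0 := Fn_sub he hf hd hg (by omega) G φ u hu y hy
  have h1 := union_bd (Zn G f φ u) (vl g φ) (hR p ((le_max_left _ _).trans hpp) φ u hu) y
  have h2 := hC p ((le_max_left _ _).trans hpp) φ u hu
  have h3 : 2 * C ≤ p := (le_max_right _ _).trans hpp
  have h4 : Nat.card (Fn (Zn G f φ u) (vl g φ) y) * p ^ (r + 1) ≤ C * p ^ r * p ^ N := by
    refine le_trans ?_ (h1.trans (Nat.mul_le_mul_right _ h2))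
    exact Nat.mul_le_mul_left _ (Nat.pow_le_pow_right hpr.pos hrs)
  have h5 : 2 * Nat.card (Fn (Zn G f φ u) (vl g φ) y) ≤ p ^ N := by
    have hpos : 0 < p ^ (r + 1) := pow_pos hpr.pos _
    refine Nat.le_of_mul_le_mul_right ?_ hpos
    calc 2 * Nat.card (Fn (Zn G f φ u) (vl g φ) y) * p ^ (r + 1) =
        2 * (Nat.card (Fn (Zn G f φ u) (vl g φ) y) * p ^ (r + 1)) := by ring
      _ ≤ 2 * (C * p ^ r * p ^ N) := Nat.mul_le_mul_left _ h4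
      _ = (2 * C) * (p ^ r * p ^ N) := by ring
      _ ≤ p * (p ^ r * p ^ N) := Nat.mul_le_mul_right _ h3
      _ = p ^ N * p ^ (r + 1) := by ring
  have h6 : (2 : ℝ) * (Nat.card (Fn (Zs G f φ u) (vl g φ) y) : ℝ) ≤ (p : ℝ) ^ N := by
    exact_mod_cast (Nat.mul_le_mul_left 2 h0).trans h5
  linarith

/-- one complete component of degree at least `2`, sharp bound for the slices -/
theorem ld_sharp (he : ∀ l, 1 ≤ e l) (hf : ∀ l, (f l).IsHomogeneous (e l)) (hd : ∀ i, 1 ≤ d i)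
    (hg : ∀ k i, (g k i).IsHomogeneous (d i)) (hB : 2 ≤ j + B.card) (G : Finset (MvPolynomial (Fin q) (𝓞 K)))
    (p1 : ℕ) (hC : ∀ (p : ℕ) [Fact p.Prime], p1 ≤ p →
      ∀ (φ : 𝓞 K →+* ZMod p) (u : Fin j → ZMod p), (∀ l, u l ≠ 0) → 10 * Nat.card (Zn G f φ u) ≤ 11 * p ^ r)
    (hR : ∀ (p : ℕ) [Fact p.Prime], p1 ≤ p → ∀ (φ : 𝓞 K →+* ZMod p) (u : Fin j → ZMod p), (∀ l, u l ≠ 0) →
      ∀ x ∈ Zn G f φ u, ∀ y : Fin s → ZMod p, ∃ a : Fin N → ZMod p, ∀ i, ∑ k, a k * vl g φ k i x = y i)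
    (hrs : r ≤ s) (i0 : Fin s) (h2 : 2 ≤ d i0) (hc : Cp g d i0) : LD G f g B := by
  obtain ⟨D, hD⟩ : ∃ D : ℕ, D = ∑ l, e l + ∑ i, d i := ⟨_, rfl⟩
  obtain ⟨p2, hp2⟩ := cp_mod K d g hg i0 hc
  refine ⟨1 / 100, by norm_num, by norm_num, max (max p1 p2) (10000 * (D + 1)), fun p hp hpp φ u hu y hy => ?_⟩
  have hpr : p.Prime := Fact.out
  have hp0 : (0 : ℝ) < p := by exact_mod_cast hpr.pos
  have hpp1 : p1 ≤ p := (le_max_left _ _).trans ((le_max_left _ _).trans hpp)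
  have hpp2 : p2 ≤ p := (le_max_right _ _).trans ((le_max_left _ _).trans hpp)
  have hpD : 10000 * ((D : ℝ) + 1) ≤ p := by exact_mod_cast (le_max_right _ _).trans hpp
  have hD0 : (0 : ℝ) ≤ D := Nat.cast_nonneg _
  obtain ⟨L, w, hL, hF, hw⟩ := hp2 p hpp2 φ
  have h0 := Fn_sub he hf hd hg (by omega) G φ u hu y hy
  have h1 := fin_sharp d i0 (Zn G f φ u) (vl g φ) (∑ l, e l) L w hd h2
    ((hC p hpp1 φ u hu).trans (Nat.mul_le_mul_left _ (Nat.pow_le_pow_right hpr.pos hrs))) (fun x hx => hx.2)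
    (fun k i l x => ev_smul φ (hg k i) l x) (hR p hpp1 φ u hu) hL hF hw y (zn_line he hf hB G φ u hu y hy i0)
  rw [← hD] at h1
  have h0' : (Nat.card (Fn (Zs G f φ u) (vl g φ) y) : ℝ) ≤ Nat.card (Fn (Zn G f φ u) (vl g φ) y) := by exact_mod_cast h0
  refine h0'.trans (h1.trans (mul_le_mul_of_nonneg_right ?_ (by positivity)))
  have h3 : (D : ℝ) / p ≤ 1 / 10000 := by
    rw [div_le_iff₀ hp0]
    linarith
  linarith

/-- one complete component of large degree -/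
theorem ld_big (C : ℕ) : ∃ d0 : ℕ, ∀ {K : Type} [Field K] [NumberField K] {q j r s N : ℕ} {e : Fin j → ℕ} {d : Fin s → ℕ}
    {f : Fin j → MvPolynomial (Fin q) (𝓞 K)} {g : Fin N → Fin s → MvPolynomial (Fin q) (𝓞 K)} {B : Finset (Fin s)}
    (_ : ∀ l, 1 ≤ e l) (_ : ∀ l, (f l).IsHomogeneous (e l)) (_ : ∀ i, 1 ≤ d i)
    (_ : ∀ k i, (g k i).IsHomogeneous (d i)) (_ : 2 ≤ j + B.card) (G : Finset (MvPolynomial (Fin q) (𝓞 K)))
    (p1 : ℕ) (_ : ∀ (p : ℕ) [Fact p.Prime], p1 ≤ p →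
      ∀ (φ : 𝓞 K →+* ZMod p) (u : Fin j → ZMod p), (∀ l, u l ≠ 0) → Nat.card (Zn G f φ u) ≤ C * p ^ r)
    (_ : ∀ (p : ℕ) [Fact p.Prime], p1 ≤ p → ∀ (φ : 𝓞 K →+* ZMod p) (u : Fin j → ZMod p), (∀ l, u l ≠ 0) →
      ∀ x ∈ Zn G f φ u, ∀ y : Fin s → ZMod p, ∃ a : Fin N → ZMod p, ∀ i, ∑ k, a k * vl g φ k i x = y i)
    (_ : r ≤ s) (i0 : Fin s) (_ : d0 ≤ d i0) (_ : Cp g d i0), LD G f g B := by
  obtain ⟨d0, c, hc0, hc1, h⟩ := fin_big C
  refine ⟨d0, fun {K} _ _ {q j r s N e d f g B} he hf hd hg hB G p1 hC hR hrs i0 h2 hc => ?_⟩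
  obtain ⟨p2, hp2⟩ := cp_mod K d g hg i0 hc
  refine ⟨c, hc0, hc1, max (max p1 p2) (2 * (∑ l, e l + ∑ i, d i)), fun p hp hpp φ u hu y hy => ?_⟩
  have hpr : p.Prime := Fact.out
  have hpp1 : p1 ≤ p := (le_max_left _ _).trans ((le_max_left _ _).trans hpp)
  have hpp2 : p2 ≤ p := (le_max_right _ _).trans ((le_max_left _ _).trans hpp)
  obtain ⟨L, w, hL, hF, hw⟩ := hp2 p hpp2 φ
  have h0 := Fn_sub he hf hd hg (by omega) G φ u hu y hy
  have h0' : (Nat.card (Fn (Zs G f φ u) (vl g φ) y) : ℝ) ≤ Nat.card (Fn (Zn G f φ u) (vl g φ) y) := by exact_mod_cast h0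
  exact h0'.trans (h p (Fin q) N s d i0 (Zn G f φ u) (vl g φ) (∑ l, e l) L w hd h2
    ((hC p hpp1 φ u hu).trans (Nat.mul_le_mul_left _ (Nat.pow_le_pow_right hpr.pos hrs))) (fun x hx => hx.2)
    (fun k i l x => ev_smul φ (hg k i) l x) (hR p hpp1 φ u hu) hL hF hw y (zn_line he hf hB G φ u hu y hy i0)
    ((le_max_right _ _).trans hpp))

end

/-- the sharp cases -/
private theorem L1_sharp (K : Type) [Field K] [NumberField K] {q j r : ℕ} (P : Ideal (MvPolynomial (Fin q) K)) (hP : Hm P)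
    (e : Fin j → ℕ) (f : Fin j → MvPolynomial (Fin q) (𝓞 K)) (hf : ∀ l, (f l).IsHomogeneous (e l)) (hr : 1 ≤ r)
    (h : GP P f r) (h2 : Sh P e f r) :
    ∃ G : Finset (MvPolynomial (Fin q) (𝓞 K)), (∀ g ∈ G, ∃ n, g.IsHomogeneous n) ∧
      (∀ g ∈ G, MvPolynomial.map (algebraMap (𝓞 K) K) g ∈ P) ∧
        ∃ p1 : ℕ, ∀ (p : ℕ) [Fact p.Prime], p1 ≤ p → ∀ (φ : 𝓞 K →+* ZMod p) (u : Fin j → ZMod p), (∀ l, u l ≠ 0) →
          10 * Nat.card (Zs G f φ u) ≤ 11 * p ^ r := by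
  obtain ⟨he, ⟨hj, hGI⟩ | ⟨hP0, hLI⟩⟩ := h2
  · exact LVY.sharp1 K P hP e f hf hj he hGI hr
  · subst hP0
    obtain ⟨p1, hp1⟩ := LVY.lin_sl K f (fun l => by rw [← he l]; exact hf l) hLI h
    refine ⟨∅, fun g hg => absurd hg (notMem_empty g), fun g hg => absurd hg (notMem_empty g), p1,
      fun p hp hpp φ u _ => ?_⟩
    have h3 : Nat.card (Zs ∅ f φ u) ≤ p ^ r := hp1 p hpp φ u
    omega

private theorem L1_cast {p M : ℕ} [Fact p.Prime] (hM : M ≠ 0) (hp : M + 1 ≤ p) : ((M : ℕ) : ZMod p) ≠ 0 := by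
  intro h
  rw [ZMod.natCast_eq_zero_iff] at h
  exact absurd (Nat.le_of_dvd (Nat.pos_of_ne_zero hM) h) (by omega)

open Classical in
theorem local_dens (K : Type) [Field K] [NumberField K] {q j r : ℕ} (P : Ideal (MvPolynomial (Fin q) K)) (hP : Hm P)
    (e : Fin j → ℕ) (he : ∀ l, 1 ≤ e l) (f : Fin j → MvPolynomial (Fin q) (𝓞 K)) (hf : ∀ l, (f l).IsHomogeneous (e l))
    (h : GP P f r) : ∃ d0 : ℕ, (Sh P e f r → d0 ≤ 2) ∧
      ∀ (s N : ℕ) (d : Fin s → ℕ) (B : Finset (Fin s)) (g : Fin N → Fin s → MvPolynomial (Fin q) (𝓞 K)),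
        (∀ i, 1 ≤ d i) → (∀ k i, (g k i).IsHomogeneous (d i)) → GG P f g → r ≤ s → 2 ≤ j + B.card →
        (r < s ∨ (∃ i, d0 ≤ d i ∧ Cp g d i) ∨ ((∀ l, e l = 1) ∧ j ≤ 1 ∧ GI P (r + j) ∧ LW.NL P ∧ ∀ i, Cp g d i)) →
          ∃ G : Finset (MvPolynomial (Fin q) (𝓞 K)), (∀ g ∈ G, ∃ n, g.IsHomogeneous n) ∧
            (∀ g ∈ G, MvPolynomial.map (algebraMap (𝓞 K) K) g ∈ P) ∧ LD G f g B := by
  obtain ⟨G1, hG1, hG1', C, M, hM, hC⟩ := slice K P hP e he f hf h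
  obtain ⟨d1, hd1⟩ := ld_big C
  have hlt : ∀ (s N : ℕ) (d : Fin s → ℕ) (B : Finset (Fin s)) (g : Fin N → Fin s → MvPolynomial (Fin q) (𝓞 K)),
      (∀ i, 1 ≤ d i) → (∀ k i, (g k i).IsHomogeneous (d i)) → GG P f g → r ≤ s → 2 ≤ j + B.card →
      (r < s ∨ ∃ i, d1 ≤ d i ∧ Cp g d i) → ∃ G : Finset (MvPolynomial (Fin q) (𝓞 K)),
        (∀ g ∈ G, ∃ n, g.IsHomogeneous n) ∧ (∀ g ∈ G, MvPolynomial.map (algebraMap (𝓞 K) K) g ∈ P) ∧
          LD G f g B := by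
    intro s N d B g hd hg hGG hrs hB hs
    obtain ⟨G2, hG2, hG2', p2, hR⟩ := rank_mod K P hP f g hGG
    refine ⟨G1 ∪ G2, fun g hg => (mem_union.1 hg).elim (hG1 g) (hG2 g),
      fun g hg => (mem_union.1 hg).elim (hG1' g) (hG2' g), ?_⟩
    have hC' : ∀ (p : ℕ) [Fact p.Prime], max p2 (M + 1) ≤ p → ∀ (φ : 𝓞 K →+* ZMod p) (u : Fin j → ZMod p),
        (∀ l, u l ≠ 0) → Nat.card (Zn (G1 ∪ G2) f φ u) ≤ C * p ^ r := by
      intro p hp hpp φ u _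
      have h1 := hC (ZMod p) φ (L1_cast hM ((le_max_right _ _).trans hpp)) u
      rw [Nat.card_zmod] at h1
      exact (Zn_card subset_union_left φ u).trans h1
    have hR' : ∀ (p : ℕ) [Fact p.Prime], max p2 (M + 1) ≤ p → ∀ (φ : 𝓞 K →+* ZMod p) (u : Fin j → ZMod p),
        (∀ l, u l ≠ 0) → ∀ x ∈ Zn (G1 ∪ G2) f φ u, ∀ y : Fin s → ZMod p,
          ∃ a : Fin N → ZMod p, ∀ i, ∑ k, a k * vl g φ k i x = y i := by
      intro p hp hpp φ u hu x hx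
      exact hR p ((le_max_left _ _).trans hpp) φ u hu x (Zs_mono subset_union_right φ u hx.1) hx.2
    rcases hs with hs | ⟨i0, hi0, hc⟩
    · exact ld_lt he hf hd hg hB _ C _ hC' hR' hs
    · exact hd1 he hf hd hg hB _ _ hC' hR' hrs i0 hi0 hc
  have hsh : ∀ (s N : ℕ) (d : Fin s → ℕ) (B : Finset (Fin s)) (g : Fin N → Fin s → MvPolynomial (Fin q) (𝓞 K)),
      (∀ i, 1 ≤ d i) → (∀ k i, (g k i).IsHomogeneous (d i)) → GG P f g → r = s → 2 ≤ j + B.card →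
      Sh P e f r → (∃ i, 2 ≤ d i ∧ Cp g d i) → ∃ G : Finset (MvPolynomial (Fin q) (𝓞 K)),
        (∀ g ∈ G, ∃ n, g.IsHomogeneous n) ∧ (∀ g ∈ G, MvPolynomial.map (algebraMap (𝓞 K) K) g ∈ P) ∧
          LD G f g B := by
    intro s N d B g hd hg hGG hrs hB hSh ⟨i0, hi0, hc⟩
    subst hrs
    obtain ⟨G2, hG2, hG2', p2, hR⟩ := rank_mod K P hP f g hGG
    obtain ⟨G3, hG3, hG3', p3, hp3⟩ := L1_sharp K P hP e f hf i0.pos h hSh
    refine ⟨G3 ∪ G2, fun g hg => (mem_union.1 hg).elim (hG3 g) (hG2 g),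
      fun g hg => (mem_union.1 hg).elim (hG3' g) (hG2' g), ?_⟩
    refine ld_sharp he hf hd hg hB _ (max p2 p3) ?_ ?_ le_rfl i0 hi0 hc
    · intro p hp hpp φ u hu
      exact (Nat.mul_le_mul_left _ (Zn_card subset_union_left φ u)).trans (hp3 p ((le_max_right _ _).trans hpp) φ u hu)
    · intro p hp hpp φ u hu x hx
      exact hR p ((le_max_left _ _).trans hpp) φ u hu x (Zs_mono subset_union_right φ u hx.1) hx.2
  by_cases hS : Sh P e f r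
  · refine ⟨2, fun _ => le_rfl, fun s N d B g hd hg hGG hrs hB hs => ?_⟩
    by_cases hl : r < s
    · exact hlt s N d B g hd hg hGG hrs hB (Or.inl hl)
    have hr : r = s := by omega
    rcases hs.resolve_left hl with hs | ⟨h1, h2, h3, h4, h5⟩
    · exact hsh s N d B g hd hg hGG hr hB hS hs
    · by_cases h6 : ∃ i, 2 ≤ d i
      · obtain ⟨i0, hi0⟩ := h6
        exact hsh s N d B g hd hg hGG hr hB hS ⟨i0, hi0, h5 i0⟩
      · have hd1' : ∀ i, d i = 1 := by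
          intro i
          have h7 : ¬ 2 ≤ d i := fun h8 => h6 ⟨i, h8⟩
          have h8 := hd i
          omega
        subst hr
        have h9 : B.card ≤ r := by
          have h10 := card_le_univ B
          rwa [Fintype.card_fin] at h10
        exact nl1 K P hP e f hf h2 h1 h3 h4 (by omega) (by omega) d hd1' g hg h5 B hB
  · refine ⟨d1, fun h1 => absurd h1 hS, fun s N d B g hd hg hGG hrs hB hs => ?_⟩
    refine hlt s N d B g hd hg hGG hrs hB ?_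
    rcases hs with hs | hs | ⟨h1, h2, h3, -, -⟩
    · exact Or.inl hs
    · exact Or.inr hs
    · exact absurd ⟨h1, Or.inl ⟨h2, h3⟩⟩ hS

end LVZ
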