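import Pool.Agent.Lib.MP_17a322_ntLZ.PDefs
import Pool.Agent.Lib.MP_17a322_ntLH.T4R
import Pool.Agent.Lib.MP_17a322_ntLH.T9A

/-! The reduction of a point. -/

namespace LVZ

open Finset NumberField
open LVH (Pl Rd res rd_res)
open LVX (ro int_mem)

theorem rd_ev {K : Type} [Field K] [NumberField K] {p : ℕ} {π : Pl K p} {ι : Type} {x : ι → K} {x' : ι → ZMod p}
    (hx : ∀ t, Rd π (x t) (x' t)) (g : MvPolynomial ι (𝓞 K)) :
    Rd π (MvPolynomial.aeval x g) (MvPolynomial.eval₂ (ro π) x' g) := by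
  induction g using MvPolynomial.induction_on with
  | C a =>
    rw [MvPolynomial.aeval_C, MvPolynomial.eval₂_C]
    exact ⟨int_mem π a, rfl⟩
  | add g h hg hh =>
    rw [map_add, MvPolynomial.eval₂_add]
    exact hg.add hh
  | mul_X g i hg =>
    rw [map_mul, MvPolynomial.aeval_X, MvPolynomial.eval₂_mul, MvPolynomial.eval₂_X]
    exact hg.mul (hx i)

theorem local_Fn {K : Type} [Field K] [NumberField K] {p : ℕ} [Fact p.Prime] (π : Pl K p) {q j s N : ℕ}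
    (G : Finset (MvPolynomial (Fin q) (𝓞 K))) (f : Fin j → MvPolynomial (Fin q) (𝓞 K))
    (g : Fin N → Fin s → MvPolynomial (Fin q) (𝓞 K)) (x : Fin q → K) (hx : ∀ w, x w ∈ π.V)
    (hG : ∀ g ∈ G, MvPolynomial.aeval x g = 0) (hf : ∀ l, MvPolynomial.aeval x (f l) ∈ π.V) (c : Fin N → ℤ)
    (hc : ∀ i, Fv g c i x ∈ π.V) : (fun k => ((c k : ℤ) : ZMod p)) ∈
      Fn (Zs G f (ro π) (fun l => res π (MvPolynomial.aeval x (f l)))) (vl g (ro π)) (fun i => res π (Fv g c i x)) := by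
  have hxr : ∀ t : Fin q, Rd π (x t) (π.ρ ⟨x t, hx t⟩) := fun t => ⟨hx t, rfl⟩
  refine ⟨fun t => π.ρ ⟨x t, hx t⟩, ⟨fun g hg => ?_, fun l => ?_⟩, fun i => ?_⟩
  · have h1 := rd_ev hxr g
    rw [hG g hg] at h1
    exact h1.unique Rd.zero
  · exact (rd_ev hxr (f l)).unique (rd_res (hf l))
  · have h1 : Rd π (Fv g c i x) (∑ k, ((c k : ℤ) : ZMod p) * MvPolynomial.eval₂ (ro π) (fun t => π.ρ ⟨x t, hx t⟩) (g k i)) :=
      Rd.sum _ fun k _ => (Rd.int (c k)).mul (rd_ev hxr (g k i))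
    exact h1.unique (rd_res (hc i))

end LVZ
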