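import Pool.Agent.Lib.MP_17a322_ntLZ.E1
import Pool.Agent.Lib.MP_17a322_ntLZ.L1
import Pool.Agent.Lib.MP_17a322_ntLZ.F5
import Pool.Agent.Lib.MP_17a322_ntLZ.T7

/-! Assembly. -/

namespace LVZ

open Finset NumberField
open LVH (Pl res rd_res res_ne scale)
open LVX (ro)

/-- the number of the vectors of a box with a property -/
private theorem box_mono {N : ℕ} (H : ℕ) (Q Q' : (Fin N → ℤ) → Prop) (h : ∀ c, Q c → Q' c) :
    (Nat.card {c : Fin N → ℤ // (∀ k, |c k| ≤ (H : ℤ)) ∧ Q c} : ℝ) ≤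
      (Nat.card {c : Fin N → ℤ // (∀ k, |c k| ≤ (H : ℤ)) ∧ Q' c} : ℝ) := by
  classical
  rw [MWS.VM_card, MWS.VM_card]
  exact_mod_cast card_le_card (monotone_filter_right _ fun c _ hc => h c hc)

/-- the local sets -/
private def Rl {K : Type} [Field K] [NumberField K] {q j s N : ℕ} (G : Finset (MvPolynomial (Fin q) (𝓞 K)))
    (f : Fin j → MvPolynomial (Fin q) (𝓞 K)) (g : Fin N → Fin s → MvPolynomial (Fin q) (𝓞 K)) (B : Finset (Fin s))
    (p : ℕ) (π : Pl K p) (y : Fin (j + s) → ZMod p) : Set (Fin N → ZMod p) :=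
  {c | ∃ _ : Fact p.Prime, c ∈ Fn (Zs G f (ro π) (fun l => y (Fin.castAdd s l))) (vl g (ro π))
    (fun i => if i ∈ B then y (Fin.natAdd j i) else 0)}

open Classical in
theorem main (K : Type) [Field K] [NumberField K] : ∃ δ η : ℝ, 0 < δ ∧ 0 < η ∧ ∀ (q j r : ℕ)
    (P : Ideal (MvPolynomial (Fin q) K)) (e : Fin j → ℕ) (f : Fin j → MvPolynomial (Fin q) (𝓞 K)), Hm P →
    (∀ l, 1 ≤ e l) → (∀ l, (f l).IsHomogeneous (e l)) → GP P f r → ∃ d0 : ℕ, (Sh P e f r → d0 ≤ 2) ∧
      ∀ (s N : ℕ) (d : Fin s → ℕ) (B : Finset (Fin s)) (g : Fin N → Fin s → MvPolynomial (Fin q) (𝓞 K)),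
        (∀ i, 1 ≤ d i) → (∀ k i, (g k i).IsHomogeneous (d i)) → GG P f g → r ≤ s → 2 ≤ j + B.card →
        (r < s ∨ (∃ i, d0 ≤ d i ∧ Cp g d i) ∨ ((∀ l, e l = 1) ∧ j ≤ 1 ∧ GI P (r + j) ∧ LW.NL P ∧ ∀ i, Cp g d i)) →
        ∃ c0 C : ℝ, 0 < c0 ∧ ∀ H : ℕ, 1 ≤ H →
          (Nat.card {c : Fin N → ℤ // (∀ k, |c k| ≤ (H : ℤ)) ∧ ¬ ∀ S : Finset (FinitePlace K),
            (S.card : ℝ) ≤ Real.log H ^ η →
            ∑ v ∈ S, Real.log (Ideal.absNorm v.maximalIdeal.asIdeal : ℝ) ≤ c0 * Real.log H →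
              ∀ x : Fin q → K, On P x → (∀ i ∉ B, Fv g c i x = 0) → Dv f g B c x ≠ 0 →
                mS S (dg e d B) (Dv f g B c x) x <
                  dg e d B * (Height.logHeight x / Module.finrank ℚ K) - c0 * Real.log H} : ℝ) ≤
                    C * (H : ℝ) ^ ((N : ℝ) - δ) := by
  obtain ⟨δ, η, hδ, hη, heng⟩ := engine K
  refine ⟨δ, η, hδ, hη, fun q j r P e f hP he hf hgp => ?_⟩
  obtain ⟨d0, hd0, hld⟩ := local_dens K P hP e he f hf hgp
  refine ⟨d0, hd0, fun s N d B g hd hg hGG hrs hB hs => ?_⟩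
  obtain ⟨G, hGh, hGP, κ, hκ, hκ1, p0, hp0⟩ := hld s N d B g hd hg hGG hrs hB hs
  obtain ⟨S2, -, hsc⟩ := scale K ∅
  have hn : (0 : ℝ) < (Module.finrank ℚ K : ℝ) := by exact_mod_cast (Module.finrank_pos : 0 < Module.finrank ℚ K)
  have hn1 : (1 : ℝ) ≤ (Module.finrank ℚ K : ℝ) := by exact_mod_cast (Module.finrank_pos : 0 < Module.finrank ℚ K)
  obtain ⟨c1, C, hc10, hmain⟩ := heng (j + s) N S2 κ hκ hκ1.le p0 (Rl G f g B) (by
    intro p hp hpp π y hy
    have h1 : Nat.card (Rl G f g B p π y) = Nat.card (Fn (Zs G f (ro π) (fun l => y (Fin.castAdd s l))) (vl g (ro π))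
        (fun i => if i ∈ B then y (Fin.natAdd j i) else 0)) := by
      have h2 : Rl G f g B p π y = Fn (Zs G f (ro π) (fun l => y (Fin.castAdd s l))) (vl g (ro π))
          (fun i => if i ∈ B then y (Fin.natAdd j i) else 0) := by
        ext c
        exact ⟨fun ⟨_, h⟩ => h, fun h => ⟨hp, h⟩⟩
      rw [h2]
    rw [h1]
    refine hp0 p hpp (ro π) _ (fun l => hy _) _ fun i => ?_
    by_cases hi : i ∈ B
    · rw [if_pos hi]
      exact ⟨fun _ => hi, fun _ => hy _⟩
    · rw [if_neg hi]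
      exact ⟨fun h => absurd rfl h, fun h => absurd h hi⟩)
  have hc0 : c1 / Module.finrank ℚ K ≤ c1 := div_le_self hc10.le hn1
  refine ⟨c1 / Module.finrank ℚ K, C, by positivity, fun H hH => ?_⟩
  have hHr : (1 : ℝ) ≤ H := by exact_mod_cast hH
  have hHl : 0 ≤ Real.log H := Real.log_nonneg hHr
  obtain ⟨n, hnn⟩ : ∃ n : ℕ, n = dg e d B := ⟨_, rfl⟩
  have hn0 : n ≠ 0 := by
    rw [hnn]
    unfold dg
    rcases Nat.eq_zero_or_pos j with hj | hj
    · obtain ⟨i, hi⟩ : B.Nonempty := by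
        rw [← card_pos]
        omega
      have h2 := single_le_sum (f := d) (fun _ _ => Nat.zero_le _) hi
      have h3 := hd i
      omega
    · have h2 := single_le_sum (f := e) (fun _ _ => Nat.zero_le _) (mem_univ (⟨0, hj⟩ : Fin j))
      have h3 := he ⟨0, hj⟩
      omega
  rw [← hnn]
  refine le_trans ?_ (hmain H hH (fun T c => ∃ x : Fin q → K, On P x ∧ (∀ i ∉ B, Fv g c i x = 0) ∧ Dv f g B c x ≠ 0 ∧
    n * (Height.logHeight x / Module.finrank ℚ K) - c1 / Module.finrank ℚ K * Real.log H ≤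
      mS T n (Dv f g B c x) x) ?_)
  · refine box_mono H _ _ fun c hc h => hc fun S hSc hSl x hxP hxB hxD => ?_
    have h1 := h S hSc (hSl.trans (mul_le_mul_of_nonneg_right hc0 hHl))
    by_contra h2
    exact h1 ⟨x, hxP, hxB, hxD, not_lt.1 h2⟩
  · rintro T c - ⟨x, hxP, hxB, hxD, hxm⟩
    have hx0 : x ≠ 0 := by
      rintro rfl
      apply hxD
      have h0 : Dv f g B c ((0 : K) • (0 : Fin q → K)) = 0 ^ dg e d B * Dv f g B c 0 := Dv_smul hf hg B c 0 0
      rw [smul_zero, ← hnn, zero_pow hn0, zero_mul] at h0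
      exact h0
    obtain ⟨l, hl, hls⟩ := hsc (Fin q) x hx0
    have hx0' : l • x ≠ 0 := smul_ne_zero hl hx0
    have hDl : Dv f g B c (l • x) = l ^ n * Dv f g B c x := by
      rw [hnn]
      exact Dv_smul hf hg B c l x
    have hDx : Dv f g B c (l • x) ≠ 0 := by
      rw [hDl]
      exact mul_ne_zero (pow_ne_zero _ hl) hxD
    have hsup : ∀ v : FinitePlace K, v ∉ S2 ∪ T → (⨆ w, v ((l • x) w)) = 1 := fun v hv => by
      have h1 := hls v fun h => hv (mem_union_left _ h)
      simpa using h1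
    have hB' : (n : ℝ) * Height.logHeight (l • x) ≤
        (Module.finrank ℚ K : ℝ) * mS T n (Dv f g B c (l • x)) (l • x) + c1 * Real.log H := by
      rw [hDl, mS_smul T n hl hxD hx0, Height.logHeight_smul_eq_logHeight _ hl]
      have h5 := mul_le_mul_of_nonneg_left hxm hn.le
      have h6 : (Module.finrank ℚ K : ℝ) * (n * (Height.logHeight x / Module.finrank ℚ K) -
          c1 / Module.finrank ℚ K * Real.log H) = n * Height.logHeight x - c1 * Real.log H := by
        field_simp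
      rw [h6] at h5
      linarith
    have hnn' : ∀ v : FinitePlace K, 0 ≤ lam v.1 n (Dv f g B c (l • x)) (l • x) := fun v =>
      lam_nonneg v n hDx (l • x) (by rw [hnn]; exact Dv_le hf hg B c v (l • x))
    have hfac : ∀ z : K, ((∃ t, z = MvPolynomial.aeval (l • x) (f t)) ∨ ∃ i ∈ B, z = Fv g c i (l • x)) →
        z ≠ 0 ∧ (∀ v : FinitePlace K, v ∉ S2 ∪ T → v z ≤ 1) ∧
          (∑ᶠ v : FinitePlace K, if v ∈ S2 ∪ T then 0 else - Real.log (v z)) ≤ c1 * Real.log H := by
      intro z hz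
      have h1 : ∀ v : FinitePlace K, v ∉ S2 ∪ T → v z ≤ 1 ∧ - Real.log (v z) ≤ lam v.1 n (Dv f g B c (l • x)) (l • x) := by
        intro v hv
        rw [hnn]
        exact factor_le hf hg B c v hDx (hsup v hv) hz
      refine ⟨?_, fun v hv => (h1 v hv).1, sum_le subset_union_right n hDx hx0' hnn' hB' z h1⟩
      intro hz0
      apply hDx
      unfold Dv
      rcases hz with ⟨t, rfl⟩ | ⟨i, hi, rfl⟩
      · rw [prod_eq_zero (mem_univ t) hz0, zero_mul]
      · rw [prod_eq_zero hi hz0, mul_zero]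
    obtain ⟨yy, hy1, hy2⟩ : ∃ yy : Fin (j + s) → K, (∀ t, yy (Fin.castAdd s t) = MvPolynomial.aeval (l • x) (f t)) ∧
        ∀ i, yy (Fin.natAdd j i) = if i ∈ B then Fv g c i (l • x) else 1 :=
      ⟨Fin.append (fun t => MvPolynomial.aeval (l • x) (f t)) (fun i => if i ∈ B then Fv g c i (l • x) else 1),
        fun t => Fin.append_left _ _ t, fun i => Fin.append_right _ _ i⟩
    refine ⟨yy, fun w => ?_, ?_⟩
    · induction w using Fin.addCases with
      | left t =>
        rw [hy1]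
        exact hfac _ (Or.inl ⟨t, rfl⟩)
      | right i =>
        rw [hy2]
        by_cases hi : i ∈ B
        · rw [if_pos hi]
          exact hfac _ (Or.inr ⟨i, hi, rfl⟩)
        · rw [if_neg hi]
          refine ⟨one_ne_zero, fun v _ => by rw [map_one], ?_⟩
          have h1 : (∑ᶠ v : FinitePlace K, if v ∈ S2 ∪ T then 0 else - Real.log (v (1 : K))) = 0 := by
            refine finsum_eq_zero_of_forall_eq_zero fun v => ?_
            rw [map_one, Real.log_one, neg_zero, ite_self]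
          rw [h1]
          positivity
    · intro p hp hpp π ⟨v, hv, hvp, hvV⟩ hu
      have hxV : ∀ w, (l • x) w ∈ π.V := fun w => hvV _ (by
        rw [← hsup v hv]
        exact le_ciSup (f := fun w => v ((l • x) w)) (Set.finite_range _).bddAbove w)
      have hfV : ∀ t, MvPolynomial.aeval (l • x) (f t) ∈ π.V := fun t => by
        rw [← hy1]
        exact (hu _).1
      have hFz : ∀ i, i ∉ B → Fv g c i (l • x) = 0 := fun i hi => by
        rw [Fv_smul hg, hxB i hi, mul_zero]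
      have hFV : ∀ i, Fv g c i (l • x) ∈ π.V := fun i => by
        by_cases hi : i ∈ B
        · have h1 := (hu (Fin.natAdd j i)).1
          rwa [hy2, if_pos hi] at h1
        · rw [hFz i hi]
          exact π.V.zero_mem
      have hGx : ∀ h ∈ G, MvPolynomial.aeval (l • x) h = 0 := by
        intro h hh
        obtain ⟨n', hn'⟩ := hGh h hh
        rw [LVY.aeval_smul hn']
        have h9 := hxP _ (hGP h hh)
        rw [MvPolynomial.eval_map] at h9
        rw [MvPolynomial.aeval_def, h9, mul_zero]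
      have h1 := local_Fn π G f g (l • x) hxV hGx hfV c hFV
      refine ⟨hp, ?_⟩
      have h2 : (fun t => res π (yy (Fin.castAdd s t))) = fun t => res π (MvPolynomial.aeval (l • x) (f t)) := by
        funext t
        rw [hy1]
      have h3 : (fun i => if i ∈ B then res π (yy (Fin.natAdd j i)) else 0) = fun i => res π (Fv g c i (l • x)) := by
        funext i
        by_cases hi : i ∈ B
        · rw [if_pos hi, hy2, if_pos hi]
        · rw [if_neg hi, hFz i hi]
          have h4 : (0 : K) ∈ π.V := π.V.zero_mem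
          exact ((rd_res h4).unique LVH.Rd.zero).symm
      show _ ∈ Fn (Zs G f (ro π) (fun t => res π (yy (Fin.castAdd s t)))) (vl g (ro π))
        (fun i => if i ∈ B then res π (yy (Fin.natAdd j i)) else 0)
      rw [h2, h3]
      exact h1

end LVZ
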