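import Pool.Agent.Lib.MP_17a322_ntLZ.PDefs
import Pool.Agent.Lib.MP_17a322_ntLY.A3
import Pool.Agent.Lib.MP_17a322_ntLY.A4

/-!
# LEAF A6: the number of points of the slices, any finite field

PROOF.  As `LVY.slice` (file `MP_17a322_ntLY/A5.lean`), with a finite field `k` in which the integer `M` of `slice_eq` is not `0`.  (`LVZ.Hm`, `LVZ.GP` and `LVY.Hm`, `LVY.GP` are the same by definition.)
-/

namespace LVZ

open NumberField

private theorem A6_sum {F ι : Type} [Field F] [Fintype ι] {q N : ℕ} (hN : 1 ≤ N)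
    (g : ι → MvPolynomial (Fin q) F) (hg : ∀ i, (g i).totalDegree < N) : (∑ i, g i).totalDegree < N := by
  refine lt_of_le_of_lt (MvPolynomial.totalDegree_finsetSum _ _) ?_
  rw [Finset.sup_lt_iff (by rw [bot_eq_zero]; exact hN)]
  exact fun i _ => hg i

private theorem A6_map {R F : Type} [CommRing R] [Field F] {q N : ℕ} (φ : R →+* F) (c : F)
    (g : MvPolynomial (Fin q) R) (hg : g.totalDegree < N) :
    (MvPolynomial.C c * MvPolynomial.map φ g).totalDegree < N := by
  refine lt_of_le_of_lt (MvPolynomial.totalDegree_mul _ _) ?_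
  rw [MvPolynomial.totalDegree_C, zero_add]
  exact lt_of_le_of_lt (Finset.sup_mono (MvPolynomial.support_map_subset _ _)) hg

theorem slice (K : Type) [Field K] [NumberField K] {q j r : ℕ} (P : Ideal (MvPolynomial (Fin q) K)) (hP : Hm P)
    (e : Fin j → ℕ) (he : ∀ l, 1 ≤ e l) (f : Fin j → MvPolynomial (Fin q) (𝓞 K)) (hf : ∀ l, (f l).IsHomogeneous (e l))
    (h : GP P f r) : ∃ G : Finset (MvPolynomial (Fin q) (𝓞 K)), (∀ g ∈ G, ∃ n, g.IsHomogeneous n) ∧
      (∀ g ∈ G, MvPolynomial.map (algebraMap (𝓞 K) K) g ∈ P) ∧ ∃ C M : ℕ, M ≠ 0 ∧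
        ∀ (k : Type) [Field k] [Finite k] (φ : 𝓞 K →+* k), (M : k) ≠ 0 → ∀ u : Fin j → k,
          Nat.card (Zs G f φ u) ≤ C * Nat.card k ^ r := by
  classical
  obtain ⟨N, M, ell, g, hh, kk, hN, hM, hg, hgP, hhd, hkd, heq⟩ := LVY.slice_eq K P hP e he f hf h
  refine ⟨Finset.univ.image g, ?_, ?_, N ^ q, M, hM, ?_⟩
  · intro g' hg'
    rw [Finset.mem_image] at hg'
    obtain ⟨b, _, rfl⟩ := hg'
    exact ⟨N, hg b⟩
  · intro g' hg'
    rw [Finset.mem_image] at hg'
    obtain ⟨b, _, rfl⟩ := hg'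
    exact hgP b
  · intro k _ _ φ hMp u
    have : Fintype k := Fintype.ofFinite k
    set Z : Set (Fin q → k) := Zs (Finset.univ.image g) f φ u with hZ
    have hfin : Z.Finite := Set.toFinite Z
    rw [Nat.card_eq_card_finite_toFinset hfin]
    let tt : (Fin q → k) → (Fin r → k) := fun x i => MvPolynomial.eval₂ φ x (ell i)
    have h1 : ∀ t ∈ hfin.toFinset.image tt, (hfin.toFinset.filter fun x => tt x = t).card ≤ N ^ q := by
      intro t _
      refine LVY.bez (F := k) (N := N) (fun b => MvPolynomial.C ((M : ℕ) : k)⁻¹ *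
        (∑ l, MvPolynomial.C (u l) * MvPolynomial.map φ (hh b l) +
          ∑ i, MvPolynomial.C (t i) * MvPolynomial.map φ (kk b i))) ?_ _ ?_
      · intro b
        refine lt_of_le_of_lt (MvPolynomial.totalDegree_mul _ _) ?_
        rw [MvPolynomial.totalDegree_C, zero_add]
        refine lt_of_le_of_lt (MvPolynomial.totalDegree_add _ _) ?_
        exact max_lt (A6_sum hN _ fun l => A6_map φ _ _ (hhd b l)) (A6_sum hN _ fun i => A6_map φ _ _ (hkd b i))
      · intro x hx b
        rw [Finset.mem_filter, Set.Finite.mem_toFinset] at hx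
        obtain ⟨⟨hx1, hx2⟩, hx3⟩ := hx
        have h2 := congrArg (MvPolynomial.eval₂ φ x) (heq b)
        rw [MvPolynomial.eval₂_mul, MvPolynomial.eval₂_C, MvPolynomial.eval₂_pow, MvPolynomial.eval₂_X,
          MvPolynomial.eval₂_add, MvPolynomial.eval₂_add, hx1 (g b) (Finset.mem_image_of_mem g (Finset.mem_univ b)),
          zero_add, MvPolynomial.eval₂_sum, MvPolynomial.eval₂_sum, map_natCast] at h2
        have h3 : ∀ l, MvPolynomial.eval₂ φ x (hh b l * f l) = u l * MvPolynomial.eval₂ φ x (hh b l) := by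
          intro l
          rw [MvPolynomial.eval₂_mul, hx2 l, mul_comm]
        have h4 : ∀ i, MvPolynomial.eval₂ φ x (kk b i * ell i) = t i * MvPolynomial.eval₂ φ x (kk b i) := by
          intro i
          rw [MvPolynomial.eval₂_mul, ← hx3, mul_comm]
        rw [Finset.sum_congr rfl fun l _ => h3 l, Finset.sum_congr rfl fun i _ => h4 i] at h2
        rw [map_mul, map_add, map_sum, map_sum, MvPolynomial.eval_C, eq_inv_mul_iff_mul_eq₀ hMp, h2]
        simp only [map_mul, MvPolynomial.eval_C, MvPolynomial.eval_map]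
    refine (Finset.card_le_mul_card_image _ _ h1).trans ?_
    apply Nat.mul_le_mul_left
    refine (Finset.card_le_univ _).trans ?_
    rw [Fintype.card_fun, Fintype.card_fin, Nat.card_eq_fintype_card]

end LVZ
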