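import Pool.Agent.Lib.MP_17a322_ntLH.T9A
import Pool.Agent.Lib.MP_17a322_ntLH.T4
import Pool.Agent.Lib.MP_17a322_ntLH.T6

/-! The number of integral vectors in one class, for abstract local conditions. -/

namespace LVZ

open Finset NumberField
open LVH (Pl Rd res rd_res res_ne exists_pl D1 tsieve)

/-- the generators and the multipliers are good at the places over the primes not dividing `M` -/
def Gd {K : Type} [Field K] (M : ℕ) {m r : ℕ} (g : Fin r → K) (a : Fin m → K) : Prop :=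
  (∀ t, g t ≠ 0) ∧ (∀ w, a w ≠ 0) ∧ ∀ p : ℕ, p.Prime → ¬ p ∣ M → ∀ π : Pl K p,
    (∀ t, g t ∈ π.V ∧ (g t)⁻¹ ∈ π.V) ∧ ∀ w, a w ∈ π.V ∧ (a w)⁻¹ ∈ π.V

/-- the local conditions of an element of the class of `a` -/
def Ptc {K : Type} [Field K] {m r N : ℕ} (M p0 : ℕ) (R : (p : ℕ) → Pl K p → (Fin m → ZMod p) → Set (Fin N → ZMod p))
    (g : Fin r → K) (a : Fin m → K) (c : Fin N → ℤ) : Prop :=
  ∃ n : Fin m → Fin r → ℤ, ∀ (p : ℕ) [Fact p.Prime], p0 ≤ p → ¬ p ∣ M → ∀ π : Pl K p,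
    (fun k => ((c k : ℤ) : ZMod p)) ∈ R p π (fun w => res π (a w * ∏ t, g t ^ n w t))

private theorem cls (L r m : ℕ) : ∃ E : Fin (L ^ (r * m)) → Fin m → Fin r → Fin L,
    ∀ f : Fin m → Fin r → Fin L, ∃ i, E i = f := by
  have h : Fintype.card (Fin m → Fin r → Fin L) = L ^ (r * m) := by
    rw [Fintype.card_fun, Fintype.card_fun, Fintype.card_fin, Fintype.card_fin, Fintype.card_fin, ← pow_mul]
  have e : Fin (L ^ (r * m)) ≃ (Fin m → Fin r → Fin L) := by
    rw [← h]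
    exact (Fintype.equivFin _).symm
  exact ⟨e, fun f => ⟨e.symm f, e.apply_symm_apply f⟩⟩

theorem one_class (K : Type) [Field K] [NumberField K] : ∃ δ η : ℝ, 0 < δ ∧ 0 < η ∧ ∀ (m N : ℕ) (κ : ℝ), 0 < κ → κ ≤ 1 →
    ∀ (p0 : ℕ) (R : (p : ℕ) → Pl K p → (Fin m → ZMod p) → Set (Fin N → ZMod p)),
    (∀ (p : ℕ) [Fact p.Prime], p0 ≤ p → ∀ (π : Pl K p) (y : Fin m → ZMod p), (∀ w, y w ≠ 0) →
      (Nat.card (R p π y) : ℝ) ≤ (1 - κ) * (p : ℝ) ^ N) →
    ∃ H0 : ℕ, ∀ r M H : ℕ, H0 ≤ H → M ≠ 0 →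
      ((r * m : ℕ) : ℝ) ≤ (Real.log H) ^ η → Real.log M ≤ (Real.log H) ^ (1 + η) →
      ∀ (g : Fin r → K) (a : Fin m → K), Gd M g a →
        (Nat.card {c : Fin N → ℤ // (∀ t, |c t| ≤ (H : ℤ)) ∧ Ptc M p0 R g a c} : ℝ) ≤ (H : ℝ) ^ ((N : ℝ) - δ) := by
  classical
  obtain ⟨δ, η, hδ, hη, hsv⟩ := tsieve K
  refine ⟨δ, η, hδ, hη, fun m N κ hκ hκ1 p0 R hR0 => ?_⟩
  obtain ⟨H0, hH0⟩ := hsv N κ hκ hκ1 p0
  refine ⟨H0, fun r M H hH hM hr hlM g a hG => ?_⟩
  obtain ⟨hg0, ha0, hG⟩ := hG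
  choose E hE using fun L : ℕ => cls L r m
  -- the values modulo `p` of the class `i`
  let val : (L : ℕ) → Fin (L ^ (r * m)) → (p : ℕ) → Pl K p → Fin m → ZMod p := fun L i p π w =>
    res π (a w) * ∏ t, res π (g t) ^ (E L i w t : ℕ)
  let R' : (L : ℕ) → Fin (L ^ (r * m)) → (p : ℕ) → Set (Fin N → ZMod p) := fun L i p =>
    if h : p.Prime ∧ D1 K p then
      R p (Classical.choice (exists_pl K h.1 h.2)) (val L i p (Classical.choice (exists_pl K h.1 h.2)))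
    else ∅
  refine hH0 (r * m) M H hH hM hr hlM _ (Fintype.card_fin N) (Ptc M p0 R g a) R' ?_ ?_
  · intro L _ i p hp hpp hpM hD _
    have : Fact p.Prime := ⟨hp⟩
    have hR : R' L i p = R p (Classical.choice (exists_pl K hp hD))
        (val L i p (Classical.choice (exists_pl K hp hD))) := dif_pos ⟨hp, hD⟩
    rw [hR]
    obtain ⟨h3, h4⟩ := hG p hp hpM (Classical.choice (exists_pl K hp hD))
    refine hR0 p hpp _ _ fun w => ?_
    refine mul_ne_zero (res_ne (ha0 w) (h4 w).1 (h4 w).2) (prod_ne_zero_iff.2 fun t _ => pow_ne_zero _ ?_)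
    exact res_ne (hg0 t) (h3 t).1 (h3 t).2
  · rintro L hL c ⟨n', hc⟩
    have hL' : (0 : ℤ) < L := by exact_mod_cast hL
    obtain ⟨i, hi⟩ := hE L fun w t => ⟨(n' w t % (L : ℤ)).toNat, by
      have h1 := Int.emod_lt_of_pos (n' w t) hL'
      have h2 := Int.emod_nonneg (n' w t) hL'.ne'
      omega⟩
    refine ⟨i, fun p hp hpp hpM hD hpL => ?_⟩
    have : Fact p.Prime := ⟨hp⟩
    have hR : R' L i p = R p (Classical.choice (exists_pl K hp hD))
        (val L i p (Classical.choice (exists_pl K hp hD))) := dif_pos ⟨hp, hD⟩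
    rw [hR]
    obtain ⟨h3, h4⟩ := hG p hp hpM (Classical.choice (exists_pl K hp hD))
    have hv : ∀ w, Rd (Classical.choice (exists_pl K hp hD)) (a w * ∏ t, g t ^ n' w t)
        (val L i p (Classical.choice (exists_pl K hp hD)) w) := by
      intro w
      refine (rd_res (h4 w).1).mul ?_
      have h5 := Rd.prod_zpow (π := Classical.choice (exists_pl K hp hD)) hg0 h3 hpL hL (n' w)
      have h6 : ∀ t, ((E L i w t : Fin L) : ℕ) = (n' w t % (L : ℤ)).toNat := fun t => by rw [hi]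
      simp only [h6]
      exact h5
    have h7 : (fun w => res (Classical.choice (exists_pl K hp hD)) (a w * ∏ t, g t ^ n' w t)) =
        val L i p (Classical.choice (exists_pl K hp hD)) := by
      funext w
      obtain ⟨h8, h9⟩ := hv w
      exact (rd_res h8).unique ⟨h8, h9⟩
    have h10 := hc p hpp hpM (Classical.choice (exists_pl K hp hD))
    rw [h7] at h10
    exact h10

end LVZ
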