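import Pool.Agent.Lib.MP_17a322_ntLZ.PDefs

/-!
# LEAF H1: the base locus

PROOF.  For every `b` the polynomial `X b * ∏ l, f l` vanishes at all common zeros over the algebraic closure of `P` and of the `Dl J` (if it did not vanish at `x`, then `x ≠ 0` and all `f l` are not `0` at `x`, so some `Dl J` is not `0` at `x` by `h`), so a power of it is in `P ⊔ span (the images of the Dl J)` by the Nullstellensatz (`MvPolynomial.vanishingIdeal_zeroLocus_eq_radical`, as in `LVY.null`, file `MP_17a322_ntLY/A1.lean`); take the maximum `N` of the exponents.  So over `K`, `(X b * ∏ l, f l) ^ N = w b + ∑ J, hh b J * Dl J` with `w b ∈ P`; multiply by a nonzero integer `M` such that `M w b` and the `M hh b J` have integral coefficients (clearing of denominators as in `LVY.slice_eq`, file `MP_17a322_ntLY/A3.lean`), and descend to `𝓞 K` by the injectivity of `MvPolynomial.map (algebraMap (𝓞 K) K)`.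
-/

namespace LVZ

open NumberField

private theorem H1_clear {K σ : Type} [Field K] [NumberField K] (p : MvPolynomial σ K) :
    ∃ m : ℕ, m ≠ 0 ∧ ∃ p' : MvPolynomial σ (𝓞 K),
      MvPolynomial.map (algebraMap (𝓞 K) K) p' = MvPolynomial.C (m : K) * p := by
  classical
  obtain ⟨y, hy, hint⟩ := exists_integral_multiples ℤ ℚ (L := K)
    (p.support.image fun t => MvPolynomial.coeff t p)
  refine ⟨y.natAbs, Int.natAbs_ne_zero.2 hy, ?_⟩
  have hz : ∀ t, ∃ z : 𝓞 K, algebraMap (𝓞 K) K z = (y.natAbs : K) * MvPolynomial.coeff t p := by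
    intro t
    by_cases ht : t ∈ p.support
    · have h1 := hint (MvPolynomial.coeff t p) (Finset.mem_image_of_mem _ ht)
      rcases Int.natAbs_eq y with h | h
      · refine ⟨⟨_, h1⟩, ?_⟩
        change y • MvPolynomial.coeff t p = _
        rw [zsmul_eq_mul]
        conv_lhs => rw [h]
        rw [Int.cast_natCast]
      · refine ⟨⟨_, h1.neg⟩, ?_⟩
        change -(y • MvPolynomial.coeff t p) = _
        rw [zsmul_eq_mul]
        conv_lhs => rw [h]
        rw [Int.cast_neg, Int.cast_natCast, neg_mul, neg_neg]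
    · refine ⟨0, ?_⟩
      rw [MvPolynomial.notMem_support_iff.1 ht, mul_zero, map_zero]
  choose z hz using hz
  refine ⟨∑ t ∈ p.support, MvPolynomial.monomial t (z t), ?_⟩
  rw [map_sum]
  conv_rhs => rw [p.as_sum, Finset.mul_sum]
  refine Finset.sum_congr rfl fun t _ => ?_
  rw [MvPolynomial.map_monomial, hz, MvPolynomial.C_mul_monomial]

private theorem H1_clear_fin {K σ ι : Type} [Field K] [NumberField K] [Fintype ι]
    (p : ι → MvPolynomial σ K) :
    ∃ m : ℕ, m ≠ 0 ∧ ∀ M : ℕ, m ∣ M → ∀ i, ∃ p' : MvPolynomial σ (𝓞 K),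
      MvPolynomial.map (algebraMap (𝓞 K) K) p' = MvPolynomial.C (M : K) * p i := by
  choose m hm p' hp' using fun i => H1_clear (p i)
  refine ⟨∏ i, m i, Finset.prod_ne_zero_iff.2 fun i _ => hm i, fun M hM i => ?_⟩
  obtain ⟨c, hc⟩ := (Finset.dvd_prod_of_mem m (Finset.mem_univ i)).trans hM
  refine ⟨MvPolynomial.C (c : 𝓞 K) * p' i, ?_⟩
  rw [map_mul, hp', MvPolynomial.map_C, map_natCast, hc, Nat.cast_mul, map_mul]
  ring

theorem bp_eq (K : Type) [Field K] [NumberField K] {q j : ℕ} (P : Ideal (MvPolynomial (Fin q) K))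
    (f : Fin j → MvPolynomial (Fin q) (𝓞 K)) {ι : Type} [Fintype ι] (Dl : ι → MvPolynomial (Fin q) (𝓞 K))
    (h : ∀ x : Fin q → AlgebraicClosure K, x ≠ 0 → (∀ g ∈ P, MvPolynomial.aeval x g = 0) →
      (∀ l, MvPolynomial.aeval x (MvPolynomial.map (algebraMap (𝓞 K) K) (f l)) ≠ 0) →
        ∃ J, MvPolynomial.aeval x (MvPolynomial.map (algebraMap (𝓞 K) K) (Dl J)) ≠ 0) :
    ∃ (N M : ℕ) (w : Fin q → MvPolynomial (Fin q) (𝓞 K)) (hh : Fin q → ι → MvPolynomial (Fin q) (𝓞 K)), M ≠ 0 ∧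
      (∀ b, MvPolynomial.map (algebraMap (𝓞 K) K) (w b) ∈ P) ∧
        ∀ b, MvPolynomial.C (M : 𝓞 K) * (MvPolynomial.X b * ∏ l, f l) ^ N = w b + ∑ J, hh b J * Dl J := by
  classical
  obtain ⟨F, hF⟩ : ∃ F : Fin q → MvPolynomial (Fin q) K, F = fun b =>
      MvPolynomial.X b * ∏ l, MvPolynomial.map (algebraMap (𝓞 K) K) (f l) := ⟨_, rfl⟩
  obtain ⟨D', hD'⟩ : ∃ D' : ι → MvPolynomial (Fin q) K, D' = fun J =>
      MvPolynomial.map (algebraMap (𝓞 K) K) (Dl J) := ⟨_, rfl⟩
  -- the Nullstellensatz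
  have key : ∀ b : Fin q, ∃ n : ℕ, F b ^ n ∈ P ⊔ Ideal.span (Set.range D') := by
    intro b
    have hr : F b ∈ (P ⊔ Ideal.span (Set.range D')).radical := by
      rw [← MvPolynomial.vanishingIdeal_zeroLocus_eq_radical (K := AlgebraicClosure K),
        MvPolynomial.mem_vanishingIdeal_iff]
      intro x hx
      rw [MvPolynomial.mem_zeroLocus_iff] at hx
      rw [hF]
      simp only [map_mul, map_prod, MvPolynomial.aeval_X]
      by_cases hx0 : x = 0
      · rw [hx0, Pi.zero_apply, zero_mul]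
      by_cases hl : ∀ l, MvPolynomial.aeval x (MvPolynomial.map (algebraMap (𝓞 K) K) (f l)) ≠ 0
      · obtain ⟨J, hJ⟩ := h x hx0 (fun g hg => hx g (Ideal.mem_sup_left hg)) hl
        refine absurd (hx _ (Ideal.mem_sup_right (Ideal.subset_span ⟨J, rfl⟩))) ?_
        rw [hD']
        exact hJ
      · obtain ⟨l, hl⟩ := not_forall.1 hl
        rw [Finset.prod_eq_zero (Finset.mem_univ l) (not_not.1 hl), mul_zero]
    exact Ideal.mem_radical_iff.1 hr
  choose n hn using key
  have hN : ∀ b, F b ^ (∑ c, n c) ∈ P ⊔ Ideal.span (Set.range D') := by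
    intro b
    obtain ⟨m, hm⟩ := Nat.exists_eq_add_of_le
      (Finset.single_le_sum (f := n) (fun _ _ => Nat.zero_le _) (Finset.mem_univ b))
    rw [hm, pow_add]
    exact Ideal.mul_mem_right _ _ (hn b)
  have hdec : ∀ b, ∃ w ∈ P, ∃ hh : ι → MvPolynomial (Fin q) K, F b ^ (∑ c, n c) = w + ∑ J, hh J * D' J := by
    intro b
    obtain ⟨w, hw, z, hz, hwz⟩ := Submodule.mem_sup.1 (hN b)
    obtain ⟨hh, hhh⟩ := Ideal.mem_span_range_iff_exists_fun.1 hz
    exact ⟨w, hw, hh, by rw [hhh, hwz]⟩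
  choose w0 hw0 h0 heq using hdec
  obtain ⟨m1, hm1, c1⟩ := H1_clear_fin w0
  obtain ⟨m2, hm2, c2⟩ := H1_clear_fin (fun t : Fin q × ι => h0 t.1 t.2)
  choose w1 hw1 using c1 (m1 * m2) (Nat.dvd_mul_right _ _)
  choose h1 hh1 using c2 (m1 * m2) (Nat.dvd_mul_left _ _)
  refine ⟨∑ c, n c, m1 * m2, w1, fun b J => h1 (b, J), mul_ne_zero hm1 hm2, fun b => ?_, fun b => ?_⟩
  · rw [hw1]
    exact P.mul_mem_left _ (hw0 b)
  · apply MvPolynomial.map_injective (σ := Fin q) (algebraMap (𝓞 K) K) (FaithfulSMul.algebraMap_injective (𝓞 K) K)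
    have e1 : MvPolynomial.map (algebraMap (𝓞 K) K) (MvPolynomial.X b * ∏ l, f l) = F b := by
      rw [hF, map_mul, MvPolynomial.map_X, map_prod]
    have e2 : ∀ J, MvPolynomial.map (algebraMap (𝓞 K) K) (h1 (b, J) * Dl J) =
        MvPolynomial.C ((m1 * m2 : ℕ) : K) * (h0 b J * D' J) := by
      intro J
      rw [map_mul, hh1, hD', mul_assoc]
    rw [map_mul, map_pow, e1, map_add, map_sum, Finset.sum_congr rfl fun J _ => e2 J, ← Finset.mul_sum, hw1,
      MvPolynomial.map_C, map_natCast, heq b, mul_add]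

end LVZ
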