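import Pool.Agent.Lib.MP_17a322_ntLZ.H1

/-!
# LEAF H2: the base locus modulo primes

PROOF.  `G` is the set of all homogeneous components of the polynomials `w b` of `bp_eq` (they are in `P` after mapping to `K`, as `P` is homogeneous, and a common zero of `G` is a zero of the `w b`, as in the leaf `S1`, file `MP_17a322_ntLY/S1.lean`), `p1 = M + 1`.  If `x ∈ Zs G f φ u` and all `Dl J` vanish at `x` modulo `p`, then `M * (x b * ∏ l, u l) ^ N = 0`, so `x b = 0` for all `b`.
-/

namespace LVZ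

open NumberField

private theorem H2_map_hc {σ R S : Type} [CommRing R] [CommRing S] (f : R →+* S) (n : ℕ) (g : MvPolynomial σ R) :
    MvPolynomial.map f (MvPolynomial.homogeneousComponent n g) =
      MvPolynomial.homogeneousComponent n (MvPolynomial.map f g) := by
  ext d
  rw [MvPolynomial.coeff_map, MvPolynomial.coeff_homogeneousComponent, MvPolynomial.coeff_homogeneousComponent,
    MvPolynomial.coeff_map]
  split_ifs <;> simp

theorem bp_mod (K : Type) [Field K] [NumberField K] {q j : ℕ} (P : Ideal (MvPolynomial (Fin q) K)) (hP : Hm P)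
    (f : Fin j → MvPolynomial (Fin q) (𝓞 K)) {ι : Type} [Fintype ι] (Dl : ι → MvPolynomial (Fin q) (𝓞 K))
    (h : ∀ x : Fin q → AlgebraicClosure K, x ≠ 0 → (∀ g ∈ P, MvPolynomial.aeval x g = 0) →
      (∀ l, MvPolynomial.aeval x (MvPolynomial.map (algebraMap (𝓞 K) K) (f l)) ≠ 0) →
        ∃ J, MvPolynomial.aeval x (MvPolynomial.map (algebraMap (𝓞 K) K) (Dl J)) ≠ 0) :
    ∃ G : Finset (MvPolynomial (Fin q) (𝓞 K)), (∀ g ∈ G, ∃ n, g.IsHomogeneous n) ∧
      (∀ g ∈ G, MvPolynomial.map (algebraMap (𝓞 K) K) g ∈ P) ∧ ∃ p1 : ℕ, ∀ (p : ℕ) [Fact p.Prime], p1 ≤ p →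
        ∀ (φ : 𝓞 K →+* ZMod p) (u : Fin j → ZMod p), (∀ l, u l ≠ 0) → ∀ x ∈ Zs G f φ u, x ≠ 0 →
          ∃ J, MvPolynomial.eval₂ φ x (Dl J) ≠ 0 := by
  classical
  obtain ⟨N, M, w, hh, hM, hw, heq⟩ := bp_eq K P f Dl h
  refine ⟨Finset.univ.biUnion fun b : Fin q => (Finset.range ((w b).totalDegree + 1)).image fun n =>
    MvPolynomial.homogeneousComponent n (w b), ?_, ?_, M + 1, ?_⟩
  · intro g hg
    obtain ⟨b, _, hg1⟩ := Finset.mem_biUnion.1 hg
    obtain ⟨n, _, rfl⟩ := Finset.mem_image.1 hg1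
    exact ⟨n, MvPolynomial.homogeneousComponent_isHomogeneous n _⟩
  · intro g hg
    obtain ⟨b, _, hg1⟩ := Finset.mem_biUnion.1 hg
    obtain ⟨n, _, rfl⟩ := Finset.mem_image.1 hg1
    rw [H2_map_hc]
    exact hP _ (hw b) n
  · intro p hp hpp φ u hu x hx hx0
    by_contra hcon
    push Not at hcon
    apply hx0
    funext b
    rw [Pi.zero_apply]
    have hwb : MvPolynomial.eval₂ φ x (w b) = 0 := by
      rw [← MvPolynomial.sum_homogeneousComponent (w b), MvPolynomial.eval₂_sum]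
      refine Finset.sum_eq_zero fun n hn => ?_
      exact hx.1 _ (Finset.mem_biUnion.2 ⟨b, Finset.mem_univ b, Finset.mem_image.2 ⟨n, hn, rfl⟩⟩)
    have h1 : (M : ZMod p) * (x b * ∏ l, u l) ^ N = 0 := by
      have h2 := congrArg (MvPolynomial.eval₂Hom φ x) (heq b)
      simp only [map_mul, map_pow, map_prod, map_add, map_sum, MvPolynomial.coe_eval₂Hom,
        MvPolynomial.eval₂_X, hx.2, hwb, hcon, mul_zero, Finset.sum_const_zero,
        add_zero, map_natCast] at h2
      exact h2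
    have hM' : (M : ZMod p) ≠ 0 := by
      intro h3
      have h4 : p ∣ M := (ZMod.natCast_eq_zero_iff M p).1 h3
      have h5 := Nat.le_of_dvd (Nat.pos_of_ne_zero hM) h4
      omega
    by_contra hb
    exact mul_ne_zero hM' (pow_ne_zero N (mul_ne_zero hb (Finset.prod_ne_zero_iff.2 fun l _ => hu l))) h1

end LVZ
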