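import Pool.Agent.Lib.MP_17a322_ntLY.S4

/-!
# LEAF M1: the moment inequalities for a nonzero value

PROOF.  `mom0` is `LVX.mom` (file `MP_17a322_ntLX/Mom.lean`) and `mom1` is `LVY.mom1` (file `MP_17a322_ntLY/S4.lean`), where the hypothesis `∀ i, y i ≠ 0` is used only to get `∃ i, y i ≠ 0`; copy the proofs (the lemmas `mom_fin`, `mom_one`, `mom_two`, `mom_three`, `QQ_le`, `QQ_ge` of `LVX` are public).
-/

namespace LVZ

open LVX (NN QQ TT)

private theorem M1_lin {p : ℕ} [Fact p.Prime] {q : ℕ} {a0 : Fin q → ZMod p} {c : ZMod p} (hc : c ≠ 0)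
    {x x' : Fin q → ZMod p} (hx : ∑ k, a0 k * x k = c) (hx' : ∑ k, a0 k * x' k = c) (hne : x ≠ x') :
    LinearIndependent (ZMod p) ![x, x'] := by
  rw [LinearIndependent.pair_iff]
  intro s t h
  have h1 : ∑ k, a0 k * (s • x + t • x') k = (s + t) * c := by
    have h2 : ∀ k, a0 k * (s • x + t • x') k = s * (a0 k * x k) + t * (a0 k * x' k) := by
      intro k
      rw [Pi.add_apply, Pi.smul_apply, Pi.smul_apply, smul_eq_mul, smul_eq_mul]
      ring
    rw [Finset.sum_congr rfl fun k _ => h2 k, Finset.sum_add_distrib, ← Finset.mul_sum, ← Finset.mul_sum, hx, hx']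
    ring
  rw [h] at h1
  have h3 : (s + t) * c = 0 := by
    rw [← h1]
    simp
  have h4 : s + t = 0 := by
    rcases mul_eq_zero.mp h3 with h | h
    · exact h
    · exact absurd h hc
  have h5 : s = -t := eq_neg_of_add_eq_zero_left h4
  have h6 : t • (x' - x) = 0 := by
    rw [h5, neg_smul] at h
    rw [smul_sub, ← h]
    abel
  have h7 : t = 0 := by
    rcases smul_eq_zero.mp h6 with h | h
    · exact h
    · exact absurd (sub_eq_zero.mp h).symm hne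
  exact ⟨by rw [h5, h7, neg_zero], h7⟩

private theorem M1_QQ {p : ℕ} [Fact p.Prime] {q : ℕ} (Z : Set (Fin q → ZMod p)) (a0 : Fin q → ZMod p) (c : ZMod p)
    (hc : c ≠ 0) (hZ : ∀ x ∈ Z, ∑ k, a0 k * x k = c) : Nat.card Z ^ 2 ≤ QQ Z + Nat.card Z := by
  classical
  let In : Type := {t : (Fin q → ZMod p) × (Fin q → ZMod p) //
    t.1 ∈ Z ∧ t.2 ∈ Z ∧ LinearIndependent (ZMod p) ![t.1, t.2]}
  let g : In ⊕ Z → (Fin q → ZMod p) × (Fin q → ZMod p) :=
    Sum.elim (fun t => t.1) (fun t => ((t : Fin q → ZMod p), (t : Fin q → ZMod p)))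
  have h1 : ∀ z : Z × Z, ∃ w, g w = ((z.1 : Fin q → ZMod p), (z.2 : Fin q → ZMod p)) := by
    rintro ⟨x, x'⟩
    by_cases hne : (x : Fin q → ZMod p) = x'
    · refine ⟨Sum.inr x, ?_⟩
      show ((x : Fin q → ZMod p), (x : Fin q → ZMod p)) = ((x : Fin q → ZMod p), (x' : Fin q → ZMod p))
      rw [← hne]
    · exact ⟨Sum.inl ⟨(x, x'), x.2, x'.2, M1_lin hc (hZ _ x.2) (hZ _ x'.2) hne⟩, rfl⟩
  choose f hf using h1
  have hinj : Function.Injective f := by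
    intro z z' h
    have h2 := hf z
    rw [h, hf z'] at h2
    exact Prod.ext (Subtype.ext (congrArg Prod.fst h2)).symm (Subtype.ext (congrArg Prod.snd h2)).symm
  have h3 := Nat.card_le_card_of_injective f hinj
  rw [Nat.card_prod, Nat.card_sum, ← pow_two] at h3
  exact h3

theorem mom0 {p : ℕ} [Fact p.Prime] (hp : 8 ≤ p) {q s : ℕ} (hs : 2 ≤ s) (Z : Set (Fin q → ZMod p)) (C : ℕ)
    (h1 : 8 * (C + 4) * Nat.card Z ≤ (8 * (C + 4) + 1) * p ^ s)
    (h3 : Nat.card {t : ((Fin q → ZMod p) × (Fin q → ZMod p)) × ZMod p //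
      t.1.1 ∈ Z ∧ t.1.2 ∈ Z ∧ t.2 • t.1.1 + (1 - t.2) • t.1.2 ∈ Z} ≤ C * p ^ (2 * s))
    (y : Fin s → ZMod p) (hy : ∃ i, y i ≠ 0) :
    (Nat.card {a : Fin s → Fin q → ZMod p // ∃ x ∈ Z, ∀ i, ∑ k, a i k * x k = y i} : ℝ) ≤
      (1 - 1 / (8 * (C + 4))) * (p : ℝ) ^ (s * q) := by
  have hy' : ∃ i, y i ≠ 0 := hy
  have hcard : (Fintype.card (Fin s → Fin q → ZMod p) : ℝ) = (p : ℝ) ^ (s * q) := by
    rw [Fintype.card_fun, Fintype.card_fun, ZMod.card, Fintype.card_fin, Fintype.card_fin]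
    push_cast
    rw [← pow_mul, mul_comm q s]
  have hp0 : (8 : ℝ) ≤ p := by exact_mod_cast hp
  have key := LVX.mom_fin (Ω := Fin s → Fin q → ZMod p) (fun a => NN Z y a) (p : ℝ) ((p : ℝ) ^ s)
    (Nat.card Z : ℝ) (TT Z : ℝ) (C : ℝ) (Nat.cast_nonneg _) hp0
    (pow_le_pow_right₀ (by linarith) hs) (Nat.cast_nonneg _) (Nat.cast_nonneg _)
    (by exact_mod_cast h1)
    (by
      rw [← pow_mul, mul_comm s 2]
      exact_mod_cast h3)
    (by
      rw [hcard]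
      exact_mod_cast LVX.mom_one Z y hy')
    (by
      rw [hcard, ← pow_mul]
      have h := LVX.mom_two Z y hy'
      have h' := Nat.mul_le_mul_right (p ^ (s * q)) (LVX.QQ_le Z)
      rw [← h] at h'
      exact_mod_cast h')
    (by
      rw [hcard, ← pow_mul]
      have h := LVX.mom_two Z y hy'
      have h' := Nat.mul_le_mul_right (p ^ (s * q)) (LVX.QQ_ge Z)
      rw [add_mul, ← h] at h'
      exact_mod_cast h')
    (by
      rw [hcard, ← pow_mul]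
      exact_mod_cast LVX.mom_three Z y hy')
  rw [hcard] at key
  have he : Nat.card {a : Fin s → Fin q → ZMod p // ∃ x ∈ Z, ∀ i, ∑ k, a i k * x k = y i} =
      Nat.card {a : Fin s → Fin q → ZMod p // NN Z y a ≠ 0} := by
    refine Nat.card_congr (Equiv.subtypeEquivRight fun a => ?_)
    unfold NN
    rw [Nat.card_ne_zero]
    constructor
    · rintro ⟨x, hx, h⟩
      exact ⟨⟨⟨x, hx, h⟩⟩, inferInstance⟩
    · rintro ⟨⟨⟨x, hx, h⟩⟩, _⟩
      exact ⟨x, hx, h⟩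
  rw [he]
  exact key

theorem mom1 {p : ℕ} [Fact p.Prime] (hp : 64 ≤ p) {q s : ℕ} (hs : 1 ≤ s) (Z : Set (Fin q → ZMod p))
    (a0 : Fin q → ZMod p) (c : ZMod p) (hc : c ≠ 0) (hZ : ∀ x ∈ Z, ∑ k, a0 k * x k = c) (C : ℕ)
    (h1 : 8 * (C + 4) * Nat.card Z ≤ (8 * (C + 4) + 1) * p ^ s)
    (h3 : Nat.card {t : ((Fin q → ZMod p) × (Fin q → ZMod p)) × ZMod p //
      t.1.1 ∈ Z ∧ t.1.2 ∈ Z ∧ t.2 • t.1.1 + (1 - t.2) • t.1.2 ∈ Z} ≤ C * p ^ (2 * s))
    (y : Fin s → ZMod p) (hy : ∃ i, y i ≠ 0) :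
    (Nat.card {a : Fin s → Fin q → ZMod p // ∃ x ∈ Z, ∀ i, ∑ k, a i k * x k = y i} : ℝ) ≤
      (1 - 1 / (8 * (C + 4))) * (p : ℝ) ^ (s * q) := by
  have hy' : ∃ i, y i ≠ 0 := hy
  have hcard : (Fintype.card (Fin s → Fin q → ZMod p) : ℝ) = (p : ℝ) ^ (s * q) := by
    rw [Fintype.card_fun, Fintype.card_fun, ZMod.card, Fintype.card_fin, Fintype.card_fin]
    push_cast
    rw [← pow_mul, mul_comm q s]
  have hp0 : (64 : ℝ) ≤ p := by exact_mod_cast hp
  have hP : (8 : ℝ) ^ 2 ≤ (p : ℝ) ^ s := by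
    calc (8 : ℝ) ^ 2 = 64 := by norm_num
      _ ≤ (p : ℝ) := hp0
      _ = (p : ℝ) ^ 1 := (pow_one _).symm
      _ ≤ (p : ℝ) ^ s := pow_le_pow_right₀ (by linarith) hs
  have key := LVX.mom_fin (Ω := Fin s → Fin q → ZMod p) (fun a => NN Z y a) (8 : ℝ) ((p : ℝ) ^ s)
    (Nat.card Z : ℝ) (TT Z : ℝ) (C : ℝ) (Nat.cast_nonneg _) le_rfl
    hP (Nat.cast_nonneg _) (Nat.cast_nonneg _)
    (by exact_mod_cast h1)
    (by
      rw [← pow_mul, mul_comm s 2]
      exact_mod_cast h3)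
    (by
      rw [hcard]
      exact_mod_cast LVX.mom_one Z y hy')
    (by
      rw [hcard, ← pow_mul]
      have h := LVX.mom_two Z y hy'
      have h' := Nat.mul_le_mul_right (p ^ (s * q)) (LVX.QQ_le Z)
      rw [← h] at h'
      exact_mod_cast h')
    (by
      rw [hcard, ← pow_mul]
      have h := LVX.mom_two Z y hy'
      have h0 : Nat.card Z ^ 2 ≤ QQ Z + (8 + 1) * Nat.card Z :=
        (M1_QQ Z a0 c hc hZ).trans (by omega)
      have h' := Nat.mul_le_mul_right (p ^ (s * q)) h0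
      rw [add_mul, ← h] at h'
      exact_mod_cast h')
    (by
      rw [hcard, ← pow_mul]
      exact_mod_cast LVX.mom_three Z y hy')
  rw [hcard] at key
  have he : Nat.card {a : Fin s → Fin q → ZMod p // ∃ x ∈ Z, ∀ i, ∑ k, a i k * x k = y i} =
      Nat.card {a : Fin s → Fin q → ZMod p // NN Z y a ≠ 0} := by
    refine Nat.card_congr (Equiv.subtypeEquivRight fun a => ?_)
    unfold NN
    rw [Nat.card_ne_zero]
    constructor
    · rintro ⟨x, hx, h⟩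
      exact ⟨⟨⟨x, hx, h⟩⟩, inferInstance⟩
    · rintro ⟨⟨⟨x, hx, h⟩⟩, _⟩
      exact ⟨x, hx, h⟩
  rw [he]
  exact key

end LVZ
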