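import Pool.Agent.Lib.MP_17a322_ntLZ.Defs
import Pool.Agent.Lib.MP_17a322_ntLX.PDefs

/-! Interface definitions. -/

namespace LVZ

open NumberField
open LVH (fv Pl)

/-- the common zeros in the field `k` of the elements of `G` at which the forms `f l` have the values `u l` -/
def Zs {K σ k : Type} [Field K] [NumberField K] [Field k] {j : ℕ} (G : Finset (MvPolynomial σ (𝓞 K)))
    (f : Fin j → MvPolynomial σ (𝓞 K)) (φ : 𝓞 K →+* k) (u : Fin j → k) : Set (σ → k) :=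
  {x | (∀ g ∈ G, MvPolynomial.eval₂ φ x g = 0) ∧ ∀ l, MvPolynomial.eval₂ φ x (f l) = u l}

/-- the vectors `a` such that `∑ k, a k * V k` has the value `y` at some point of `Z`; `V k i x` is the value at `x` of
the `i`-th component of the `k`-th vector of forms -/
def Fn {σ : Type} {p s N : ℕ} (Z : Set (σ → ZMod p)) (V : Fin N → Fin s → (σ → ZMod p) → ZMod p)
    (y : Fin s → ZMod p) : Set (Fin N → ZMod p) := {a | ∃ x ∈ Z, ∀ i, ∑ k, a k * V k i x = y i}

/-- the values modulo `p` -/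
def vl {K σ : Type} [Field K] [NumberField K] {p s N : ℕ} (g : Fin N → Fin s → MvPolynomial σ (𝓞 K))
    (φ : 𝓞 K →+* ZMod p) (k : Fin N) (i : Fin s) (x : σ → ZMod p) : ZMod p := MvPolynomial.eval₂ φ x (g k i)

/-- the local density statement -/
def LD {K σ : Type} [Field K] [NumberField K] {j s N : ℕ} (G : Finset (MvPolynomial σ (𝓞 K)))
    (f : Fin j → MvPolynomial σ (𝓞 K)) (g : Fin N → Fin s → MvPolynomial σ (𝓞 K)) (B : Finset (Fin s)) : Prop :=
  ∃ c : ℝ, 0 < c ∧ c < 1 ∧ ∃ p0 : ℕ, ∀ (p : ℕ) [Fact p.Prime], p0 ≤ p → ∀ (φ : 𝓞 K →+* ZMod p) (u : Fin j → ZMod p),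
    (∀ l, u l ≠ 0) → ∀ y : Fin s → ZMod p, (∀ i, y i ≠ 0 ↔ i ∈ B) →
      (Nat.card (Fn (Zs G f φ u) (vl g φ) y) : ℝ) ≤ (1 - c) * (p : ℝ) ^ N

/-- the vectors of `Z` at which the components other than the `i0`-th of `∑ k, a k * V k` have the values `y i` -/
def Zb {σ : Type} {p s N : ℕ} (Z : Set (σ → ZMod p)) (V : Fin N → Fin s → (σ → ZMod p) → ZMod p) (i0 : Fin s)
    (y : Fin s → ZMod p) (a : Fin N → ZMod p) : Set (σ → ZMod p) :=
  {x | x ∈ Z ∧ ∀ i, i ≠ i0 → ∑ k, a k * V k i x = y i}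

end LVZ
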