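import Pool.Agent.Lib.MP_17a322_ntLZ.PDefs
import Pool.Agent.Lib.MP_17a322_ntLZ.M1
import Pool.Agent.Lib.MP_17a322_ntLY.S2
import Pool.Agent.Lib.MP_17a322_ntLY.S5
import Pool.Agent.Lib.MP_17a322_ntLX.NLc

/-!
# LEAF S7: random linear sections of a nonlinear variety and of its affine slices

PROOF.  This is the first part of the proof of `LVY.nl1` (file `MP_17a322_ntLY/S6.lean`), before the translation to `Mo` and `Fv`, with `mom0`, `mom1` of `M1` in place of `LVX.mom`, `LVY.mom1`, so that only `∃ i, y i ≠ 0` is needed.  (`LVZ.Zs` for `k = ZMod p` and `LVY.Zs`, and `LVZ.Hm`, `LVZ.GI` and `LVY.Hm`, `LVY.GI` are the same by definition.)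
-/

namespace LVZ

open NumberField

private theorem S7_smul {σ R S : Type} [CommRing R] [CommRing S] (f : R →+* S) {n : ℕ} {g : MvPolynomial σ R}
    (hg : g.IsHomogeneous n) (x : σ → S) (l : S) :
    MvPolynomial.eval₂ f (l • x) g = l ^ n * MvPolynomial.eval₂ f x g := by
  rw [MvPolynomial.eval₂_eq, MvPolynomial.eval₂_eq, Finset.mul_sum]
  refine Finset.sum_congr rfl fun d hd => ?_
  have h1 : d.degree = n := by
    by_contra h
    exact (MvPolynomial.mem_support_iff.1 hd) (hg.coeff_eq_zero h)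
  have h2 : ∏ i ∈ d.support, (l • x) i ^ d i = l ^ n * ∏ i ∈ d.support, x i ^ d i := by
    rw [← h1, Finsupp.degree_apply, ← Finset.prod_pow_eq_pow_sum, ← Finset.prod_mul_distrib]
    refine Finset.prod_congr rfl fun i _ => ?_
    rw [Pi.smul_apply, smul_eq_mul, mul_pow]
  rw [h2]
  ring

/-- the value of a form of degree one -/
private theorem S7_lin {R S : Type} [CommRing R] [CommRing S] {q : ℕ} (f : R →+* S) {g : MvPolynomial (Fin q) R}
    (hg : g.IsHomogeneous 1) (x : Fin q → S) :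
    MvPolynomial.eval₂ f x g = ∑ k, f (g.coeff (Finsupp.single k 1)) * x k := by
  classical
  rw [MvPolynomial.eval₂_eq]
  have hinj : Function.Injective fun k : Fin q => (Finsupp.single k 1 : Fin q →₀ ℕ) := fun a b h =>
    Finsupp.single_left_injective one_ne_zero h
  have h1 : ∑ k, f (g.coeff (Finsupp.single k 1)) * x k =
      ∑ d ∈ Finset.univ.image fun k : Fin q => (Finsupp.single k 1 : Fin q →₀ ℕ),
        f (g.coeff d) * ∏ i ∈ d.support, x i ^ d i := by
    rw [Finset.sum_image (fun a _ b _ h => hinj h)]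
    refine Finset.sum_congr rfl fun k _ => ?_
    rw [Finsupp.support_single_ne_zero k one_ne_zero, Finset.prod_singleton, Finsupp.single_eq_same, pow_one]
  rw [h1]
  refine Finset.sum_subset ?_ ?_
  · intro d hd
    have h2 : d.degree = 1 := by
      by_contra h
      exact (MvPolynomial.mem_support_iff.1 hd) (hg.coeff_eq_zero h)
    obtain ⟨k, hk⟩ : ∃ k, d k ≠ 0 := by
      by_contra h
      push Not at h
      have : d = 0 := Finsupp.ext h
      rw [this] at h2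
      simp at h2
    refine Finset.mem_image.2 ⟨k, Finset.mem_univ k, ?_⟩
    have h3 : ∑ i, d i = 1 := by
      rw [← h2, Finsupp.degree_eq_sum]
    ext i
    by_cases hi : i = k
    · subst hi
      rw [Finsupp.single_eq_same]
      have : d i ≤ ∑ i, d i := Finset.single_le_sum (fun _ _ => Nat.zero_le _) (Finset.mem_univ i)
      omega
    · rw [Finsupp.single_eq_of_ne hi]
      have h4 : d k + d i ≤ ∑ i, d i := by
        rw [← Finset.add_sum_erase _ _ (Finset.mem_univ k)]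
        exact Nat.add_le_add_left (Finset.single_le_sum (f := fun i => d i) (fun _ _ => Nat.zero_le _)
          (Finset.mem_erase.2 ⟨hi, Finset.mem_univ i⟩)) _
      omega
  · intro d _ hd
    rw [MvPolynomial.notMem_support_iff.1 hd, map_zero, zero_mul]

private theorem S7_arith1 {M N p P : ℕ} (hp : 2 * (M + 1) ≤ p) (h : 2 * M * ((p - 1) * N) ≤ (2 * M + 1) * (P * p)) :
    M * N ≤ (M + 1) * P := by
  obtain ⟨t, rfl⟩ : ∃ t, p = t + 1 := ⟨p - 1, by omega⟩
  have ht : 0 < 2 * t := by omega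
  rw [Nat.add_sub_cancel] at h
  refine Nat.le_of_mul_le_mul_left ?_ ht
  have h2 : (2 * M + 1) * (t + 1) ≤ (M + 1) * (2 * t) := by nlinarith
  calc 2 * t * (M * N) = 2 * M * (t * N) := by ring
    _ ≤ (2 * M + 1) * (P * (t + 1)) := h
    _ = (2 * M + 1) * (t + 1) * P := by ring
    _ ≤ (M + 1) * (2 * t) * P := Nat.mul_le_mul_right _ h2
    _ = 2 * t * ((M + 1) * P) := by ring

private theorem S7_arith2 {C T p P : ℕ} (hp : 3 * (C + 1) ≤ p) (h : (p - 1) * (p - 2) * T ≤ C * (P * p ^ 2)) :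
    T ≤ (C + 1) * P := by
  obtain ⟨t, rfl⟩ : ∃ t, p = t + 3 := ⟨p - 3, by omega⟩
  have e1 : t + 3 - 1 = t + 2 := by omega
  have e2 : t + 3 - 2 = t + 1 := by omega
  rw [e1, e2] at h
  have ht : 0 < (t + 2) * (t + 1) := by positivity
  refine Nat.le_of_mul_le_mul_left ?_ ht
  have h2 : C * (t + 3) ^ 2 ≤ (C + 1) * ((t + 2) * (t + 1)) := by nlinarith
  calc (t + 2) * (t + 1) * T ≤ C * (P * (t + 3) ^ 2) := h
    _ = C * (t + 3) ^ 2 * P := by ring
    _ ≤ (C + 1) * ((t + 2) * (t + 1)) * P := Nat.mul_le_mul_right _ h2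
    _ = (t + 2) * (t + 1) * ((C + 1) * P) := by ring

theorem nl_core (K : Type) [Field K] [NumberField K] {q j r : ℕ} (P : Ideal (MvPolynomial (Fin q) K)) (hP : Hm P)
    (e : Fin j → ℕ) (f : Fin j → MvPolynomial (Fin q) (𝓞 K)) (hf : ∀ l, (f l).IsHomogeneous (e l)) (hj : j ≤ 1)
    (he : ∀ l, e l = 1) (h : GI P (r + j)) (hN : LW.NL P) (hr : 2 ≤ j + r) (hr1 : 1 ≤ r) :
    ∃ G : Finset (MvPolynomial (Fin q) (𝓞 K)), (∀ g ∈ G, ∃ n, g.IsHomogeneous n) ∧
      (∀ g ∈ G, MvPolynomial.map (algebraMap (𝓞 K) K) g ∈ P) ∧ ∃ c : ℝ, 0 < c ∧ c < 1 ∧ ∃ p0 : ℕ,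
        ∀ (p : ℕ) [Fact p.Prime], p0 ≤ p → ∀ (φ : 𝓞 K →+* ZMod p) (u : Fin j → ZMod p), (∀ l, u l ≠ 0) →
          ∀ y : Fin r → ZMod p, (∃ i, y i ≠ 0) →
            (Nat.card {a : Fin r → Fin q → ZMod p // ∃ x ∈ Zs G f φ u, ∀ i, ∑ k, a i k * x k = y i} : ℝ) ≤
              (1 - c) * (p : ℝ) ^ (r * q) := by
  classical
  obtain ⟨h1, h2⟩ := h
  obtain ⟨G1, hG1, hG1', C, p1, hp1⟩ := LVX.nlc K P hP h1 (by omega) h2 hN
  have hj' : j = 0 ∨ j = 1 := by omega
  rcases hj' with rfl | rfl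
  · refine ⟨G1, hG1, hG1', 1 / (8 * ((C : ℝ) + 4)), by positivity, ?_, max p1 64, ?_⟩
    · rw [div_lt_one (by positivity)]
      have : (0 : ℝ) ≤ C := Nat.cast_nonneg _
      linarith
    intro p hp hpp φ u hu y hy
    obtain ⟨c1, c3⟩ := hp1 p (le_trans (le_max_left _ _) hpp) φ
    have h64 : 64 ≤ p := le_trans (le_max_right _ _) hpp
    rw [add_zero] at c1 c3
    have hZ : Zs G1 f φ u = {x : Fin q → ZMod p | ∀ g ∈ G1, MvPolynomial.eval₂ φ x g = 0} := by
      ext x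
      exact ⟨fun hx => hx.1, fun hx => ⟨hx, fun l => l.elim0⟩⟩
    rw [hZ]
    exact mom0 (p := p) (by omega) (by omega)
      {x : Fin q → ZMod p | ∀ g ∈ G1, MvPolynomial.eval₂ φ x g = 0} C c1 c3 y hy
  · obtain ⟨G2, hG2, hG2', p2, hp2⟩ := LVY.lw0 K P hP ⟨h1, h2⟩ (by omega) (2 * (8 * (C + 1 + 4))) (by omega)
    have hG : ∀ g ∈ G1 ∪ G2, ∃ n, g.IsHomogeneous n := by
      intro g hg
      rcases Finset.mem_union.1 hg with h | h
      · exact hG1 g h
      · exact hG2 g h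
    refine ⟨G1 ∪ G2, hG, ?_, 1 / (8 * (((C + 1 : ℕ) : ℝ) + 4)), by positivity, ?_,
      max (max p1 p2) (max 64 (max (2 * (8 * (C + 1 + 4) + 1)) (3 * (C + 1)))), ?_⟩
    · intro g hg
      rcases Finset.mem_union.1 hg with h | h
      · exact hG1' g h
      · exact hG2' g h
    · rw [div_lt_one (by positivity)]
      have : (0 : ℝ) ≤ ((C + 1 : ℕ) : ℝ) := Nat.cast_nonneg _
      linarith
    intro p hp hpp φ u hu y hy
    have hpp1 : p1 ≤ p := (le_max_left _ _).trans ((le_max_left _ _).trans hpp)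
    have hpp2 : p2 ≤ p := (le_max_right _ _).trans ((le_max_left _ _).trans hpp)
    have h64 : 64 ≤ p := (le_max_left _ _).trans ((le_max_right _ _).trans hpp)
    have hpM : 2 * (8 * (C + 1 + 4) + 1) ≤ p :=
      (le_max_left _ _).trans ((le_max_right _ _).trans ((le_max_right _ _).trans hpp))
    have hpC : 3 * (C + 1) ≤ p :=
      (le_max_right _ _).trans ((le_max_right _ _).trans ((le_max_right _ _).trans hpp))
    obtain ⟨_, c3⟩ := hp1 p hpp1 φ
    have c1 := hp2 p hpp2 φ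
    have hf1 : ∀ l, (f l).IsHomogeneous 1 := fun l => by
      have := hf l
      rw [he l] at this
      exact this
    have hsc := LVY.scal K (G1 ∪ G2) hG f hf1 φ u hu
    have hlin : ∀ x : Fin q → ZMod p, MvPolynomial.eval₂ φ x (f 0) =
        ∑ k, φ ((f 0).coeff (Finsupp.single k 1)) * x k := fun x => S7_lin φ (hf1 0) x
    have hmemZ : ∀ x : Fin q → ZMod p, x ∈ Zs (G1 ∪ G2) f φ u ↔
        (∀ g ∈ G1 ∪ G2, MvPolynomial.eval₂ φ x g = 0) ∧
          ∑ k, φ ((f 0).coeff (Finsupp.single k 1)) * x k = u 0 := by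
      intro x
      rw [← hlin x]
      constructor
      · rintro ⟨a, b⟩
        exact ⟨a, b 0⟩
      · rintro ⟨a, b⟩
        refine ⟨a, fun l => ?_⟩
        have hl : l = 0 := Subsingleton.elim _ _
        rw [hl]
        exact b
    -- the number of points
    have hN1 : Nat.card {x : Fin q → ZMod p // ∀ g ∈ G1 ∪ G2, MvPolynomial.eval₂ φ x g = 0} ≤
        Nat.card {x : Fin q → ZMod p // ∀ g ∈ G2, MvPolynomial.eval₂ φ x g = 0} := by
      refine Nat.card_le_card_of_injective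
        (fun x => ⟨x.1, fun g hg => x.2 g (Finset.mem_union_right _ hg)⟩) ?_
      intro a b hab
      exact Subtype.ext (congrArg (fun z => z.1) hab)
    have hA : 8 * (C + 1 + 4) * Nat.card (Zs (G1 ∪ G2) f φ u) ≤ (8 * (C + 1 + 4) + 1) * p ^ r := by
      refine S7_arith1 hpM ?_
      refine (Nat.mul_le_mul_left _ (hsc.trans hN1)).trans (c1.trans_eq ?_)
      rw [pow_succ]
    -- the number of triples
    have hB : Nat.card {t : ((Fin q → ZMod p) × (Fin q → ZMod p)) × ZMod p //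
        t.1.1 ∈ Zs (G1 ∪ G2) f φ u ∧ t.1.2 ∈ Zs (G1 ∪ G2) f φ u ∧
          t.2 • t.1.1 + (1 - t.2) • t.1.2 ∈ Zs (G1 ∪ G2) f φ u} ≤ (C + 1) * p ^ (2 * r) := by
      refine S7_arith2 hpC ?_
      have hS := LVY.tt_scal {x : Fin q → ZMod p | ∀ g ∈ G1 ∪ G2, MvPolynomial.eval₂ φ x g = 0} (by
        intro x hx l g hg
        obtain ⟨n, hn⟩ := hG g hg
        rw [S7_smul φ hn, hx g hg, mul_zero])
        (fun k => φ ((f 0).coeff (Finsupp.single k 1))) (u 0) (hu 0)
      have e1 : Nat.card {t : ((Fin q → ZMod p) × (Fin q → ZMod p)) × ZMod p //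
          t.1.1 ∈ Zs (G1 ∪ G2) f φ u ∧ t.1.2 ∈ Zs (G1 ∪ G2) f φ u ∧
            t.2 • t.1.1 + (1 - t.2) • t.1.2 ∈ Zs (G1 ∪ G2) f φ u} ≤
          Nat.card {t : ((Fin q → ZMod p) × (Fin q → ZMod p)) × ZMod p //
            (t.1.1 ∈ {x : Fin q → ZMod p | ∀ g ∈ G1 ∪ G2, MvPolynomial.eval₂ φ x g = 0} ∧
              ∑ k, φ ((f 0).coeff (Finsupp.single k 1)) * t.1.1 k = u 0) ∧
            (t.1.2 ∈ {x : Fin q → ZMod p | ∀ g ∈ G1 ∪ G2, MvPolynomial.eval₂ φ x g = 0} ∧
              ∑ k, φ ((f 0).coeff (Finsupp.single k 1)) * t.1.2 k = u 0) ∧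
            t.2 • t.1.1 + (1 - t.2) • t.1.2 ∈
              {x : Fin q → ZMod p | ∀ g ∈ G1 ∪ G2, MvPolynomial.eval₂ φ x g = 0} ∧
              ∑ k, φ ((f 0).coeff (Finsupp.single k 1)) * (t.2 • t.1.1 + (1 - t.2) • t.1.2) k = u 0} := by
        refine Nat.card_le_card_of_injective (fun t => ⟨t.1, (hmemZ _).1 t.2.1, (hmemZ _).1 t.2.2.1,
          ((hmemZ _).1 t.2.2.2).1, ((hmemZ _).1 t.2.2.2).2⟩) ?_
        intro a b hab
        exact Subtype.ext (congrArg (fun z => z.1) hab)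
      have e2 : Nat.card {t : ((Fin q → ZMod p) × (Fin q → ZMod p)) × ZMod p //
          t.1.1 ∈ {x : Fin q → ZMod p | ∀ g ∈ G1 ∪ G2, MvPolynomial.eval₂ φ x g = 0} ∧
            t.1.2 ∈ {x : Fin q → ZMod p | ∀ g ∈ G1 ∪ G2, MvPolynomial.eval₂ φ x g = 0} ∧
              t.2 • t.1.1 + (1 - t.2) • t.1.2 ∈
                {x : Fin q → ZMod p | ∀ g ∈ G1 ∪ G2, MvPolynomial.eval₂ φ x g = 0}} ≤
          Nat.card {t : ((Fin q → ZMod p) × (Fin q → ZMod p)) × ZMod p //
            (∀ g ∈ G1, MvPolynomial.eval₂ φ t.1.1 g = 0) ∧ (∀ g ∈ G1, MvPolynomial.eval₂ φ t.1.2 g = 0) ∧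
              ∀ g ∈ G1, MvPolynomial.eval₂ φ (t.2 • t.1.1 + (1 - t.2) • t.1.2) g = 0} := by
        refine Nat.card_le_card_of_injective
          (fun t => ⟨t.1, fun g hg => t.2.1 g (Finset.mem_union_left _ hg),
            fun g hg => t.2.2.1 g (Finset.mem_union_left _ hg),
            fun g hg => t.2.2.2 g (Finset.mem_union_left _ hg)⟩) ?_
        intro a b hab
        exact Subtype.ext (congrArg (fun z => z.1) hab)
      refine (Nat.mul_le_mul_left _ e1).trans (hS.trans (e2.trans (c3.trans_eq ?_)))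
      rw [← pow_add]
      congr 2
    refine mom1 h64 hr1 (Zs (G1 ∪ G2) f φ u) (fun k => φ ((f 0).coeff (Finsupp.single k 1))) (u 0)
      (hu 0) (fun x hx => ((hmemZ x).1 hx).2) (C + 1) hA hB y hy

end LVZ
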